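import Pool.Agent.MDX.XTP

/-! # Sequences which agree on a long window are near

PROOF. For `W : ℕ` let `K W` be the set of the pairs `(x, y)` in `XX N × XX N` with
`|x n - y n| ≤ 1 / (W + 1)` for all `|n| ≤ W`. These sets are closed and decreasing, and their
intersection is the diagonal. The set `{(x, y) | ε ≤ d x y}` is closed (`IsCompatibleMetric.continuous`)
in a compact space, so it is compact, and it is disjoint from the intersection of the `K W`
(`d x x = 0 < ε`). So it is disjoint from some `K W`
(`IsCompact.elim_directed_family_closed_of_isCompact` or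
`IsCompact.inter_iInter_nonempty` and monotonicity). Take this `W` and `s = 1 / (W + 1)`.
-/

open Set Filter Topology

namespace Pool.Agent.MDX

open Pool.Agent.MMD

theorem exists_agree {N : ℕ → ℕ} {d : XX N → XX N → ℝ} (hd : IsCompatibleMetric d) {ε : ℝ}
    (hε : 0 < ε) : ∃ (W : ℕ) (s : ℝ), 0 < s ∧
      ∀ x y : XX N, (∀ n : ℤ, |n| ≤ W → |x.1 n - y.1 n| ≤ s) → d x y < ε := by
  by_contra hcon
  push Not at hcon
  let t : ℕ → Set (XX N × XX N) := fun W =>
    {p | ε ≤ d p.1 p.2} ∩ {p | ∀ n : ℤ, |n| ≤ W → |p.1.1 n - p.2.1 n| ≤ 1 / ((W : ℝ) + 1)}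
  have hcl : ∀ W, IsClosed (t W) := by
    intro W
    refine IsClosed.inter ?_ ?_
    · exact isClosed_le continuous_const hd.continuous
    · simp only [Set.ofPred_forall]
      refine isClosed_iInter fun n => isClosed_iInter fun _ => ?_
      refine isClosed_le ?_ continuous_const
      have h1 : Continuous fun p : XX N × XX N => p.1.1 n :=
        (continuous_apply n).comp (continuous_subtype_val.comp continuous_fst)
      have h2 : Continuous fun p : XX N × XX N => p.2.1 n :=
        (continuous_apply n).comp (continuous_subtype_val.comp continuous_snd)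
      exact (h1.sub h2).abs
  have hne : (⋂ W, t W).Nonempty := by
    refine IsCompact.nonempty_iInter_of_sequence_nonempty_isCompact_isClosed t ?_ ?_ ?_ hcl
    · rintro W p ⟨h1, h2⟩
      refine ⟨h1, fun n hn => ?_⟩
      have h3 := h2 n (by push_cast; linarith)
      refine h3.trans ?_
      push_cast
      apply one_div_le_one_div_of_le
      · positivity
      · linarith
    · intro W
      obtain ⟨x, y, h1, h2⟩ := hcon W (1 / ((W : ℝ) + 1)) (by positivity)
      exact ⟨(x, y), h2, h1⟩
    · exact (hcl 0).isCompact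
  obtain ⟨⟨x, y⟩, hp⟩ := hne
  rw [Set.mem_iInter] at hp
  have hxy : x = y := by
    apply Subtype.ext
    funext n
    have h1 : ∀ W : ℕ, |n| ≤ W → |x.1 n - y.1 n| ≤ 1 / ((W : ℝ) + 1) := fun W hW =>
      (hp W).2 n hW
    have h2 : |x.1 n - y.1 n| ≤ 0 := by
      refine ge_of_tendsto tendsto_one_div_add_atTop_nhds_zero_nat ?_
      filter_upwards [Filter.eventually_ge_atTop n.natAbs] with W hW
      refine h1 W ?_
      rw [Int.abs_eq_natAbs]
      exact_mod_cast hW
    have h3 := abs_nonpos_iff.1 h2
    linarith
  have h4 : ε ≤ d x y := (hp 0).1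
  rw [hxy, hd.dist_self] at h4
  linarith

end Pool.Agent.MDX
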