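import Pool.Agent.MDX.Defs

/-! # Equivariant choices for a free action of a cyclic group

PROOF of `exists_equi`. Say `x ~ y` if `y = T^[k] x` for some `k`. On `B` this is an equivalence
relation since `T^[p] x = x` (inverse of `T^[k]`: `T^[p * k - k]`, or reduce `k` mod `p`). For
`x ∈ B` we have `T^[k] x = x ↔ p ∣ k`: the minimal period of `x` divides `p` (`Function.IsPeriodicPt`,
`Function.minimalPeriod`, `Function.IsPeriodicPt.minimalPeriod_dvd`) and is not `1` since `T x ≠ x`,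
so it is `p`; then `Function.isPeriodicPt_iff_minimalPeriod_dvd`. Choose a representative `r x ∈ B` of
the class of `x ∈ B` which depends on the class only (`Quotient.out`, or `Classical.epsilon` of the
set of all `y` with `x ~ y`), and an element `m (r x) ∈ M (r x)`. If `x = T^[k] (r x)` put
`f x = m (r x) - k`; this does not depend on `k` since `k` is unique mod `p`. Then `f x ∈ M x`
(induction on `k` with `hTM`) and `f (T x) = m (r x) - (k + 1)`. Off `B` put `f x = 0`.
-/

open Set Filter Topology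

namespace Pool.Agent.MDX

open Pool.Agent.MMD

private lemma EQC_mem {A : Type*} {B : Set A} {T : A → A} (hTB : ∀ x ∈ B, T x ∈ B) (k : ℕ) {x : A}
    (hx : x ∈ B) : T^[k] x ∈ B := by
  induction k with
  | zero => exact hx
  | succ k ih =>
    rw [Function.iterate_succ_apply']
    exact hTB _ ih

private lemma EQC_per {p : ℕ} {A : Type*} {T : A → A} {x : A} (hx : T^[p] x = x) (k : ℕ) :
    T^[p * k] x = x := by
  induction k with
  | zero => rfl
  | succ k ih => rw [Nat.mul_succ, Function.iterate_add_apply, hx, ih]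

private lemma EQC_uni {p : ℕ} [Fact p.Prime] {A : Type*} {B : Set A} {T : A → A}
    (hTB : ∀ x ∈ B, T x ∈ B) (hTp : ∀ x ∈ B, T^[p] x = x) (hfree : ∀ x ∈ B, T x ≠ x) {y : A}
    (hy : y ∈ B) {a b : ℕ} (hab : a ≤ b) (h : T^[a] y = T^[b] y) : (a : ZMod p) = b := by
  obtain ⟨c, rfl⟩ := Nat.exists_eq_add_of_le hab
  rw [Nat.add_comm, Function.iterate_add_apply] at h
  have hz : T^[a] y ∈ B := EQC_mem hTB a hy
  have h1 : Function.minimalPeriod T (T^[a] y) ∣ c :=
    Function.IsPeriodicPt.minimalPeriod_dvd h.symm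
  have h2 : Function.minimalPeriod T (T^[a] y) ∣ p :=
    Function.IsPeriodicPt.minimalPeriod_dvd (hTp _ hz)
  rcases (Nat.dvd_prime (Fact.out : p.Prime)).1 h2 with h3 | h3
  · exfalso
    apply hfree _ hz
    have h4 := Function.isPeriodicPt_minimalPeriod T (T^[a] y)
    rw [h3] at h4
    exact h4
  · rw [h3] at h1
    rw [Nat.cast_add, (ZMod.natCast_eq_zero_iff c p).2 h1, add_zero]

private lemma EQC_M {p : ℕ} {A : Type*} {B : Set A} {T : A → A}
    (hTB : ∀ x ∈ B, T x ∈ B) (M : A → Set (ZMod p))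
    (hTM : ∀ x ∈ B, ∀ m ∈ M x, m - 1 ∈ M (T x)) (k : ℕ) {x : A} (hx : x ∈ B) {m : ZMod p}
    (hm : m ∈ M x) : m - k ∈ M (T^[k] x) := by
  induction k with
  | zero =>
    rw [Nat.cast_zero, sub_zero]
    exact hm
  | succ k ih =>
    rw [Function.iterate_succ_apply', Nat.cast_succ, ← sub_sub]
    exact hTM _ (EQC_mem hTB k hx) _ ih

theorem exists_equi {p : ℕ} [Fact p.Prime] {A : Type*} (B : Set A) (T : A → A)
    (hTB : ∀ x ∈ B, T x ∈ B) (hTp : ∀ x ∈ B, T^[p] x = x) (hfree : ∀ x ∈ B, T x ≠ x)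
    (M : A → Set (ZMod p)) (hM : ∀ x ∈ B, (M x).Nonempty)
    (hTM : ∀ x ∈ B, ∀ m ∈ M x, m - 1 ∈ M (T x)) :
    ∃ f : A → ZMod p, (∀ x ∈ B, f x ∈ M x) ∧ ∀ x ∈ B, f (T x) = f x - 1 := by
  classical
  by_cases hA : Nonempty A
  swap
  · exact ⟨fun _ => 0, fun x => (hA ⟨x⟩).elim, fun x => (hA ⟨x⟩).elim⟩
  have hp : 0 < p := (Fact.out : p.Prime).pos
  have hrep : ∀ S : Set A, ∃ a : A, S.Nonempty → a ∈ S := by
    intro S
    by_cases h : S.Nonempty
    · obtain ⟨a, ha⟩ := h
      exact ⟨a, fun _ => ha⟩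
    · exact ⟨Classical.choice hA, fun h' => absurd h' h⟩
  choose rep hrep using hrep
  let orb : A → Set A := fun x => {y | ∃ k : ℕ, T^[k] x = y}
  have horb : ∀ x ∈ B, orb (T x) = orb x := by
    intro x hx
    ext y
    constructor
    · rintro ⟨k, hk⟩
      refine ⟨k + 1, ?_⟩
      rw [Function.iterate_succ_apply]
      exact hk
    · rintro ⟨k, hk⟩
      refine ⟨k + (p - 1), ?_⟩
      rw [← Function.iterate_succ_apply, ← hk]
      have h1 : (k + (p - 1)).succ = k + p := by omega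
      rw [h1, Function.iterate_add_apply, hTp x hx]
  have hk : ∀ x, ∃ k : ℕ, x ∈ B → T^[k] (rep (orb x)) = x := by
    intro x
    by_cases hx : x ∈ B
    · obtain ⟨k₀, hk₀⟩ := hrep (orb x) ⟨x, 0, rfl⟩
      refine ⟨(p - 1) * k₀, fun _ => ?_⟩
      rw [← hk₀, ← Function.iterate_add_apply]
      have h1 : (p - 1) * k₀ + k₀ = p * k₀ := by
        obtain ⟨q, rfl⟩ := Nat.exists_eq_add_of_lt hp
        simp only [zero_add, Nat.add_sub_cancel]
        ring
      rw [h1, EQC_per (hTp x hx)]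
    · exact ⟨0, fun h => absurd h hx⟩
  choose k hk using hk
  have hmm : ∀ y, ∃ m : ZMod p, y ∈ B → m ∈ M y := by
    intro y
    by_cases hy : y ∈ B
    · obtain ⟨m, hm⟩ := hM y hy
      exact ⟨m, fun _ => hm⟩
    · exact ⟨0, fun h => absurd h hy⟩
  choose mm hmm using hmm
  have hrB : ∀ x ∈ B, rep (orb x) ∈ B := by
    intro x hx
    obtain ⟨k₀, hk₀⟩ := hrep (orb x) ⟨x, 0, rfl⟩
    rw [← hk₀]
    exact EQC_mem hTB k₀ hx
  refine ⟨fun x => mm (rep (orb x)) - k x, fun x hx => ?_, fun x hx => ?_⟩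
  · have h1 := EQC_M hTB M hTM (k x) (hrB x hx) (hmm _ (hrB x hx))
    rw [hk x hx] at h1
    exact h1
  · have h1 : T^[k (T x)] (rep (orb x)) = T^[k x + 1] (rep (orb x)) := by
      have h2 := hk (T x) (hTB x hx)
      rw [horb x hx] at h2
      rw [h2, Function.iterate_succ_apply', hk x hx]
    have h3 : (k (T x) : ZMod p) = ((k x + 1 : ℕ) : ZMod p) := by
      rcases le_total (k (T x)) (k x + 1) with h | h
      · exact EQC_uni hTB hTp hfree (hrB x hx) h h1
      · exact (EQC_uni hTB hTp hfree (hrB x hx) h h1.symm).symm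
    simp only
    rw [horb x hx, h3]
    push_cast
    ring

end Pool.Agent.MDX
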