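import Pool.Agent.MDX.EQC

/-! # Invariant sums for a free action of a cyclic group

PROOF of `dvd_sum`. Apply `exists_equi` with `M = univ` to get `f : A → ZMod p` with
`f (T x) = f x - 1` on `B`. The sum over `x` in the support of `Z x * ψ x` splits into the sums over
`f x = i`, `i : ZMod p` (`Finset.sum_fiberwise`), and `T` maps the part `f x = i` of the support
bijectively to the part `f x = i - 1` (`Z (T x) = Z x` for `x ∈ B`: from `hTZ` and injectivity of `T`
on `B`; e.g. evaluate `Finsupp.mapDomain T Z = Z` at `T x`; `T` is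
injective on the support since `T^[p]` is the identity on `B`), and it preserves the summand. So all `p`
sub-sums are equal and the sum is `p` times one of them.
-/

open Set Filter Topology

namespace Pool.Agent.MDX

open Pool.Agent.MMD

theorem dvd_sum {p : ℕ} [Fact p.Prime] {A : Type*} (B : Set A) (T : A → A)
    (hTB : ∀ x ∈ B, T x ∈ B) (hTp : ∀ x ∈ B, T^[p] x = x) (hfree : ∀ x ∈ B, T x ≠ x)
    (Z : A →₀ ℤ) (hZ : ∀ x, Z x ≠ 0 → x ∈ B) (hTZ : Finsupp.mapDomain T Z = Z) (ψ : A → ℤ)
    (hψ : ∀ x ∈ B, ψ (T x) = ψ x) : (p : ℤ) ∣ Z.sum fun x a => a * ψ x := by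
  classical
  obtain ⟨f, -, hf⟩ := exists_equi B T hTB hTp hfree (fun _ => Set.univ)
    (fun _ _ => Set.univ_nonempty) (fun _ _ _ _ => Set.mem_univ _)
  have hp0 : 0 < p := (Fact.out : p.Prime).pos
  have hpp : p - 1 + 1 = p := by omega
  have hback : ∀ x ∈ B, T^[p - 1] (T x) = x := by
    intro x hx
    rw [← Function.iterate_succ_apply, Nat.succ_eq_add_one, hpp]
    exact hTp x hx
  have hforw : ∀ x ∈ B, T (T^[p - 1] x) = x := by
    intro x hx
    rw [← Function.iterate_succ_apply' T (p - 1) x, Nat.succ_eq_add_one, hpp]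
    exact hTp x hx
  have hinj : Set.InjOn T B := by
    intro x hx y hy h
    rw [← hback x hx, ← hback y hy, h]
  have hsup : (Z.support : Set A) ⊆ B := by
    intro x hx
    exact hZ x (Finsupp.mem_support_iff.mp (Finset.mem_coe.mp hx))
  have hZT : ∀ x ∈ B, Z (T x) = Z x := by
    intro x hx
    have h1 := Finsupp.mapDomain_apply' B Z hsup hinj hx
    rw [hTZ] at h1
    exact h1
  have hit : ∀ n : ℕ, ∀ x ∈ B, T^[n] x ∈ B ∧ Z (T^[n] x) = Z x ∧ f (T^[n] x) = f x - n := by
    intro n
    induction n with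
    | zero =>
      intro x hx
      simp [hx]
    | succ n ih =>
      intro x hx
      obtain ⟨h1, h2, h3⟩ := ih x hx
      rw [Function.iterate_succ_apply']
      refine ⟨hTB _ h1, ?_, ?_⟩
      · rw [hZT _ h1, h2]
      · rw [hf _ h1, h3]
        push_cast
        ring
  set P : ZMod p → ℤ := fun i => ∑ x ∈ Z.support.filter (fun x => f x = i), Z x * ψ x with hP
  have hstep : ∀ i, P (i - 1) = P i := by
    intro i
    symm
    refine Finset.sum_nbij' T (T^[p - 1]) ?_ ?_ ?_ ?_ ?_
    · intro x hx
      rw [Finset.mem_filter, Finsupp.mem_support_iff] at hx ⊢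
      have hxB := hZ x hx.1
      rw [hZT x hxB, hf x hxB, hx.2]
      exact ⟨hx.1, rfl⟩
    · intro x hx
      rw [Finset.mem_filter, Finsupp.mem_support_iff] at hx ⊢
      have hxB := hZ x hx.1
      obtain ⟨h1, h2, h3⟩ := hit (p - 1) x hxB
      refine ⟨by rw [h2]; exact hx.1, ?_⟩
      rw [h3, hx.2, Nat.cast_sub hp0, ZMod.natCast_self]
      push_cast
      ring
    · intro x hx
      rw [Finset.mem_filter, Finsupp.mem_support_iff] at hx
      exact hback x (hZ x hx.1)
    · intro x hx
      rw [Finset.mem_filter, Finsupp.mem_support_iff] at hx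
      exact hforw x (hZ x hx.1)
    · intro x hx
      rw [Finset.mem_filter, Finsupp.mem_support_iff] at hx
      have hxB := hZ x hx.1
      rw [hZT x hxB, hψ x hxB]
  have hall : ∀ n : ℕ, P (-(n : ZMod p)) = P 0 := by
    intro n
    induction n with
    | zero => simp
    | succ n ih =>
      rw [← ih, ← hstep (-(n : ZMod p))]
      congr 1
      push_cast
      ring
  have hall' : ∀ i : ZMod p, P i = P 0 := by
    intro i
    have h1 := hall (-i).val
    rw [ZMod.natCast_zmod_val, neg_neg] at h1
    exact h1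
  have hS : (Z.sum fun x a => a * ψ x) = ∑ i : ZMod p, P i := by
    rw [Finsupp.sum]
    exact (Finset.sum_fiberwise Z.support f (fun x => Z x * ψ x)).symm
  rw [hS, Finset.sum_congr rfl (fun i _ => hall' i), Finset.sum_const, Finset.card_univ,
    ZMod.card, nsmul_eq_mul]
  exact Dvd.intro _ rfl

end Pool.Agent.MDX
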