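import Pool.Agent.MDX.Base

/-! # The exterior algebra of the labels

PROOFS.
`om_cone` : on lists (`map_eq'`), `List.prod_cons`.
`om_dup` : if the list is not `Nodup` the product has two equal factors `gen i`; use
`ExteriorAlgebra.ι_sq_zero`, `ExteriorAlgebra.ι_add_mul_swap` (or: a product of `ι`'s is
`ExteriorAlgebra.ιMulti`, an alternating map, and vanishes if two arguments agree:
`AlternatingMap.map_eq_zero_of_eq`, `ExteriorAlgebra.ιMulti_apply`, `List.ofFn`).
`om_eq_zero` : every list of length greater than the number of elements of a finite set which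
contains its entries has a duplicate.
`exists_contraction` : `θ = CliffordAlgebra.contractLeft s` (an exterior algebra is the Clifford
algebra of the form `0`) with the linear form `s v = ∑ i, v i`; then `s (Pi.single i 1) = 1` and
`CliffordAlgebra.contractLeft_ι_mul` is the first property. Second property: on lists, by induction,
with `CliffordAlgebra.contractLeft_one` for the empty list and `om_cone`.
-/

open Set Filter Topology

namespace Pool.Agent.MDX

open Pool.Agent.MMD

variable {κ : Type} [DecidableEq κ]

lemma om_cone (i : κ) (c : Ch κ) : om (cone i c) = gen i * om c := by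
  refine map_eq' (om ∘ₗ cone i) (LinearMap.mulLeft ℤ (gen i) ∘ₗ om) (fun l => ?_) c
  simp

lemma om_dup (l : List κ) (h : ¬ l.Nodup) : (l.map gen).prod = 0 := by
  have h1 : l.map gen = List.ofFn fun i : Fin l.length =>
      ExteriorAlgebra.ι ℤ (Pi.single (l.get i) (1 : ℤ) : κ → ℤ) := by
    apply List.ext_getElem
    · simp
    · intro n h1 h2
      simp [gen]
  rw [h1, ← ExteriorAlgebra.ιMulti_apply]
  rw [List.nodup_iff_injective_get, Function.Injective] at h
  push Not at h
  obtain ⟨i, j, hij, hne⟩ := h
  exact AlternatingMap.map_eq_zero_of_eq _ _ (by simp only [hij]) hne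

/-- pigeonhole: lists longer than the finite set `s` which contains their entries -/
lemma om_eq_zero (s : Finset κ) (n : ℕ) (hn : s.card < n) {c : Ch κ}
    (hc : c ∈ chp fun l => l.length = n ∧ ∀ a ∈ l, a ∈ s) : om c = 0 := by
  refine map_eq om 0 (fun l hl => ?_) hc
  rw [om_single, one_smul, LinearMap.zero_apply]
  apply om_dup
  intro hnd
  have h1 : l.toFinset.card = l.length := List.toFinset_card_of_nodup hnd
  have h2 : l.toFinset ⊆ s := fun a ha => hl.2 a (List.mem_toFinset.mp ha)
  have h3 := Finset.card_le_card h2
  omega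

theorem exists_contraction [Fintype κ] : ∃ θ : Ext κ →ₗ[ℤ] Ext κ,
    (∀ (i : κ) (x : Ext κ), θ (gen i * x) = x - gen i * θ x) ∧
      ∀ c : Ch κ, θ (om c) = om (bd c) := by
  let s : Module.Dual ℤ (κ → ℤ) := ∑ i, LinearMap.proj i
  have hs : ∀ i : κ, s (Pi.single i (1 : ℤ)) = 1 := by
    intro i
    simp [s, LinearMap.sum_apply]
  have h1 : ∀ (i : κ) (x : Ext κ), CliffordAlgebra.contractLeft s (gen i * x) =
      x - gen i * CliffordAlgebra.contractLeft s x := by
    intro i x
    have h2 := CliffordAlgebra.contractLeft_ι_mul (Q := (0 : QuadraticForm ℤ (κ → ℤ))) (d := s)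
      (Pi.single i (1 : ℤ)) x
    rw [hs, one_smul] at h2
    exact h2
  refine ⟨CliffordAlgebra.contractLeft s, h1, fun c => ?_⟩
  refine map_eq' (CliffordAlgebra.contractLeft s ∘ₗ om) (om ∘ₗ bd) (fun l => ?_) c
  induction l with
  | nil =>
    simp only [LinearMap.comp_apply, om_single, one_smul, List.map_nil, List.prod_nil, bd_single,
      bdl_nil, map_zero]
    exact CliffordAlgebra.contractLeft_one (0 : QuadraticForm ℤ (κ → ℤ)) s
  | cons a l ih =>
    simp only [LinearMap.comp_apply, om_single, one_smul, List.map_cons, List.prod_cons,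
      bd_single, bdl_cons, map_sub, om_cone] at ih ⊢
    rw [h1, ih]

end Pool.Agent.MDX
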