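import Pool.Agent.MDX.PRS
import Pool.Agent.MDX.OMA
import Pool.Agent.MDX.DVD

/-! # The orientation functional of two equivariant labellings agrees modulo p

PROOF. Let `θ` be the contraction of `exists_contraction`. By `pr_bd` and `hbd`,
`mp g Z - mp f Z = bd P` with `P = pr f g Z`, a chain of lists of length `p` (`pr_mem`). Now
`gen 0 * om (bd P) = gen 0 * θ (om P) = om P - θ (gen 0 * om P)` and `gen 0 * om P = om (cone 0 P)
= 0` by `om_eq_zero` (lists of length `p + 1` with entries in the `p`-element set `univ`). So the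
number in question is `φ (om P) = ∑ Z l * ψ l`, the sum over the support of `Z`, with
`ψ l = φ (om (prl f g l))` (linearity: `φ (om (pr f g Z))`, `pr` is a `Finsupp.linearCombination`).
For `l` a list of length `p - 1` with entries in `B`, `prl f g (l.map T) = mp (· - 1) (prl f g l)`
(`prl_map`), and `φ (om (mp (· - 1) c)) = φ (om c)` for `c` in `chp (length p)` by `hφ` and `map_eq`;
so `ψ (l.map T) = ψ l`. Apply `dvd_sum` to lists: `A = List E`, the set of the lists of length
`p - 1 ≥ 1` with entries in `B`, the map `List.map T`; its `p`-th iterate is the identity there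
(iterate of `List.map T` is `List.map T^[p]`), it has no fixed points since the first entry
would be fixed, and `Finsupp.mapDomain (List.map T) Z = mp T Z = Z` (`mp` is `Finsupp.lmapDomain`).
-/

open Set Filter Topology

namespace Pool.Agent.MDX

open Pool.Agent.MMD

private lemma mpt_iter {E : Type*} (T : E → E) (n : ℕ) (l : List E) :
    (List.map T)^[n] l = l.map (T^[n]) := by
  induction n generalizing l with
  | zero => simp
  | succ n ih => rw [Function.iterate_succ_apply, ih, List.map_map]; rfl

theorem mod_p {p : ℕ} [Fact p.Prime] {E : Type*} (B : Set E) (T : E → E)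
    (hTB : ∀ x ∈ B, T x ∈ B) (hTp : ∀ x ∈ B, T^[p] x = x) (hfree : ∀ x ∈ B, T x ≠ x)
    (f g : E → ZMod p) (hf : ∀ x ∈ B, f (T x) = f x - 1) (hg : ∀ x ∈ B, g (T x) = g x - 1)
    (φ : Ext (ZMod p) →ₗ[ℤ] ℤ)
    (hφ : ∀ l : List (ZMod p), l.length = p →
      φ (om (Finsupp.single (l.map (· - 1)) 1)) = φ (om (Finsupp.single l 1)))
    {Z : Ch E} (hZ : Z ∈ chp fun l => l.length + 1 = p ∧ ∀ a ∈ l, a ∈ B) (hbd : bd Z = 0)
    (hTZ : mp T Z = Z) :
    (p : ℤ) ∣ φ (gen 0 * om (mp g Z)) - φ (gen 0 * om (mp f Z)) := by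
  have hp1 : 1 < p := (Fact.out : p.Prime).one_lt
  obtain ⟨θ, hθ1, hθ2⟩ := exists_contraction (κ := ZMod p)
  set P : Ch (ZMod p) := pr f g Z with hPdef
  have hP : P ∈ chp fun l => l.length = p := by
    have h1 : Z ∈ chp fun l => l.length = p - 1 := chp_mono (fun l hl => by omega) hZ
    exact chp_mono (fun l hl => by omega) (pr_mem f g (p - 1) h1)
  have h1 : bd P = mp g Z - mp f Z := by
    have := pr_bd f g Z
    rw [hbd, map_zero, add_zero] at this
    exact this
  have h2 : gen 0 * om P = 0 := by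
    rw [← om_cone]
    refine om_eq_zero (Finset.univ : Finset (ZMod p)) (p + 1) ?_
      (cone_mem (P := fun l => l.length = p) (fun l hl => ⟨by simp [hl], fun a _ => Finset.mem_univ a⟩) hP)
    rw [Finset.card_univ, ZMod.card]; omega
  have h3 : φ (gen 0 * om (mp g Z)) - φ (gen 0 * om (mp f Z)) = φ (om P) := by
    rw [← map_sub, ← mul_sub, ← map_sub, ← h1, ← hθ2]
    have h4 := hθ1 0 (om P)
    rw [h2, map_zero] at h4
    rw [← sub_eq_zero.mp h4.symm]
  have h5 : φ (om P) = Z.sum fun l a => a * φ (om (prl f g l)) := by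
    rw [hPdef, pr, Finsupp.linearCombination_apply, Finsupp.sum, map_sum, map_sum, Finsupp.sum]
    refine Finset.sum_congr rfl fun l _ => ?_
    rw [map_smul, map_smul, smul_eq_mul]
  rw [h3, h5]
  refine dvd_sum {l : List E | l.length + 1 = p ∧ ∀ a ∈ l, a ∈ B} (List.map T) ?_ ?_ ?_ Z
    (mem_chp.mp hZ) hTZ _ ?_
  · rintro l ⟨hl, hlB⟩
    refine ⟨by rw [List.length_map]; exact hl, fun a ha => ?_⟩
    obtain ⟨b, hb, rfl⟩ := List.mem_map.mp ha
    exact hTB b (hlB b hb)
  · rintro l ⟨hl, hlB⟩
    rw [mpt_iter]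
    conv_rhs => rw [← List.map_id l]
    exact List.map_congr_left fun a ha => hTp a (hlB a ha)
  · rintro l ⟨hl, hlB⟩ h
    cases l with
    | nil => simp at hl; omega
    | cons a l =>
      rw [List.map_cons, List.cons.injEq] at h
      exact hfree a (hlB a (by simp)) h.1
  · rintro l ⟨hl, hlB⟩
    have h6 : prl f g (l.map T) = mp (· - 1) (prl f g l) :=
      prl_map f g T (· - 1) l (fun a ha => hf a (hlB a ha)) (fun a ha => hg a (hlB a ha))
    have h7 : prl f g l ∈ chp fun l => l.length = p := by
      have h8 : Finsupp.single l (1 : ℤ) ∈ chp fun l : List E => l.length = p - 1 :=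
        single_mem_chp (by omega) 1
      have h9 := pr_mem f g (p - 1) h8
      rw [pr_single, one_smul] at h9
      exact chp_mono (fun l hl => by omega) h9
    rw [h6]
    refine map_eq ((φ ∘ₗ om) ∘ₗ mp (· - 1)) (φ ∘ₗ om) (P := fun l => l.length = p)
      (fun l hl => ?_) h7
    simp only [LinearMap.comp_apply]
    rw [mp_single]
    exact hφ l hl

end Pool.Agent.MDX
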