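import Pool.Agent.MDX.OMA

/-! # The orientation functional

PROOF. Let `e : Fin p ≃ ZMod p` be a bijection with `e i = (i : ZMod p)` (for instance
`ZMod.finEquiv p`, or `Equiv.ofBijective`). Let `D` be the alternating map of `p` vectors
`v : Fin p → (ZMod p → ℤ)`, `D v = det (i, j) ↦ v (e.symm i) j`, the matrix being indexed by
`ZMod p × ZMod p` (`Matrix.detRowAlternating` and `AlternatingMap.domDomCongr`). Let
`φ = ExteriorAlgebra.liftAlternating` of the family which is `D` in degree `p` and `0` in the
other degrees (the family is indexed by `i : ℕ`; use `if h : i = p then h ▸ D else 0` or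
`Function.update 0 p D`, or `Pi.single p D`); `ExteriorAlgebra.liftAlternating_apply_ιMulti`. For a list `l` of length `p`,
`(l.map gen).prod = ιMulti (fun i => Pi.single (l.get i) 1)`, so `φ` of it is the determinant of the
matrix whose rows are `Pi.single (l_i) 1`. For `LL p` this is the identity matrix: `1`. For the
shifted list the matrix is `M` with permuted columns, `M'(i,j) = M(i, j + 1)`, so its
determinant is `sign τ * det M`, `τ j = j + 1` (`Matrix.det_permute'` or
`Matrix.det_permute`, `Equiv.addRight 1`). Since `τ ^ p = 1`, `(sign τ) ^ p = 1`, and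
`p` is odd, so `sign τ = 1` (`sign τ = 1 ∨ sign τ = -1`, `Int.units_eq_one_or`).
(`Fact p.Prime` and `p ≠ 2` give `p` odd: `Nat.Prime.odd_of_ne_two`.)
-/

open Set Filter Topology

namespace Pool.Agent.MDX

open Pool.Agent.MMD

theorem exists_phi (p : ℕ) [Fact p.Prime] (hp : p ≠ 2) : ∃ φ : Ext (ZMod p) →ₗ[ℤ] ℤ,
    φ (om (Finsupp.single (LL p) 1)) = 1 ∧
      ∀ l : List (ZMod p), l.length = p →
        φ (om (Finsupp.single (l.map (· - 1)) 1)) = φ (om (Finsupp.single l 1)) := by
  have hpp : p.Prime := Fact.out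
  have hinj : Function.Injective fun i : Fin p => ((i : ℕ) : ZMod p) := by
    intro i j hij
    have h := congrArg ZMod.val hij
    rw [ZMod.val_natCast_of_lt i.2, ZMod.val_natCast_of_lt j.2] at h
    exact Fin.ext h
  have hbij : Function.Bijective fun i : Fin p => ((i : ℕ) : ZMod p) :=
    (Fintype.bijective_iff_injective_and_card _).mpr ⟨hinj, by simp [ZMod.card]⟩
  let e : Fin p ≃ ZMod p := Equiv.ofBijective _ hbij
  have he : ∀ i : Fin p, e i = ((i : ℕ) : ZMod p) := fun i => rfl
  let D : (ZMod p → ℤ) [⋀^Fin p]→ₗ[ℤ] ℤ :=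
    (Matrix.detRowAlternating (n := Fin p) (R := ℤ)).compLinearMap (LinearMap.funLeft ℤ ℤ e)
  have hD : ∀ v : Fin p → ZMod p → ℤ, D v = Matrix.det (Matrix.of fun i j => v i (e j)) :=
    fun v => rfl
  let φ : Ext (ZMod p) →ₗ[ℤ] ℤ :=
    ExteriorAlgebra.liftAlternating (Pi.single p D)
  have hφ : ∀ l : List (ZMod p), ∀ hl : l.length = p, φ (om (Finsupp.single l 1)) =
      Matrix.det (Matrix.of fun i j : Fin p =>
        (Pi.single (l.get (Fin.cast hl.symm i)) (1 : ℤ) : ZMod p → ℤ) (e j)) := by
    intro l hl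
    rw [om_single, one_smul]
    have h1 : l.map gen = List.ofFn fun i : Fin p =>
        ExteriorAlgebra.ι ℤ (Pi.single (l.get (Fin.cast hl.symm i)) (1 : ℤ) : ZMod p → ℤ) := by
      apply List.ext_getElem
      · simp [hl]
      · intro n h1 h2
        simp [gen]
    rw [h1, ← ExteriorAlgebra.ιMulti_apply, ExteriorAlgebra.liftAlternating_apply_ιMulti,
      Pi.single_eq_same, hD]
  refine ⟨φ, ?_, fun l hl => ?_⟩
  · rw [hφ (LL p) (by simp [LL])]
    have h1 : (Matrix.of fun i j : Fin p =>
        (Pi.single ((LL p).get (Fin.cast (by simp [LL]) i)) (1 : ℤ) : ZMod p → ℤ) (e j)) = 1 := by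
      ext i j
      rw [Matrix.of_apply, Matrix.one_apply, Pi.single_apply]
      have h2 : (LL p).get (Fin.cast (by simp [LL]) i) = e i := by
        rw [he]
        simp [LL] <;> rfl
      rw [h2]
      by_cases hij : i = j
      · simp [hij]
      · rw [if_neg (fun h => hij (e.injective h).symm), if_neg hij]
    rw [h1, Matrix.det_one]
  · rw [hφ l hl, hφ (l.map (· - 1)) (by simp [hl])]
    let τ : Equiv.Perm (Fin p) := (e.trans (Equiv.addRight 1)).trans e.symm
    have hτ : ∀ j, e (τ j) = e j + 1 := fun j => by simp [τ]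
    have h1 : (Matrix.of fun i j : Fin p =>
        (Pi.single ((l.map (· - 1)).get (Fin.cast (by simp [hl]) i)) (1 : ℤ) : ZMod p → ℤ) (e j)) =
        (Matrix.of fun i j : Fin p =>
          (Pi.single (l.get (Fin.cast hl.symm i)) (1 : ℤ) : ZMod p → ℤ) (e j)).submatrix id τ := by
      ext i j
      rw [Matrix.submatrix_apply, Matrix.of_apply, Matrix.of_apply, Pi.single_apply,
        Pi.single_apply, hτ]
      simp only [List.get_eq_getElem, List.getElem_map, Fin.val_cast, id, eq_sub_iff_add_eq]
    rw [h1, Matrix.det_permute']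
    have h2 : Equiv.Perm.sign τ = Equiv.Perm.sign (Equiv.addRight (1 : ZMod p)) :=
      Equiv.Perm.sign_trans_trans_symm (Equiv.addRight (1 : ZMod p)) e
    have h3 : (Equiv.Perm.sign (Equiv.addRight (1 : ZMod p))) ^ p = 1 := by
      have h6 : ∀ n : ℕ, (Equiv.addRight (1 : ZMod p)) ^ n = Equiv.addRight (n : ZMod p) := by
        intro n
        induction n with
        | zero => ext x; simp
        | succ n ih =>
          rw [pow_succ, ih]
          ext x
          simp only [Equiv.Perm.mul_apply, Equiv.coe_addRight, Nat.cast_succ]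
          ring
      rw [← map_pow, h6]
      simp
    have h4 : Odd p := hpp.odd_of_ne_two hp
    have h5 : Equiv.Perm.sign τ = 1 := by
      rw [h2]
      rcases Int.units_eq_one_or (Equiv.Perm.sign (Equiv.addRight (1 : ZMod p))) with h | h
      · exact h
      · rw [h, h4.neg_one_pow] at h3
        exact absurd h3 (by decide)
    rw [h5]
    simp

end Pool.Agent.MDX
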