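import Pool.Agent.MDX.SDA
import Pool.Agent.MDX.OMA

/-! # Sperner labellings

PROOF. Fix `r`; induction on `n`, the claim being for all `c` in `chp (length n)`; by `map_eq` it is
enough to take `c = single l 1`, `l` a list of labels of length `n`. Put
`F c = om (mp f ((sd n)^[r] (mp vx c)))`.
`n = 0`: `l = []`, `sd 0` is the identity, `F [] = om [] `.
Step from `n` to `n + 1 < p`: let `l = i :: l'` of length `n + 1`. Let `θ` be the contraction of
`exists_contraction`. Then `θ (F l) = om (bd (mp f ((sd (n+1))^[r] (mp vx l)))) =
om (mp f ((sd n)^[r] (mp vx (bd l))))` by `mp_bd` and `bd_sd_iter`, and this is `om (bd l) = θ (om l)`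
by the induction hypothesis (`bd l` is in `chp (length n)`, `bd_mem`). So `x = F l - om l` has
`θ x = 0`. Moreover `gen i * x = 0`: the lists of `(sd (n+1))^[r] (mp vx l)` have length `n + 1` and
entries in the convex set `K = {y | (∀ m, 0 ≤ y m) ∧ ∑ m, y m = 1 ∧ ∀ m, m ∉ l → y m = 0}`
(`sd_iter_hull` with a constant family, the vertices `vx m`, `m ∈ l`, are in `K`); since `l` has fewer than `p` entries some
`m` is not in `l`, so `K ⊆ Bd p` and `f y ∈ l` for `y ∈ K` (`hf` : `y (f y) ≠ 0`). Hence
`cone i (mp f (..))` is in `chp (length n + 2, entries in l.toFinset)` and `om` of it is zero by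
`om_eq_zero` (`l.toFinset.card ≤ n + 1`), and the same for `cone i l`; use `om_cone`.
Therefore `x = θ (gen i * x) + gen i * θ x = 0`.
-/

open Set Filter Topology

namespace Pool.Agent.MDX

open Pool.Agent.MMD

theorem sperner (p : ℕ) [Fact p.Prime] (f : (ZMod p → ℝ) → ZMod p)
    (hf : ∀ y ∈ Bd p, y (f y) ≠ 0) (r n : ℕ) (hn : n < p) {c : Ch (ZMod p)}
    (hc : c ∈ chp fun l => l.length = n) :
    om (mp f ((sd n)^[r] (mp vx c))) = om c := by
  induction n generalizing c with
  | zero =>
    have h1 := map_eq (om ∘ₗ mp f ∘ₗ ((sd 0) ^ r) ∘ₗ mp vx) om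
      (P := fun l : List (ZMod p) => l.length = 0) (fun l hl => by
        have hl' : l = [] := List.length_eq_zero_iff.mp hl
        subst hl'
        simp only [LinearMap.comp_apply, Module.End.pow_apply, mp_single, List.map_nil]
        rw [Function.iterate_fixed (sd_zero _) r, mp_single, List.map_nil]) hc
    simpa only [LinearMap.comp_apply, Module.End.pow_apply] using h1
  | succ n ih =>
    have h1 := map_eq (om ∘ₗ mp f ∘ₗ ((sd (n + 1)) ^ r) ∘ₗ mp vx) om
      (P := fun l : List (ZMod p) => l.length = n + 1) (fun l hl => by
        simp only [LinearMap.comp_apply, Module.End.pow_apply]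
        obtain ⟨θ, hθ1, hθ2⟩ := exists_contraction (κ := ZMod p)
        obtain ⟨i, l', rfl⟩ : ∃ i l', l = i :: l' := by
          cases l with
          | nil => simp at hl
          | cons i l' => exact ⟨i, l', rfl⟩
        set l := i :: l' with hldef
        set Z := (sd (n + 1))^[r] (mp vx (Finsupp.single l 1)) with hZ
        set K : Set (ZMod p → ℝ) :=
          {y | (∀ m, 0 ≤ y m) ∧ ∑ m, y m = 1 ∧ ∀ m, m ∉ l → y m = 0} with hK
        have hKc : Convex ℝ K := by
          intro y hy z hz a b ha hb hab
          refine ⟨fun m => ?_, ?_, fun m hm => ?_⟩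
          · simp only [Pi.add_apply, Pi.smul_apply, smul_eq_mul]
            exact add_nonneg (mul_nonneg ha (hy.1 m)) (mul_nonneg hb (hz.1 m))
          · simp only [Pi.add_apply, Pi.smul_apply, smul_eq_mul, Finset.sum_add_distrib,
              ← Finset.mul_sum, hy.2.1, hz.2.1]
            linarith
          · simp [hy.2.2 m hm, hz.2.2 m hm]
        have hθ : θ (om (mp f Z)) = θ (om (Finsupp.single l 1)) := by
          rw [hθ2, hθ2, ← mp_bd, hZ, bd_sd_iter, ← mp_bd]
          exact ih (by omega) (bd_mem (P := fun l => l.length = n + 1)
            (fun a b ha _ hb => by omega) (single_mem_chp hl 1))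
        have hcard : l.toFinset.card < n + 2 := by
          have := List.toFinset_card_le l
          omega
        have hZm : Z ∈ chp fun l0 => l0.length = n + 1 ∧ ∃ _ : Unit, ∀ a ∈ l0, a ∈ K := by
          rw [hZ]
          refine sd_iter_hull (ι := Unit) (K := fun _ => K) (fun _ => hKc) (n + 1) r ?_
          rw [mp_single]
          refine single_mem_chp ⟨by simpa using hl, (), ?_⟩ 1
          intro a ha
          obtain ⟨m, hm, rfl⟩ := List.mem_map.mp ha
          refine ⟨fun k => ?_, ?_, fun k hk => ?_⟩
          · by_cases hkm : k = m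
            · subst hkm
              simp [vx]
            · simp [vx, hkm]
          · simp [vx]
          · have : k ≠ m := fun h => hk (h ▸ hm)
            simp [vx, this]
        have hfK : ∀ y ∈ K, f y ∈ l.toFinset := by
          intro y hy
          have hex : ∃ m : ZMod p, m ∉ l.toFinset := by
            by_contra hcon
            push Not at hcon
            have : (Finset.univ : Finset (ZMod p)) ⊆ l.toFinset := fun m _ => hcon m
            have h2 := Finset.card_le_card this
            rw [Finset.card_univ, ZMod.card] at h2
            have := List.toFinset_card_le l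
            omega
          obtain ⟨m, hm⟩ := hex
          have hyB : y ∈ Bd p := ⟨hy.1, hy.2.1, m, hy.2.2 m (fun h => hm (List.mem_toFinset.mpr h))⟩
          by_contra hcon
          exact hf y hyB (hy.2.2 _ (fun h => hcon (List.mem_toFinset.mpr h)))
        have hg1 : gen i * om (mp f Z) = 0 := by
          rw [← om_cone]
          refine om_eq_zero l.toFinset (n + 2) hcard ?_
          refine cone_mem (P := fun l0 : List (ZMod p) => l0.length = n + 1 ∧
            ∀ a ∈ l0, a ∈ l.toFinset) ?_ ?_
          · rintro l0 ⟨h1, h2⟩
            refine ⟨by simp [h1], ?_⟩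
            intro a ha
            rcases List.mem_cons.mp ha with rfl | ha
            · simp [hldef]
            · exact h2 a ha
          · refine mp_mem ?_ hZm
            rintro l0 ⟨h1, _, h2⟩
            refine ⟨by simpa using h1, ?_⟩
            intro a ha
            obtain ⟨y, hy, rfl⟩ := List.mem_map.mp ha
            exact hfK y (h2 y hy)
        have hg2 : gen i * om (Finsupp.single l 1) = 0 := by
          rw [← om_cone, cone_single]
          refine om_eq_zero l.toFinset (n + 2) hcard (single_mem_chp ⟨by simp [hl], ?_⟩ 1)
          intro a ha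
          rcases List.mem_cons.mp ha with rfl | ha
          · simp [hldef]
          · exact List.mem_toFinset.mpr ha
        have hx := hθ1 i (om (mp f Z) - om (Finsupp.single l 1))
        rw [mul_sub, hg1, hg2, sub_zero, map_zero, map_sub, hθ, sub_self, mul_zero, sub_zero] at hx
        exact (sub_eq_zero.mp hx.symm)) hc
    simpa only [LinearMap.comp_apply, Module.End.pow_apply] using h1

end Pool.Agent.MDX
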