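import Pool.Agent.MDX.SDA

/-! # Barycentric subdivision is alternating -/

open Set Filter Topology

namespace Pool.Agent.MDX

open Pool.Agent.MMD

variable {E : Type*} [AddCommGroup E] [Module ℝ E]

/-- the span of the sums of a list and the list with two neighbouring entries exchanged -/
private noncomputable def Sw (E : Type*) (m : ℕ) : Submodule ℤ (Ch E) :=
  Submodule.span ℤ {c | ∃ (u w : List E) (a b : E), (u ++ a :: b :: w).length = m ∧
    c = Finsupp.single (u ++ a :: b :: w) 1 + Finsupp.single (u ++ b :: a :: w) 1}

private lemma sw_cone {E : Type*} {m : ℕ} (x : E) {c : Ch E} (hc : c ∈ Sw E m) :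
    cone x c ∈ Sw E (m + 1) := by
  have h : Sw E m ≤ (Sw E (m + 1)).comap (cone x) := by
    refine Submodule.span_le.mpr ?_
    rintro _ ⟨u, w, a, b, h, rfl⟩
    refine Submodule.subset_span ⟨x :: u, w, a, b, ?_, ?_⟩
    · rw [List.cons_append, List.length_cons, h]
    · rw [map_add, cone_single, cone_single]
      rfl
  exact h hc

private lemma sw_bdl {E : Type*} (u w : List E) (a b : E) (m : ℕ)
    (h : (u ++ a :: b :: w).length = m + 1) :
    bdl (u ++ a :: b :: w) + bdl (u ++ b :: a :: w) ∈ Sw E m := by
  induction u generalizing m with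
  | nil =>
    have h1 : bdl ([] ++ a :: b :: w) + bdl ([] ++ b :: a :: w) =
        ((cone a ∘ₗ cone b + cone b ∘ₗ cone a : Ch E →ₗ[ℤ] Ch E)) (bdl w) := by
      simp only [List.nil_append, bdl_cons, map_sub, cone_single, LinearMap.add_apply,
        LinearMap.comp_apply]
      abel
    rw [h1]
    refine map_mem _ _ (P := fun l' => l'.Sublist w ∧ l'.length + 1 = w.length) (fun l' hl' => ?_)
      (bdl_mem w)
    refine Submodule.subset_span ⟨[], l', a, b, ?_, ?_⟩
    · simp only [List.nil_append, List.length_cons] at h ⊢
      have := hl'.2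
      omega
    · simp
  | cons x u ih =>
    simp only [List.cons_append, List.length_cons] at h
    have hm : (u ++ a :: b :: w).length = (m - 1) + 1 := by
      simp only [List.length_append, List.length_cons] at h ⊢
      omega
    have h2 := ih (m - 1) hm
    have h3 : bdl (x :: u ++ a :: b :: w) + bdl (x :: u ++ b :: a :: w) =
        (Finsupp.single (u ++ a :: b :: w) 1 + Finsupp.single (u ++ b :: a :: w) 1) -
          cone x (bdl (u ++ a :: b :: w) + bdl (u ++ b :: a :: w)) := by
      simp only [List.cons_append, bdl_cons, map_add]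
      abel
    rw [h3]
    refine Submodule.sub_mem _ (Submodule.subset_span ⟨u, w, a, b, by omega, rfl⟩) ?_
    have h4 := sw_cone x h2
    have h5 : m - 1 + 1 = m := by
      simp only [List.length_append, List.length_cons] at h
      omega
    rwa [h5] at h4

private lemma bary_swap (u w : List E) (a b : E) :
    bary (u ++ a :: b :: w) = bary (u ++ b :: a :: w) := by
  unfold bary
  have h1 : (u ++ a :: b :: w).length = (u ++ b :: a :: w).length := by simp
  have h2 : (u ++ a :: b :: w).sum = (u ++ b :: a :: w).sum := by
    simp only [List.sum_append, List.sum_cons]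
    abel
  rw [h1, h2]

private lemma sd_sw (n m : ℕ) (hm : m ≤ n + 1) {c : Ch E} (hc : c ∈ Sw E m) : sd n c = 0 := by
  induction n generalizing m c with
  | zero =>
    have h : Sw E m ≤ ⊥ := by
      refine Submodule.span_le.mpr ?_
      rintro _ ⟨u, w, a, b, h, rfl⟩
      simp only [List.length_append, List.length_cons] at h
      omega
    rw [(Submodule.mem_bot ℤ).mp (h hc), map_zero]
  | succ n ih =>
    have h : Sw E m ≤ LinearMap.ker (sd (n + 1) : Ch E →ₗ[ℤ] Ch E) := by
      refine Submodule.span_le.mpr ?_
      rintro _ ⟨u, w, a, b, h, rfl⟩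
      have h1 : (u ++ a :: b :: w).length = (m - 1) + 1 := by
        simp only [List.length_append, List.length_cons] at h ⊢
        omega
      have h2 := ih (m - 1) (by omega) (sw_bdl u w a b (m - 1) h1)
      change sd (n + 1) _ = 0
      rw [map_add, sd_single, sd_single, one_smul, one_smul, bary_swap u w a b, ← map_add, ← map_add,
        h2, map_zero]
    exact h hc

theorem sd_swap (n : ℕ) (u w : List E) (a b : E) (h : (u ++ a :: b :: w).length ≤ n + 1) :
    sd n (Finsupp.single (u ++ a :: b :: w) 1) + sd n (Finsupp.single (u ++ b :: a :: w) 1) = 0 := by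
  rw [← map_add]
  exact sd_sw n _ h (Submodule.subset_span ⟨u, w, a, b, rfl, rfl⟩)

private lemma sd_move (n : ℕ) (a : E) (w u : List E) (h : (u ++ a :: w).length ≤ n + 1) :
    sd n (Finsupp.single (u ++ a :: w) 1) =
      ((-1 : ℤ) ^ w.length) • sd n (Finsupp.single (u ++ w ++ [a]) 1) := by
  induction w generalizing u with
  | nil => simp
  | cons b w ih =>
    have h1 := sd_swap n u w a b h
    have h2 := ih (u ++ [b]) (by
      simp only [List.length_append, List.length_cons, List.length_nil] at h ⊢
      omega)
    have h3 : u ++ b :: a :: w = u ++ [b] ++ a :: w := by simp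
    have h4 : u ++ [b] ++ w ++ [a] = u ++ b :: w ++ [a] := by simp
    rw [h3, h2, h4] at h1
    rw [eq_neg_of_add_eq_zero_left h1, List.length_cons, pow_succ, mul_neg_one, neg_smul]

theorem sd_cycle (n : ℕ) (a : E) (l : List E) (h : l.length ≤ n) :
    sd n (Finsupp.single (a :: l) 1) =
      ((-1 : ℤ) ^ l.length) • sd n (Finsupp.single (l ++ [a]) 1) := by
  have := sd_move n a l [] (by simpa using h)
  simpa using this

end Pool.Agent.MDX
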