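import Pool.Agent.MDX.SDM
import Pool.Agent.MDX.SDS
/-! # The invariant cycle in the boundary of the simplex -/

open Set Filter Topology

namespace Pool.Agent.MDX

open Pool.Agent.MMD

private lemma zzz_chp_and {V : Type*} {P Q : List V → Prop} {c : Ch V} (h1 : c ∈ chp P)
    (h2 : c ∈ chp Q) : c ∈ chp fun l => P l ∧ Q l :=
  mem_chp.mpr fun l hl => ⟨mem_chp.mp h1 l hl, mem_chp.mp h2 l hl⟩

/-- the faces of the simplex -/
private def zzzK (p : ℕ) [NeZero p] (i : ZMod p) : Set (ZMod p → ℝ) :=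
  {y | (∀ n, 0 ≤ y n) ∧ ∑ n, y n = 1 ∧ y i = 0}

private lemma zzzK_convex (p : ℕ) [NeZero p] (i : ZMod p) : Convex ℝ (zzzK p i) := by
  intro x hx y hy a b ha hb hab
  refine ⟨fun n => ?_, ?_, ?_⟩
  · simp only [Pi.add_apply, Pi.smul_apply, smul_eq_mul]
    have h1 := hx.1 n
    have h2 := hy.1 n
    positivity
  · simp only [Pi.add_apply, Pi.smul_apply, smul_eq_mul]
    rw [Finset.sum_add_distrib, ← Finset.mul_sum, ← Finset.mul_sum, hx.2.1, hy.2.1]
    linarith
  · simp only [Pi.add_apply, Pi.smul_apply, smul_eq_mul, hx.2.2, hy.2.2, mul_zero, add_zero]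

private noncomputable def zzzT (p : ℕ) : (ZMod p → ℝ) →ₗ[ℝ] (ZMod p → ℝ) :=
  LinearMap.funLeft ℝ ℝ fun n : ZMod p => n + 1

private lemma zzzT_eq (p : ℕ) : (zzzT p : (ZMod p → ℝ) → (ZMod p → ℝ)) = sh := rfl

private lemma zzz_sh_vx {p : ℕ} (i : ZMod p) : sh (vx i) = vx (i - 1) := by
  funext n
  unfold sh vx
  by_cases h : n = i - 1
  · subst h
    simp
  · rw [Pi.single_eq_of_ne h, Pi.single_eq_of_ne]
    intro h'
    exact h (by rw [← h']; ring)

private lemma zzz_LL_length (p : ℕ) : (LL p).length = p := by simp [LL]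

private lemma zzz_LL_nodup (p : ℕ) [NeZero p] : (LL p).Nodup := by
  unfold LL
  refine List.Nodup.map_on ?_ List.nodup_range
  intro a ha b hb h
  rw [List.mem_range] at ha hb
  have h1 := congrArg ZMod.val h
  rwa [ZMod.val_natCast_of_lt ha, ZMod.val_natCast_of_lt hb] at h1

/-- a proper sublist misses a label -/
private lemma zzz_missing {p : ℕ} [NeZero p] {l : List (ZMod p)} (hl : l.length + 1 = p) :
    ∃ i : ZMod p, i ∉ l := by
  by_contra h
  push Not at h
  have h1 : (Finset.univ : Finset (ZMod p)) ⊆ l.toFinset := fun i _ => List.mem_toFinset.2 (h i)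
  have h2 := Finset.card_le_card h1
  rw [Finset.card_univ, ZMod.card] at h2
  have h3 := List.toFinset_card_le l
  omega

theorem exists_cycle (p : ℕ) [Fact p.Prime] (hp : p ≠ 2) {η : ℝ} (hη : 0 < η) :
    ∃ (r : ℕ) (Z : Ch (ZMod p → ℝ)), Z = (sd (p - 1))^[r] (mp vx (bd (Finsupp.single (LL p) 1))) ∧
      (Z ∈ chp fun l => l.length + 1 = p ∧ (∀ a ∈ l, a ∈ Bd p) ∧
        ∀ a ∈ l, ∀ b ∈ l, dist a b ≤ η) ∧ bd Z = 0 ∧ mp sh Z = Z := by
  classical
  have hpp : p.Prime := Fact.out
  have hp3 : 3 ≤ p := by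
    have := hpp.two_le
    omega
  obtain ⟨n, hn⟩ : ∃ n, p = n + 2 := ⟨p - 2, by omega⟩
  have hn1 : p - 1 = n + 1 := by omega
  set Z₀ : Ch (ZMod p → ℝ) := mp vx (bd (Finsupp.single (LL p) 1)) with hZ₀
  -- the lists of `Z₀`
  have hmem : Z₀ ∈ chp fun l => l.length = p - 1 ∧ ∃ i, ∀ a ∈ l, a ∈ zzzK p i := by
    have h1 : bd (Finsupp.single (LL p) (1 : ℤ)) ∈ chp fun l => l.length + 1 = p := by
      rw [bd_single, one_smul]
      refine chp_mono (fun l hl => ?_) (bdl_mem (LL p))
      rw [zzz_LL_length] at hl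
      exact hl.2
    refine mp_mem (fun l hl => ?_) h1
    refine ⟨by rw [List.length_map]; omega, ?_⟩
    obtain ⟨i, hi⟩ := zzz_missing hl
    refine ⟨i, fun a ha => ?_⟩
    obtain ⟨j, hj, rfl⟩ := List.mem_map.1 ha
    refine ⟨fun m => ?_, ?_, ?_⟩
    · by_cases h : m = j
      · subst h
        simp [vx]
      · simp [vx, Pi.single_eq_of_ne h]
    · unfold vx
      rw [Finset.sum_pi_single']
      simp
    · have hij : i ≠ j := fun h => hi (by rw [h]; exact hj)
      simp [vx, Pi.single_eq_of_ne hij]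
  have hlen : Z₀ ∈ chp fun l => l.length = n + 1 :=
    chp_mono (fun l hl => by rw [← hn1]; exact hl.1) hmem
  obtain ⟨r₀, hr₀⟩ := exists_mesh n hlen hη
  set r := r₀ + 1 with hr
  have hmesh := hr₀ r (by omega)
  have hZeq : (sd (n + 1))^[r] Z₀ = bd ((sd (n + 1 + 1))^[r] (mp vx (Finsupp.single (LL p) 1))) := by
    rw [bd_sd_iter, hZ₀, mp_bd]
  rw [hn1]
  refine ⟨r, (sd (n + 1))^[r] Z₀, rfl, ?_, ?_, ?_⟩
  · have hhull := sd_iter_hull (zzzK_convex p) (n + 1) r (c := Z₀) (by rw [← hn1]; exact hmem)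
    refine chp_mono (fun l hl => ?_) (zzz_chp_and hhull hmesh)
    obtain ⟨⟨h1, i, hi⟩, _, h2⟩ := hl
    exact ⟨by omega, fun a ha => ⟨(hi a ha).1, (hi a ha).2.1, i, (hi a ha).2.2⟩, h2⟩
  · rw [hZeq, bd_bd]
  · set l : List (ZMod p → ℝ) := (List.range (n + 1)).map fun i : ℕ => vx (i : ZMod p) with hl
    set a : ZMod p → ℝ := vx (-1) with ha
    have hllen : l.length = n + 1 := by rw [hl, List.length_map, List.length_range]
    have hn2 : ((n + 1 : ℕ) : ZMod p) = -1 := by
      have h : ((n + 2 : ℕ) : ZMod p) = 0 := by rw [← hn]; exact ZMod.natCast_self p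
      push_cast at h ⊢
      linear_combination h
    have e1 : (LL p).map vx = l ++ [a] := by
      unfold LL
      rw [List.map_map, congrArg List.range hn, List.range_succ, List.map_append, hl, ha]
      simp only [List.map_cons, List.map_nil, Function.comp_apply]
      rw [hn2]
      rfl
    have e2 : ((LL p).map vx).map sh = a :: l := by
      rw [List.map_map]
      unfold LL
      rw [List.map_map, congrArg List.range hn, List.range_succ_eq_map, List.map_cons, List.map_map,
        hl, ha]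
      congr 1
      · simp only [Function.comp_apply]
        rw [zzz_sh_vx]
        simp
      · refine List.map_congr_left fun i _ => ?_
        simp only [Function.comp_apply]
        rw [zzz_sh_vx]
        congr 1
        push_cast
        ring
    have e3 : mp sh (mp vx (Finsupp.single (LL p) (1 : ℤ))) = Finsupp.single (a :: l) 1 := by
      rw [mp_single, mp_single, e2]
    have e4 : mp vx (Finsupp.single (LL p) (1 : ℤ)) = Finsupp.single (l ++ [a]) 1 := by
      rw [mp_single, e1]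
    have heven : Even (n + 1) := by
      have hodd : Odd p := hpp.odd_of_ne_two hp
      rw [hn] at hodd
      obtain ⟨m, hm⟩ := hodd
      exact ⟨m, by omega⟩
    have e5 := sd_cycle (n + 1 + 1) a l (by omega)
    rw [hllen, heven.neg_one_pow, one_smul] at e5
    have e6 : mp sh ((sd (n + 1 + 1))^[r] (mp vx (Finsupp.single (LL p) (1 : ℤ)))) =
        (sd (n + 1 + 1))^[r] (mp vx (Finsupp.single (LL p) (1 : ℤ))) := by
      have h := mp_sd_iter (zzzT p) (n + 1 + 1) r (mp vx (Finsupp.single (LL p) (1 : ℤ)))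
      rw [zzzT_eq] at h
      rw [h, e3, e4, hr, Function.iterate_succ_apply, Function.iterate_succ_apply, e5]
    rw [hZeq, mp_bd, e6]

end Pool.Agent.MDX
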