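import Pool.Agent.MDX.FEW
import Pool.Agent.MDX.MPT
import Pool.Agent.MDX.ZZZ
import Pool.Agent.MDX.SPE
import Pool.Agent.MDX.PHI
import Pool.Agent.MDX.EQC

/-! # A Borsuk-Ulam theorem with pieces on the boundary of the simplex

PROOF. Suppose `∑ a, l a + 2 ≤ p`. `Bd p` is compact (closed and bounded), invariant under `sh`, the
`p`-th iterate of `sh` is the identity, and `sh y ≠ y` for `y ∈ Bd p` (else `y` is constant, and has a
zero, so `y = 0`, against `∑ y = 1`).
Labelling `f₀`: `exists_equi` with `M y = {n | y n ≠ 0}` (if `y m ≠ 0` then `(sh y) (m - 1) = y m ≠ 0`;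
non-empty since `∑ y = 1`).
Labelling `g`: let `pick : Set ι → ι` be a choice function (`ι` is not empty since `Bd p` is not empty
and covered) and `α y = pick {a | y ∈ D a}`; as `D a` is invariant and `sh` has finite order,
`{a | sh y ∈ D a} = {a | y ∈ D a}` for `y ∈ Bd p`, so `α (sh y) = α y`, and `y ∈ D (α y)`. Apply
`exists_equi` with `M y = {m | ∀ n, f (α y) y n ≤ f (α y) y m}` (non-empty: `Finite.exists_max`; if
`m ∈ M y` then `m - 1 ∈ M (sh y)` since `f a (sh y) = sh (f a y)`).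
Let `η` be as in `few_labels` with `K = Bd p`, and `r`, `Z` as in `exists_cycle` for this `η`, `φ` as in
`exists_phi`. For every list `l` of `Z` the set `l.toFinset` satisfies the conditions of `few_labels`, so
the labels `l.map g` take at most `∑ a, l a ≤ p - 2` values, while the list has length `p - 1`; so it has
a duplicate and `om (mp g Z) = 0` (`om_dup`, `map_mem` with the submodule `⊥`, or `map_eq`).
On the other hand `om (mp f₀ Z) = om (bd C)`, `C = single (LL p) 1`, by `sperner` with `n = p - 1`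
(`bd C` is in `chp (length p - 1)`). With the contraction `θ`: `gen 0 * om (bd C) = gen 0 * θ (om C) =
om C - θ (gen 0 * om C) = om C` since `gen 0 * om C = om (cone 0 C) = 0` (`om_eq_zero`). So
`φ (gen 0 * om (mp f₀ Z)) = φ (om C) = 1`. By `mod_p` with `T = sh`, `B = Bd p`: `p ∣ 0 - 1`, a
contradiction.
-/

open Set Filter Topology

namespace Pool.Agent.MDX

open Pool.Agent.MMD

lemma bub_compact (p : ℕ) [NeZero p] : IsCompact (Bd p) := by
  have hc : IsClosed (Bd p) := by
    have h1 : IsClosed {y : ZMod p → ℝ | ∀ n, 0 ≤ y n} := by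
      rw [Set.ofPred_forall]
      exact isClosed_iInter fun n => isClosed_le continuous_const (continuous_apply n)
    have h2 : IsClosed {y : ZMod p → ℝ | ∑ n, y n = 1} :=
      isClosed_eq (continuous_finsetSum _ fun n _ => continuous_apply n) continuous_const
    have h3 : IsClosed {y : ZMod p → ℝ | ∃ n, y n = 0} := by
      rw [Set.ofPred_exists]
      exact isClosed_iUnion_of_finite fun n => isClosed_eq (continuous_apply n) continuous_const
    exact h1.inter (h2.inter h3)
  refine IsCompact.of_isClosed_subset (isCompact_univ_pi fun _ : ZMod p => isCompact_Icc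
    (a := (0 : ℝ)) (b := 1)) hc ?_
  rintro y ⟨h1, h2, _⟩ n _
  refine ⟨h1 n, ?_⟩
  rw [← h2]
  exact Finset.single_le_sum (fun m _ => h1 m) (Finset.mem_univ n)

lemma bub_sh_mem {p : ℕ} [NeZero p] {y : ZMod p → ℝ} (hy : y ∈ Bd p) : sh y ∈ Bd p := by
  obtain ⟨h1, h2, m, hm⟩ := hy
  refine ⟨fun n => h1 _, ?_, m - 1, ?_⟩
  · rw [← h2]
    exact Equiv.sum_comp (Equiv.addRight (1 : ZMod p)) y
  · change y (m - 1 + 1) = 0
    rw [sub_add_cancel, hm]

lemma bub_iter {p : ℕ} (y : ZMod p → ℝ) (k : ℕ) : sh^[k] y = fun n => y (n + k) := by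
  induction k with
  | zero => funext n; simp
  | succ k ih =>
    rw [Function.iterate_succ_apply', ih]
    funext n
    change y (n + 1 + k) = y (n + (k + 1 : ℕ))
    push_cast
    congr 1
    ring

lemma bub_iter_p {p : ℕ} (y : ZMod p → ℝ) : sh^[p] y = y := by
  rw [bub_iter]
  funext n
  simp

lemma bub_free {p : ℕ} [NeZero p] {y : ZMod p → ℝ} (hy : y ∈ Bd p) : sh y ≠ y := by
  intro h
  obtain ⟨_, h2, m, hm⟩ := hy
  have h3 : ∀ k : ℕ, sh^[k] y = y := by
    intro k
    induction k with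
    | zero => rfl
    | succ k ih => rw [Function.iterate_succ_apply', ih, h]
  have h4 : ∀ n, y n = 0 := by
    intro n
    have h5 := congrFun (h3 (n - m).val) m
    rw [bub_iter] at h5
    simp only [ZMod.natCast_val, ZMod.cast_id', id_eq, add_sub_cancel] at h5
    rw [h5, hm]
  rw [Finset.sum_eq_zero fun n _ => h4 n] at h2
  exact zero_ne_one h2

lemma bub_iter_mem {p : ℕ} [NeZero p] {y : ZMod p → ℝ} (hy : y ∈ Bd p)
    {D : Set (ZMod p → ℝ)} (hD : ∀ y ∈ Bd p ∩ D, sh y ∈ D) (h : y ∈ D) (k : ℕ) :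
    sh^[k] y ∈ Bd p ∩ D := by
  induction k with
  | zero => exact ⟨hy, h⟩
  | succ k ih =>
    rw [Function.iterate_succ_apply']
    exact ⟨bub_sh_mem ih.1, hD _ ih⟩

lemma bub_iff {p : ℕ} [NeZero p] {y : ZMod p → ℝ} (hy : y ∈ Bd p)
    {D : Set (ZMod p → ℝ)} (hD : ∀ y ∈ Bd p ∩ D, sh y ∈ D) : sh y ∈ D ↔ y ∈ D := by
  refine ⟨fun h => ?_, fun h => hD y ⟨hy, h⟩⟩
  have h1 := (bub_iter_mem (bub_sh_mem hy) hD h (p - 1)).2
  rw [← Function.iterate_succ_apply] at h1
  have h2 : (p - 1).succ = p := Nat.succ_pred_eq_of_pos (Nat.pos_of_ne_zero (NeZero.ne p))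
  rw [h2, bub_iter_p] at h1
  exact h1

theorem bu_bd {p : ℕ} [Fact p.Prime] (hp : p ≠ 2) {ι : Type} [Fintype ι]
    (D : ι → Set (ZMod p → ℝ)) (hD : ∀ a, IsClosed (D a))
    (hDs : ∀ a, ∀ y ∈ Bd p ∩ D a, sh y ∈ D a)
    (f : ι → (ZMod p → ℝ) → ZMod p → ℝ) (hf : ∀ a, ContinuousOn (f a) (Bd p ∩ D a))
    (h0 : ∀ a, ∀ y ∈ Bd p ∩ D a, ∀ n, 0 ≤ f a y n)
    (heq : ∀ a, ∀ y ∈ Bd p ∩ D a, f a (sh y) = sh (f a y))
    (hne : ∀ a, ∀ y ∈ Bd p ∩ D a, f a y ≠ 0)
    (l : ι → ℕ) (hl : ∀ a, ∀ y ∈ Bd p ∩ D a, supc (f a y) ≤ l a)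
    (hcov : ∀ y ∈ Bd p, ∃ a, y ∈ D a) : p ≤ ∑ a, l a + 1 := by
  classical
  by_contra hcon
  have hcon' : ∑ a, l a + 2 ≤ p := by omega
  have hpp : p.Prime := Fact.out
  have hp1 : 1 < p := hpp.one_lt
  -- the index type is not empty
  have hne0 : (vx (0 : ZMod p)) ∈ Bd p := by
    refine ⟨fun n => ?_, ?_, 1, ?_⟩
    · unfold vx
      by_cases h : n = 0
      · subst h; simp
      · simp [h]
    · unfold vx
      simp [Pi.single_apply]
    · unfold vx
      simp [Pi.single_apply]
  obtain ⟨a₀, _⟩ := hcov _ hne0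
  let pick : Set ι → ι := fun S => if h : S.Nonempty then h.some else a₀
  have hpick : ∀ S : Set ι, S.Nonempty → pick S ∈ S := by
    intro S hS
    simp only [pick, hS, dif_pos]
    exact hS.some_mem
  let α : (ZMod p → ℝ) → ι := fun y => pick {a | y ∈ D a}
  have hα : ∀ y ∈ Bd p, y ∈ D (α y) := fun y hy => hpick {a | y ∈ D a} (hcov y hy)
  have hαs : ∀ y ∈ Bd p, α (sh y) = α y := by
    intro y hy
    have : {a | sh y ∈ D a} = {a | y ∈ D a} := by
      ext a
      exact bub_iff hy (hDs a)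
    simp only [α, this]
  -- the carrier labelling
  obtain ⟨f₀, hf₀, hf₀s⟩ := exists_equi (p := p) (Bd p) sh (fun y hy => bub_sh_mem hy)
    (fun y _ => bub_iter_p y) (fun y hy => bub_free hy) (fun y => {n | y n ≠ 0})
    (by
      rintro y ⟨_, h2, _⟩
      by_contra h
      rw [Set.not_nonempty_iff_eq_empty] at h
      have h3 : ∀ n, y n = 0 := by
        intro n
        by_contra hn
        have : n ∈ {n | y n ≠ 0} := hn
        rw [h] at this
        exact this
      rw [Finset.sum_eq_zero fun n _ => h3 n] at h2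
      exact zero_ne_one h2)
    (by
      intro y _ m hm
      change y (m - 1 + 1) ≠ 0
      rw [sub_add_cancel]
      exact hm)
  -- the labelling by large entries
  obtain ⟨g, hg, hgs⟩ := exists_equi (p := p) (Bd p) sh (fun y hy => bub_sh_mem hy)
    (fun y _ => bub_iter_p y) (fun y hy => bub_free hy)
    (fun y => {m | ∀ n, f (α y) y n ≤ f (α y) y m})
    (by
      intro y _
      obtain ⟨m, hm⟩ := Finite.exists_max (f (α y) y)
      exact ⟨m, hm⟩)
    (by
      intro y hy m hm n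
      rw [hαs y hy, heq (α y) y ⟨hy, hα y hy⟩]
      change f (α y) y (n + 1) ≤ f (α y) y (m - 1 + 1)
      rw [sub_add_cancel]
      exact hm _)
  obtain ⟨η, hη, hfew⟩ := few_labels (bub_compact p) D hD f hf h0 hne l hl
  obtain ⟨r, Z, hZdef, hZ, hbd, hTZ⟩ := exists_cycle p hp hη
  obtain ⟨φ, hφ1, hφ2⟩ := exists_phi p hp
  have hcard : Fintype.card (ZMod p) = p := ZMod.card p
  -- the second labelling gives zero
  have hg0 : om (mp g Z) = 0 := by
    refine map_eq (om ∘ₗ mp g) 0 (fun w hw => ?_) hZ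
    obtain ⟨hw1, hw2, hw3⟩ := hw
    rw [LinearMap.comp_apply, mp_single, om_single, one_smul, LinearMap.zero_apply]
    apply om_dup
    intro hnd
    have h1 := hfew w.toFinset (fun y hy => hw2 y (List.mem_toFinset.1 hy))
      (fun y hy z hz => hw3 y (List.mem_toFinset.1 hy) z (List.mem_toFinset.1 hz)) α g
      (fun y hy => by
        have hy' := hw2 y (List.mem_toFinset.1 hy)
        exact ⟨hα y hy', hg y hy'⟩)
    have h2 : w.toFinset.image g = (w.map g).toFinset := by
      ext x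
      simp
    rw [h2, List.toFinset_card_of_nodup hnd, List.length_map] at h1
    omega
  -- the first labelling gives one
  have hC : bd (Finsupp.single (LL p) (1 : ℤ)) ∈ chp fun w => w.length = p - 1 := by
    refine bd_mem (P := fun w => w = LL p) ?_ (single_mem_chp (P := fun w => w = LL p) rfl _)
    intro w w' hw _ hlen
    rw [hw] at hlen
    have : (LL p).length = p := by simp [LL]
    omega
  have hf0 : om (mp f₀ Z) = om (bd (Finsupp.single (LL p) (1 : ℤ))) := by
    rw [hZdef]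
    exact sperner p f₀ hf₀ r (p - 1) (by omega) hC
  obtain ⟨θ, hθ1, hθ2⟩ := exists_contraction (κ := ZMod p)
  have hcone : gen (0 : ZMod p) * om (Finsupp.single (LL p) (1 : ℤ)) = 0 := by
    rw [← om_cone]
    refine om_eq_zero Finset.univ (p + 1) ?_ ?_
    · rw [Finset.card_univ, hcard]
      exact Nat.lt_succ_self p
    · rw [cone_single]
      refine single_mem_chp ⟨by simp [LL], fun a _ => Finset.mem_univ a⟩ _
  have hgen : gen (0 : ZMod p) * om (bd (Finsupp.single (LL p) (1 : ℤ))) =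
      om (Finsupp.single (LL p) (1 : ℤ)) := by
    have h1 := hθ1 (0 : ZMod p) (om (Finsupp.single (LL p) (1 : ℤ)))
    rw [hcone, map_zero, hθ2] at h1
    exact (sub_eq_zero.1 h1.symm).symm
  have hmod := mod_p (Bd p) sh (fun y hy => bub_sh_mem hy) (fun y _ => bub_iter_p y)
    (fun y hy => bub_free hy) f₀ g hf₀s hgs φ hφ2
    (chp_mono (fun w hw => ⟨hw.1, hw.2.1⟩) hZ) hbd hTZ
  rw [hg0, hf0, hgen, mul_zero, map_zero, hφ1, zero_sub, dvd_neg] at hmod
  have h1 : (p : ℤ) ∣ ((1 : ℕ) : ℤ) := by simpa using hmod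
  have h2 : p ∣ 1 := Int.natCast_dvd_natCast.1 h1
  have h3 := Nat.le_of_dvd one_pos h2
  omega

end Pool.Agent.MDX
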