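import Pool.Agent.MDX.BUB

/-! # A Borsuk-Ulam theorem with pieces on the cyclic sequences with minimum 0 and maximum 1

PROOF. For `y ∈ Bd p` let `m y = max_n y n` (`Finset.univ.sup'`), a positive number (since `∑ y = 1`),
continuous in `y` (`Continuous.finset_sup'_apply` or so) and invariant: `m (sh y) = m y`. The map
`ψ y = (m y)⁻¹ • y` is continuous on `Bd p`, `ψ y ∈ YY p` (its minimum is `0` since `y ≥ 0` has a zero,
its maximum is `1`) and `ψ (sh y) = sh (ψ y)`. Apply `bu_bd` to the sets `Bd p ∩ ψ ⁻¹' (D a)`, which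
are closed (`ContinuousOn.preimage_isClosed_of_isClosed`, `Bd p` is closed), and the maps
`f a ∘ ψ`.
-/

open Set Filter Topology

namespace Pool.Agent.MDX

open Pool.Agent.MMD

/-- the largest entry -/
noncomputable def buyM {p : ℕ} [NeZero p] (y : ZMod p → ℝ) : ℝ :=
  Finset.univ.sup' ⟨0, Finset.mem_univ _⟩ fun n => y n

lemma buyM_le {p : ℕ} [NeZero p] (y : ZMod p → ℝ) (n : ZMod p) : y n ≤ buyM y :=
  Finset.le_sup' (fun n => y n) (Finset.mem_univ n)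

lemma buyM_eq {p : ℕ} [NeZero p] (y : ZMod p → ℝ) : ∃ n, y n = buyM y := by
  obtain ⟨n, _, hn⟩ := Finset.exists_mem_eq_sup' (s := (Finset.univ : Finset (ZMod p)))
    ⟨0, Finset.mem_univ _⟩ fun n => y n
  exact ⟨n, hn.symm⟩

lemma buyM_sh {p : ℕ} [NeZero p] (y : ZMod p → ℝ) : buyM (sh y) = buyM y := by
  apply le_antisymm
  · obtain ⟨n, hn⟩ := buyM_eq (sh y)
    rw [← hn]
    exact buyM_le y (n + 1)
  · obtain ⟨n, hn⟩ := buyM_eq y
    rw [← hn]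
    have h := buyM_le (sh y) (n - 1)
    change y (n - 1 + 1) ≤ _ at h
    rwa [sub_add_cancel] at h

lemma buyM_cont (p : ℕ) [NeZero p] : Continuous (buyM : (ZMod p → ℝ) → ℝ) := by
  unfold buyM
  exact Continuous.finset_sup'_apply _ fun n _ => continuous_apply n

lemma buyM_pos {p : ℕ} [NeZero p] {y : ZMod p → ℝ} (hy : y ∈ Bd p) : 0 < buyM y := by
  obtain ⟨h1, h2, _⟩ := hy
  by_contra hcon
  have h3 : ∀ n, y n = 0 := fun n =>
    le_antisymm ((buyM_le y n).trans (not_lt.1 hcon)) (h1 n)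
  rw [Finset.sum_eq_zero fun n _ => h3 n] at h2
  exact zero_ne_one h2

theorem bu_multi {p : ℕ} [Fact p.Prime] (hp : p ≠ 2) {ι : Type} [Fintype ι]
    (D : ι → Set (ZMod p → ℝ)) (hD : ∀ a, IsClosed (D a)) (hDs : ∀ a, ∀ y ∈ D a, sh y ∈ D a)
    (f : ι → (ZMod p → ℝ) → ZMod p → ℝ) (hf : ∀ a, ContinuousOn (f a) (D a))
    (h0 : ∀ a, ∀ y ∈ D a, ∀ n, 0 ≤ f a y n) (heq : ∀ a, ∀ y ∈ D a, f a (sh y) = sh (f a y))
    (hne : ∀ a, ∀ y ∈ D a, f a y ≠ 0) (l : ι → ℕ) (hl : ∀ a, ∀ y ∈ D a, supc (f a y) ≤ l a)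
    (hcov : ∀ y ∈ YY p, ∃ a, y ∈ D a) : p ≤ ∑ a, l a + 1 := by
  set ψ : (ZMod p → ℝ) → ZMod p → ℝ := fun y => (buyM y)⁻¹ • y with hψ
  have hψc : ContinuousOn ψ (Bd p) :=
    ((buyM_cont p).continuousOn.inv₀ fun y hy => (buyM_pos hy).ne').smul continuousOn_id
  have hψY : ∀ y ∈ Bd p, ψ y ∈ YY p := by
    intro y hy
    have hm := buyM_pos hy
    obtain ⟨h1, h2, m, hm0⟩ := hy
    refine ⟨fun n => ⟨?_, ?_⟩, ⟨m, ?_⟩, ?_⟩
    · change 0 ≤ (buyM y)⁻¹ * y n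
      exact mul_nonneg (inv_nonneg.2 hm.le) (h1 n)
    · change (buyM y)⁻¹ * y n ≤ 1
      rw [inv_mul_le_iff₀ hm, mul_one]
      exact buyM_le y n
    · change (buyM y)⁻¹ * y m = 0
      rw [hm0, mul_zero]
    · obtain ⟨n, hn⟩ := buyM_eq y
      refine ⟨n, ?_⟩
      change (buyM y)⁻¹ * y n = 1
      rw [hn]
      exact inv_mul_cancel₀ hm.ne'
  have hψs : ∀ y, ψ (sh y) = sh (ψ y) := by
    intro y
    funext n
    change (buyM (sh y))⁻¹ * y (n + 1) = (buyM y)⁻¹ * y (n + 1)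
    rw [buyM_sh]
  have hcl : IsClosed (Bd p) := (bub_compact p).isClosed
  refine bu_bd hp (fun a => Bd p ∩ ψ ⁻¹' (D a))
    (fun a => hψc.preimage_isClosed_of_isClosed hcl (hD a)) ?_ (fun a => f a ∘ ψ) ?_ ?_ ?_ ?_ l ?_ ?_
  · rintro a y ⟨hy, _, hy2⟩
    refine ⟨bub_sh_mem hy, ?_⟩
    change ψ (sh y) ∈ D a
    rw [hψs]
    exact hDs a _ hy2
  · intro a
    refine (hf a).comp (hψc.mono inter_subset_left) ?_
    rintro y ⟨_, _, hy2⟩
    exact hy2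
  · rintro a y ⟨_, _, hy2⟩ n
    exact h0 a _ hy2 n
  · rintro a y ⟨_, _, hy2⟩
    change f a (ψ (sh y)) = sh (f a (ψ y))
    rw [hψs]
    exact heq a _ hy2
  · rintro a y ⟨_, _, hy2⟩
    exact hne a _ hy2
  · rintro a y ⟨_, _, hy2⟩
    exact hl a _ hy2
  · intro y hy
    obtain ⟨a, ha⟩ := hcov _ (hψY y hy)
    exact ⟨a, hy, ha⟩

end Pool.Agent.MDX
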