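import Pool.Agent.MDX.Defs

/-! # Chains: basic rules -/

open Set Filter Topology

namespace Pool.Agent.MDX

open Pool.Agent.MMD

variable {V W U : Type*}

@[simp] lemma cone_single (a : V) (l : List V) (n : ℤ) :
    cone a (Finsupp.single l n) = Finsupp.single (a :: l) n := by
  simp [cone, Finsupp.mapDomain_single]

@[simp] lemma mp_single (f : V → W) (l : List V) (n : ℤ) :
    mp f (Finsupp.single l n) = Finsupp.single (l.map f) n := by
  simp [mp, Finsupp.mapDomain_single]

@[simp] lemma bdl_nil : bdl ([] : List V) = 0 := rfl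

@[simp] lemma bdl_cons (a : V) (l : List V) : bdl (a :: l) = Finsupp.single l 1 - cone a (bdl l) := rfl

@[simp] lemma bd_single (l : List V) (n : ℤ) : bd (Finsupp.single l n) = n • bdl l := by
  simp [bd, Finsupp.linearCombination_single]

@[simp] lemma prl_nil (f g : V → W) : prl f g [] = 0 := rfl

@[simp] lemma prl_cons (f g : V → W) (a : V) (l : List V) :
    prl f g (a :: l) = Finsupp.single (f a :: g a :: l.map g) 1 - cone (f a) (prl f g l) := rfl

@[simp] lemma pr_single (f g : V → W) (l : List V) (n : ℤ) :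
    pr f g (Finsupp.single l n) = n • prl f g l := by
  simp [pr, Finsupp.linearCombination_single]

@[simp] lemma om_single {κ : Type} [DecidableEq κ] (l : List κ) (n : ℤ) :
    om (Finsupp.single l n) = n • (l.map gen).prod := by
  simp [om, Finsupp.linearCombination_single]

section

variable {E : Type*} [AddCommGroup E] [Module ℝ E]

@[simp] lemma sd_zero (c : Ch E) : sd 0 c = c := rfl

@[simp] lemma sd_single (n : ℕ) (l : List E) (m : ℤ) :
    sd (n + 1) (Finsupp.single l m) = m • cone (bary l) (sd n (bdl l)) := by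
  simp [sd, Finsupp.linearCombination_single]

end

lemma mem_chp {P : List V → Prop} {c : Ch V} : c ∈ chp P ↔ ∀ l, c l ≠ 0 → P l := by
  rw [chp, Finsupp.mem_supported]
  exact ⟨fun h l hl => h (Finsupp.mem_support_iff.mpr hl),
    fun h l hl => h l (Finsupp.mem_support_iff.mp hl)⟩

lemma single_mem_chp {P : List V → Prop} {l : List V} (h : P l) (n : ℤ) :
    Finsupp.single l n ∈ chp P := Finsupp.single_mem_supported ℤ n h

lemma chp_mono {P Q : List V → Prop} (h : ∀ l, P l → Q l) {c : Ch V} (hc : c ∈ chp P) : c ∈ chp Q :=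
  mem_chp.mpr fun l hl => h l (mem_chp.mp hc l hl)

/-- a linear map sends `chp P` to the submodule `S` if it does so on lists -/
lemma map_mem {M : Type*} [AddCommGroup M] (φ : Ch V →ₗ[ℤ] M) (S : Submodule ℤ M)
    {P : List V → Prop} (h : ∀ l, P l → φ (Finsupp.single l 1) ∈ S) {c : Ch V} (hc : c ∈ chp P) :
    φ c ∈ S := by
  rw [← Finsupp.sum_single c, Finsupp.sum, map_sum]
  refine Submodule.sum_mem _ fun l hl => ?_
  have h1 : Finsupp.single l (c l) = c l • Finsupp.single l (1 : ℤ) := by simp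
  rw [h1, map_smul]
  exact S.smul_mem _ (h l (mem_chp.mp hc l (Finsupp.mem_support_iff.mp hl)))

/-- two linear maps agree on `chp P` if they do so on lists -/
lemma map_eq {M : Type*} [AddCommGroup M] (φ ψ : Ch V →ₗ[ℤ] M) {P : List V → Prop}
    (h : ∀ l, P l → φ (Finsupp.single l 1) = ψ (Finsupp.single l 1)) {c : Ch V}
    (hc : c ∈ chp P) : φ c = ψ c := by
  have h1 : (φ - ψ) c ∈ (⊥ : Submodule ℤ M) := map_mem (φ - ψ) ⊥ (P := P)
    (fun l hl => by rw [Submodule.mem_bot, LinearMap.sub_apply, h l hl, sub_self]) hc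
  rw [Submodule.mem_bot, LinearMap.sub_apply] at h1
  exact sub_eq_zero.mp h1

lemma map_eq' {M : Type*} [AddCommGroup M] (φ ψ : Ch V →ₗ[ℤ] M)
    (h : ∀ l, φ (Finsupp.single l 1) = ψ (Finsupp.single l 1)) (c : Ch V) : φ c = ψ c :=
  map_eq φ ψ (P := fun _ => True) (fun l _ => h l) (mem_chp.mpr fun _ _ => trivial)

lemma bd_cone (a : V) (c : Ch V) : bd (cone a c) = c - cone a (bd c) := by
  refine map_eq' (bd ∘ₗ cone a) (LinearMap.id - cone a ∘ₗ bd) (fun l => ?_) c
  simp

lemma bd_bdl (l : List V) : bd (bdl l) = 0 := by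
  induction l with
  | nil => simp
  | cons a l ih => simp [bd_cone, ih]

lemma bd_bd (c : Ch V) : bd (bd c) = 0 := by
  refine map_eq' (bd ∘ₗ bd) 0 (fun l => ?_) c
  simp [bd_bdl]

lemma mp_cone (f : V → W) (a : V) (c : Ch V) : mp f (cone a c) = cone (f a) (mp f c) := by
  refine map_eq' (mp f ∘ₗ cone a) (cone (f a) ∘ₗ mp f) (fun l => ?_) c
  simp

lemma mp_bdl (f : V → W) (l : List V) : mp f (bdl l) = bdl (l.map f) := by
  induction l with
  | nil => simp
  | cons a l ih => simp [mp_cone, ih]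

lemma mp_bd (f : V → W) (c : Ch V) : mp f (bd c) = bd (mp f c) := by
  refine map_eq' (mp f ∘ₗ bd) (bd ∘ₗ mp f) (fun l => ?_) c
  simp [mp_bdl]

lemma mp_mp (f : V → W) (g : W → U) (c : Ch V) : mp g (mp f c) = mp (g ∘ f) c := by
  refine map_eq' (mp g ∘ₗ mp f) (mp (g ∘ f)) (fun l => ?_) c
  simp

lemma cone_mem {P Q : List V → Prop} {a : V} (h : ∀ l, P l → Q (a :: l)) {c : Ch V}
    (hc : c ∈ chp P) : cone a c ∈ chp Q :=
  map_mem (cone a) _ (fun l hl => by rw [cone_single]; exact single_mem_chp (h l hl) _) hc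

lemma mp_mem {f : V → W} {P : List V → Prop} {Q : List W → Prop} (h : ∀ l, P l → Q (l.map f))
    {c : Ch V} (hc : c ∈ chp P) : mp f c ∈ chp Q :=
  map_mem (mp f) _ (fun l hl => by rw [mp_single]; exact single_mem_chp (h l hl) _) hc

/-- the lists in the boundary of `l` are sublists of `l` with one entry less -/
lemma bdl_mem (l : List V) : bdl l ∈ chp fun l' => l'.Sublist l ∧ l'.length + 1 = l.length := by
  induction l with
  | nil => simp
  | cons a l ih =>
    rw [bdl_cons]
    refine Submodule.sub_mem _ (single_mem_chp ⟨List.sublist_cons_self a l, by simp⟩ _) ?_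
    exact cone_mem (fun l' hl' => ⟨hl'.1.cons_cons a, by simp [hl'.2]⟩) ih

lemma bd_mem {P Q : List V → Prop}
    (h : ∀ l l', P l → l'.Sublist l → l'.length + 1 = l.length → Q l') {c : Ch V}
    (hc : c ∈ chp P) : bd c ∈ chp Q :=
  map_mem bd _ (fun l hl => by
    rw [bd_single, one_smul]
    exact chp_mono (fun l' hl' => h l l' hl hl'.1 hl'.2) (bdl_mem l)) hc

end Pool.Agent.MDX
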