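import Pool.Agent.MDX.VAL

/-! # Concatenations of periodic blocks

PROOF. Let `x` be the sequence. All its values are values of elements of `F ⊆ EE N p k`, so they
lie in `[0, 1]`. Levels `j > k`: the set of all values of elements of `F` has at most
`F.card * p ≤ (k + 2) ^ p * p` elements, so `cnt ≤ 2 p (k + 2) ^ p ≤ N j / (j + 1)` by
`cnt_le_of_values` and `Lev.ge`. Levels `j ≤ k`: the window `n, …, n + N j - 1` has length
`N j ≤ p < 2 p`, so for the floor divisions `(n + i) / (2 p) ∈ {b, b + 1}` with `b = n / (2 p)`. So every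
summand satisfies `soft i (x (n + i)) ≤ soft i (per (w b) (n + i)) + soft i (per (w (b+1)) (n + i))`
(all are `≥ 0`), and `cnt x n ≤ cnt (per (w b)) n + cnt (per (w (b + 1))) n ≤ 2 * N j / (2 (j + 1))` by
`cnt_per` and the definition of `EE`.
-/

open Set Filter Topology

namespace Pool.Agent.MDX

open Pool.Agent.MMD

theorem cat_mem {N : ℕ → ℕ} {p k : ℕ} [NeZero p] (hL : Lev N p k) (F : Finset (ZMod p → ℝ))
    (hF : ∀ y ∈ F, y ∈ EE N p k) (hFc : F.card ≤ (k + 2) ^ p) (w : ℤ → ZMod p → ℝ)
    (hw : ∀ i, w i ∈ F) : (fun n : ℤ => per (w (n / (2 * p))) n) ∈ XX N := by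
  classical
  have hp : 0 < p := Nat.pos_of_ne_zero (NeZero.ne p)
  refine ⟨fun n => (hF _ (hw _)).1.1 _, fun j n => ?_⟩
  have hj : (0 : ℝ) < (j : ℝ) + 1 := by positivity
  rcases le_or_gt j k with hjk | hjk
  · have hNp : N j ≤ p := hL.le j hjk
    have hE : ∀ i, cnt (N j) (j + 1) (per (w i)) n ≤ N j / (2 * (j + 1)) := fun i => by
      rw [cnt_per]
      have := (hF _ (hw i)).2.2 j hjk (n : ZMod p)
      exact this
    have key : cnt (N j) (j + 1) (fun n : ℤ => per (w (n / (2 * p))) n) n
        ≤ cnt (N j) (j + 1) (per (w (n / (2 * p)))) n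
          + cnt (N j) (j + 1) (per (w (n / (2 * p) + 1))) n := by
      unfold cnt
      rw [← Finset.sum_add_distrib]
      refine Finset.sum_le_sum fun i hi => ?_
      have hi' : i < N j := Finset.mem_range.mp hi
      have h0 := soft_nonneg (N j) (j + 1) i (per (w (n / (2 * p))) (n + i))
      have h1 := soft_nonneg (N j) (j + 1) i (per (w (n / (2 * p) + 1)) (n + i))
      have hpz : (0 : ℤ) < 2 * (p : ℤ) := by positivity
      have hcase : (n + i) / (2 * (p : ℤ)) = n / (2 * p) ∨ (n + i) / (2 * (p : ℤ)) = n / (2 * p) + 1 := by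
        have e1 := Int.emod_add_mul_ediv n (2 * (p : ℤ))
        have e2 := Int.emod_nonneg n hpz.ne'
        have e3 := Int.emod_lt_of_pos n hpz
        have e4 : (i : ℤ) < 2 * (p : ℤ) := by
          have : (i : ℤ) < p := by exact_mod_cast lt_of_lt_of_le hi' hNp
          linarith [Int.natCast_nonneg p]
        have e5 : (0 : ℤ) ≤ i := Int.natCast_nonneg i
        have e6 : n / (2 * (p : ℤ)) ≤ (n + i) / (2 * (p : ℤ)) :=
          Int.ediv_le_ediv hpz (by linarith)
        have e7 : (n + i) / (2 * (p : ℤ)) < n / (2 * (p : ℤ)) + 2 := by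
          refine Int.ediv_lt_of_lt_mul hpz ?_
          nlinarith
        omega
      show soft (N j) (j + 1) i (per (w ((n + i) / (2 * p))) (n + i)) ≤ _
      rcases hcase with h | h
      · rw [h]
        linarith
      · rw [h]
        linarith
    refine key.trans ?_
    have a1 := hE (n / (2 * p))
    have a2 := hE (n / (2 * p) + 1)
    have a3 : (N j : ℝ) / (2 * (j + 1)) + N j / (2 * (j + 1)) = N j / (j + 1) := by
      field_simp
      ring
    push_cast at a1 a2 ⊢
    linarith
  · have h1 := cnt_le_of_values (N j) (j + 1)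
      (F.biUnion fun y => Finset.univ.image y) (fun n : ℤ => per (w (n / (2 * p))) n)
      (fun m => Finset.mem_biUnion.mpr ⟨_, hw (m / (2 * p)),
        Finset.mem_image_of_mem _ (Finset.mem_univ _)⟩) n
    have h2 : (F.biUnion fun y => Finset.univ.image y).card ≤ F.card * p := by
      refine Finset.card_biUnion_le_card_mul _ _ _ fun y _ => ?_
      have := Finset.card_image_le (s := (Finset.univ : Finset (ZMod p))) (f := y)
      rwa [Finset.card_univ, ZMod.card] at this
    have h3 := hL.ge j hjk
    have h4 : 2 * (j + 1) * (F.biUnion fun y => Finset.univ.image y).card ≤ N j := by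
      refine le_trans (Nat.mul_le_mul_left _ ?_) h3
      refine h2.trans ?_
      rw [mul_comm]
      exact Nat.mul_le_mul_left _ hFc
    have h5 : (2 * ((j : ℝ) + 1) * ((F.biUnion fun y => Finset.univ.image y).card : ℝ) : ℝ) ≤ N j := by
      exact_mod_cast h4
    refine h1.trans ?_
    rw [le_div_iff₀ hj]
    nlinarith [Nat.cast_nonneg (α := ℝ) (F.biUnion fun y => Finset.univ.image y).card]

end Pool.Agent.MDX
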