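import Pool.Agent.MDX.Defs

/-! # The covering number is attained

PROOF. The set of the numbers `m` in the definition of `coverNum` is not empty: for every `x` the set
`U x = {y | ∀ t ∈ box k n, d (t +ᵥ x) (t +ᵥ y) < ε / 3}` is open (`IsCompatibleMetric.continuous`, a finite
intersection) and contains `x`; by the triangle inequality `DynDiamLT k d n (U x) ε` with
`r = 2 ε / 3`; take a finite subcover (`isCompact_univ.elim_finite_subcover`). Now `Nat.sInf_mem`.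
-/

open Set Filter Topology

namespace Pool.Agent.MDX

open Pool.Agent.MMD

theorem coverNum_spec {k : ℕ} {X : Type} [TopologicalSpace X] [CompactSpace X]
    [AddAction (Fin k → ℤ) X] [ContinuousConstVAdd (Fin k → ℤ) X] {d : X → X → ℝ}
    (hd : IsCompatibleMetric d) (n : ℕ) {ε : ℝ} (hε : 0 < ε) :
    ∃ 𝒰 : Set (Set X), 𝒰.Finite ∧ 𝒰.ncard = coverNum k d n ε ∧
      (∀ U ∈ 𝒰, IsOpen U ∧ DynDiamLT k d n U ε) ∧ ⋃₀ 𝒰 = univ := by
  classical
  suffices h : {m | ∃ 𝒰 : Set (Set X), 𝒰.Finite ∧ 𝒰.ncard = m ∧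
      (∀ U ∈ 𝒰, IsOpen U ∧ DynDiamLT k d n U ε) ∧ ⋃₀ 𝒰 = univ}.Nonempty by
    obtain ⟨𝒰, h1, h2, h3⟩ := Nat.sInf_mem h
    exact ⟨𝒰, h1, h2, h3⟩
  let U : X → Set X := fun x => ⋂ t ∈ box k n, {y | d (t +ᵥ x) (t +ᵥ y) < ε / 3}
  have hU : ∀ x, IsOpen (U x) := by
    intro x
    refine isOpen_biInter_finset fun t _ => ?_
    let _ := hd.metricSpace
    exact isOpen_lt (continuous_const.dist (continuous_const_vadd t)) continuous_const
  have hxU : ∀ x, x ∈ U x := by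
    intro x
    simp only [U, mem_iInter, mem_ofPred_eq]
    intro t _
    rw [hd.dist_self]
    linarith
  have hdiam : ∀ x, DynDiamLT k d n (U x) ε := by
    intro x
    refine ⟨2 * ε / 3, by linarith, ?_⟩
    intro y hy z hz t ht
    simp only [U, mem_iInter, mem_ofPred_eq] at hy hz
    have h1 := hy t ht
    have h2 := hz t ht
    have h3 := hd.dist_triangle (t +ᵥ y) (t +ᵥ x) (t +ᵥ z)
    rw [hd.dist_comm (t +ᵥ y) (t +ᵥ x)] at h3
    linarith
  obtain ⟨s, hs⟩ := isCompact_univ.elim_finite_subcover U hU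
    (fun x _ => mem_iUnion.mpr ⟨x, hxU x⟩)
  refine ⟨_, U '' (s : Set X), s.finite_toSet.image U, rfl, ?_, ?_⟩
  · rintro _ ⟨x, _, rfl⟩
    exact ⟨hU x, hdiam x⟩
  · refine eq_univ_of_forall fun y => ?_
    obtain ⟨x, hx, hy⟩ := mem_iUnion₂.mp (hs (mem_univ y))
    exact ⟨U x, ⟨x, hx, rfl⟩, hy⟩

end Pool.Agent.MDX
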