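import Pool.Agent.MMD.MDim

/-! # A system of mean dimension zero all of whose metrics have positive metric mean dimension:
definitions -/

open Set Filter Topology

namespace Pool.Agent.MDX

open Pool.Agent.MMD

/-! ## Chains of lists -/

/-- chains: formal integer combinations of lists of points -/
abbrev Ch (V : Type*) := List V →₀ ℤ

/-- the cone: put the point `a` in front of every list -/
noncomputable def cone {V : Type*} (a : V) : Ch V →ₗ[ℤ] Ch V := Finsupp.lmapDomain ℤ ℤ (List.cons a)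

/-- the image of a chain under a map of points -/
noncomputable def mp {V W : Type*} (f : V → W) : Ch V →ₗ[ℤ] Ch W :=
  Finsupp.lmapDomain ℤ ℤ (List.map f)

/-- the boundary of a list -/
noncomputable def bdl {V : Type*} : List V → Ch V
  | [] => 0
  | a :: l => Finsupp.single l 1 - cone a (bdl l)

/-- the boundary of a chain -/
noncomputable def bd {V : Type*} : Ch V →ₗ[ℤ] Ch V := Finsupp.linearCombination ℤ bdl

/-- the chains all lists of which have the property `P` -/
noncomputable def chp {V : Type*} (P : List V → Prop) : Submodule ℤ (Ch V) :=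
  Finsupp.supported ℤ ℤ {l | P l}

/-- the barycentre of a list of points -/
noncomputable def bary {E : Type*} [AddCommGroup E] [Module ℝ E] (l : List E) : E :=
  (l.length : ℝ)⁻¹ • l.sum

/-- barycentric subdivision of chains of lists of length `n` -/
noncomputable def sd {E : Type*} [AddCommGroup E] [Module ℝ E] : ℕ → Ch E →ₗ[ℤ] Ch E
  | 0 => LinearMap.id
  | n + 1 => Finsupp.linearCombination ℤ fun l => cone (bary l) (sd n (bdl l))

/-- the prism of a list between two labellings -/
noncomputable def prl {V W : Type*} (f g : V → W) : List V → Ch W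
  | [] => 0
  | a :: l => Finsupp.single (f a :: g a :: l.map g) 1 - cone (f a) (prl f g l)

/-- the prism operator -/
noncomputable def pr {V W : Type*} (f g : V → W) : Ch V →ₗ[ℤ] Ch W :=
  Finsupp.linearCombination ℤ (prl f g)

/-- the exterior algebra on the labels -/
abbrev Ext (κ : Type) := ExteriorAlgebra ℤ (κ → ℤ)

/-- the generator of the exterior algebra belonging to a label -/
noncomputable def gen {κ : Type} [DecidableEq κ] (i : κ) : Ext κ :=
  ExteriorAlgebra.ι ℤ (Pi.single i (1 : ℤ))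

/-- the list `[0, 1, …, p - 1]` -/
def LL (p : ℕ) : List (ZMod p) := (List.range p).map fun i : ℕ => (i : ZMod p)

/-- the wedge product of a chain of labels -/
noncomputable def om {κ : Type} [DecidableEq κ] : Ch κ →ₗ[ℤ] Ext κ :=
  Finsupp.linearCombination ℤ fun l => (l.map gen).prod

/-! ## Cyclic sequences -/

/-- the shift of cyclic sequences -/
def sh {p : ℕ} (y : ZMod p → ℝ) : ZMod p → ℝ := fun n => y (n + 1)

/-- the boundary of the simplex -/
def Bd (p : ℕ) [NeZero p] : Set (ZMod p → ℝ) :=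
  {y | (∀ n, 0 ≤ y n) ∧ ∑ n, y n = 1 ∧ ∃ n, y n = 0}

/-- the cyclic sequences with minimum `0` and maximum `1` -/
def YY (p : ℕ) : Set (ZMod p → ℝ) :=
  {y | (∀ n, y n ∈ Icc (0 : ℝ) 1) ∧ (∃ n, y n = 0) ∧ ∃ n, y n = 1}

/-- the vertices of the simplex -/
noncomputable def vx {p : ℕ} (i : ZMod p) : ZMod p → ℝ := Pi.single i 1

/-- the number of non-zero entries -/
noncomputable def supc {p : ℕ} [NeZero p] (y : ZMod p → ℝ) : ℕ :=
  (Finset.univ.filter fun n => y n ≠ 0).card

/-- the mean -/
noncomputable def mean {p : ℕ} [NeZero p] (y : ZMod p → ℝ) : ℝ := (∑ n, y n) / p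

/-- `p` times the variance -/
noncomputable def vr {p : ℕ} [NeZero p] (y : ZMod p → ℝ) : ℝ := ∑ n, (y n - mean y) ^ 2

/-- the Fourier coefficient -/
noncomputable def ft {p : ℕ} [NeZero p] (v : ZMod p → ℝ) (ξ : ZMod p) : ℂ :=
  ∑ n, (v n : ℂ) * ZMod.stdAddChar (-(ξ * n))

/-- its normalised absolute value -/
noncomputable def rr {p : ℕ} [NeZero p] (v : ZMod p → ℝ) (ξ : ZMod p) : ℝ := ‖ft v ξ‖ / √p

/-- the weights which single out the first large entry -/
noncomputable def wt {M : ℕ} (ρ : Fin M → ℝ) (i : Fin M) : ℝ :=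
  ρ i * ∏ j ∈ Finset.univ.filter (· < i), (1 - ρ j)

/-- the frequencies `1, …, (p - 1) / 2` -/
def fq (p : ℕ) (i : Fin ((p - 1) / 2)) : ZMod p := ((i : ℕ) + 1 : ℕ)

/-- a sparse non-negative vector which turns with the phase of `z` -/
noncomputable def kap {p : ℕ} [NeZero p] (ξ : ZMod p) (z : ℂ) (n : ZMod p) : ℝ :=
  max 0 ((z * ZMod.stdAddChar (ξ * n)).re - ‖z‖ * Real.cos (2 * Real.pi / p))

/-! ## The system -/

/-- the distance to the nearest integer -/
noncomputable def dz (u : ℝ) : ℝ := |u - round u|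

/-- the soft indicator function of the numbers `t` for which `q t - i / N` is near an integer: it
is `1` if the distance is at most `1 / (2 N)` and `0` if it is at least `1 / N` -/
noncomputable def soft (N q i : ℕ) (t : ℝ) : ℝ := clamp (2 - 2 * N * dz (q * t - i / N))

/-- the soft number of coordinates near the ramp in the window of length `N` which starts at `n` -/
noncomputable def cnt (N q : ℕ) (x : ℤ → ℝ) (n : ℤ) : ℝ :=
  ∑ i ∈ Finset.range N, soft N q i (x (n + i))

/-- the ramp avoiding sequences -/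
def XX (N : ℕ → ℕ) : Set (ℤ → ℝ) :=
  {x | (∀ n, x n ∈ Icc (0 : ℝ) 1) ∧ ∀ (j : ℕ) (n : ℤ), cnt (N j) (j + 1) x n ≤ N j / (j + 1)}

/-- the translate of a sequence -/
def tr (m : ℤ) (x : ℤ → ℝ) : ℤ → ℝ := fun n => x (n + m)

lemma cnt_tr (N q : ℕ) (x : ℤ → ℝ) (m n : ℤ) : cnt N q (tr m x) n = cnt N q x (n + m) := by
  unfold cnt tr
  refine Finset.sum_congr rfl fun i _ => ?_
  rw [show n + (i : ℤ) + m = n + m + i by ring]

lemma tr_mem {N : ℕ → ℕ} {x : ℤ → ℝ} (hx : x ∈ XX N) (m : ℤ) : tr m x ∈ XX N :=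
  ⟨fun n => hx.1 _, fun j n => by rw [cnt_tr]; exact hx.2 j _⟩

instance (N : ℕ → ℕ) : AddAction (Fin 1 → ℤ) (XX N) where
  vadd g x := ⟨tr (g 0) x.1, tr_mem x.2 _⟩
  zero_vadd x := Subtype.ext <| by
    funext n
    change x.1 (n + 0) = x.1 n
    rw [add_zero]
  add_vadd g h x := Subtype.ext <| by
    funext n
    change x.1 (n + (g 0 + h 0)) = x.1 (n + g 0 + h 0)
    rw [add_assoc]

/-- the vector with the coordinate `t` -/
def vec (t : ℤ) : Fin 1 → ℤ := fun _ => t

lemma vadd_coe {N : ℕ → ℕ} (g : Fin 1 → ℤ) (x : XX N) : (g +ᵥ x).1 = tr (g 0) x.1 := rfl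

lemma vadd_apply {N : ℕ → ℕ} (g : Fin 1 → ℤ) (x : XX N) (n : ℤ) : (g +ᵥ x).1 n = x.1 (n + g 0) := rfl

/-- the periodic sequence belonging to a cyclic sequence -/
def per {p : ℕ} (y : ZMod p → ℝ) : ℤ → ℝ := fun n => y (n : ZMod p)

/-- the threshold function at the integer `m` -/
noncomputable def thr (N q i m : ℕ) (t : ℝ) : ℝ := clamp (N * (q * t - i / N - m) + 1 / 2)

/-- the soft numbers of a cyclic sequence -/
noncomputable def cz {p : ℕ} (N q : ℕ) (y : ZMod p → ℝ) (n : ZMod p) : ℝ :=
  ∑ i ∈ Finset.range N, soft N q i (y (n + (i : ℕ)))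

/-- a sparse vector for cyclic sequences of small variance -/
noncomputable def fA {p : ℕ} [NeZero p] (y : ZMod p → ℝ) : ZMod p → ℝ :=
  fun n => max 0 (|y n - mean y| - 1 / 4)

/-- a sparse vector for cyclic sequences which are near the ramp in some window -/
noncomputable def fC {p : ℕ} (N q : ℕ) (y : ZMod p → ℝ) : ZMod p → ℝ :=
  fun n => max 0 (cz N q y n - N / (4 * q))

/-- the cyclic sequences which are spread out and stay away from the ramps at the levels
`0, …, k` -/
def EE (N : ℕ → ℕ) (p k : ℕ) [NeZero p] : Set (ZMod p → ℝ) :=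
  {y | y ∈ YY p ∧ (p : ℝ) / 400 ≤ vr y ∧
    ∀ j ≤ k, ∀ n : ZMod p, cz (N j) (j + 1) y n ≤ N j / (2 * (j + 1))}

/-- the conditions on the period `p` belonging to the level `k` -/
structure Lev (N : ℕ → ℕ) (p k : ℕ) : Prop where
  large : ∀ j, 1000 * (j + 1) * 2 ^ j ≤ N j
  le : ∀ j ≤ k, N j ≤ p
  ge : ∀ j, k < j → 2 * (j + 1) * (p * (k + 2) ^ p) ≤ N j

end Pool.Agent.MDX
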