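import Pool.Agent.MDX.VAL

/-! # The pieces near a ramp

PROOFS. `cz N q y n = ∑_{i < N} soft N q i (y (n + i))`; continuity from `continuous_soft`;
`cz_sh` : `cz N q (sh y) n = cz N q y (n + 1)` by unfolding.
`fC_ne` : at the index `n` of the hypothesis `cz N q y n - N / (4 q) ≥ N / (4 q) > 0`.
`supc_fC` : if `fC N q y n ≠ 0` then `cz N q y n > N / (4 q)`; so `supc * N / (4 q) ≤ ∑_n cz N q y n ≤ 2 p` by
`sum_cz_le` (`cz ≥ 0`), that is `N * supc ≤ 8 q p`.
-/

open Set Filter Topology

namespace Pool.Agent.MDX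

open Pool.Agent.MMD

variable {p : ℕ} [NeZero p]

lemma continuous_cz (N q : ℕ) (n : ZMod p) : Continuous fun y : ZMod p → ℝ => cz N q y n := by
  unfold cz
  exact continuous_finsetSum _ fun i _ => (continuous_soft N q i).comp (continuous_apply _)

lemma cz_sh (N q : ℕ) (y : ZMod p → ℝ) (n : ZMod p) : cz N q (sh y) n = cz N q y (n + 1) := by
  unfold cz sh
  refine Finset.sum_congr rfl fun i _ => ?_
  rw [show n + ((i : ℕ) : ZMod p) + 1 = n + 1 + ((i : ℕ) : ZMod p) by ring]

lemma continuous_fC (N q : ℕ) : Continuous (fC N q : (ZMod p → ℝ) → ZMod p → ℝ) := by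
  refine continuous_pi fun n => ?_
  unfold fC
  exact continuous_const.max ((continuous_cz N q n).sub continuous_const)

lemma fC_sh (N q : ℕ) (y : ZMod p → ℝ) : fC N q (sh y) = sh (fC N q y) := by
  funext n
  simp only [fC, sh]
  rw [← cz_sh]

theorem fC_ne {N q : ℕ} (hN : 1 ≤ N) (hq : 1 ≤ q) {y : ZMod p → ℝ}
    (hy : ∃ n, (N : ℝ) / (2 * q) ≤ cz N q y n) : fC N q y ≠ 0 := by
  obtain ⟨n, hn⟩ := hy
  intro h
  have h0 : fC N q y n = 0 := by rw [h]; rfl
  unfold fC at h0
  have h1 : cz N q y n - N / (4 * q) ≤ 0 := by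
    rw [← h0]
    exact le_max_right _ _
  have hN' : (0 : ℝ) < N := by exact_mod_cast hN
  have hq' : (0 : ℝ) < q := by exact_mod_cast hq
  have h2 : (N : ℝ) / (4 * q) < N / (2 * q) := by
    apply div_lt_div_of_pos_left hN' (by positivity)
    linarith
  linarith

theorem supc_fC {N q : ℕ} (hq : 1 ≤ q) (y : ZMod p → ℝ) : N * supc (fC N q y) ≤ 8 * q * p := by
  have hq' : (0 : ℝ) < q := by exact_mod_cast hq
  have hnn : ∀ n, 0 ≤ cz N q y n := fun n => Finset.sum_nonneg fun i _ => soft_nonneg N q i _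
  have h1 : (supc (fC N q y) : ℝ) * (N / (4 * q)) ≤ ∑ n, cz N q y n := by
    calc (supc (fC N q y) : ℝ) * (N / (4 * q))
        = ∑ _n ∈ Finset.univ.filter fun n => fC N q y n ≠ 0, (N : ℝ) / (4 * q) := by
          rw [Finset.sum_const, nsmul_eq_mul]
          rfl
      _ ≤ ∑ n ∈ Finset.univ.filter fun n => fC N q y n ≠ 0, cz N q y n := by
          refine Finset.sum_le_sum fun n hn => ?_
          have hn' := (Finset.mem_filter.mp hn).2
          by_contra hlt
          push Not at hlt
          apply hn'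
          unfold fC
          exact max_eq_left (by linarith)
      _ ≤ ∑ n, cz N q y n :=
          Finset.sum_le_sum_of_subset_of_nonneg (Finset.filter_subset _ _) fun n _ _ => hnn n
  have h2 := h1.trans (sum_cz_le N q y)
  have h3 : (N : ℝ) * supc (fC N q y) ≤ 8 * q * p := by
    have h4 : (supc (fC N q y) : ℝ) * (N / (4 * q)) * (4 * q) ≤ 2 * p * (4 * q) :=
      mul_le_mul_of_nonneg_right h2 (by positivity)
    have h5 : (supc (fC N q y) : ℝ) * (N / (4 * q)) * (4 * q) = N * supc (fC N q y) := by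
      field_simp
    rw [h5] at h4
    linarith
  exact_mod_cast h3

end Pool.Agent.MDX
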