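import Pool.Agent.MDX.PVA
import Pool.Agent.MDX.PCN

/-! # The set of good cyclic sequences

PROOFS. `YY p` is closed: finite unions and intersections of closed sets (`isClosed_iUnion_of_finite`
for the conditions with an existential quantifier), and `EE` by `continuous_vr`, `continuous_cz`. Invariance: `vr_sh`, `cz_sh`.
`nonempty_cases` : by cases whether `vr y ≤ p / 400`, and whether some `cz (N j) (j+1) y n` with `j ≤ k` is at least
`N j / (2 (j + 1))`.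
-/

open Set Filter Topology

namespace Pool.Agent.MDX

open Pool.Agent.MMD

variable {p : ℕ} [NeZero p]

private lemma EPR_setOf_exists (c : ℝ) : IsClosed {y : ZMod p → ℝ | ∃ n, y n = c} := by
  have : {y : ZMod p → ℝ | ∃ n, y n = c} = ⋃ n, {y : ZMod p → ℝ | y n = c} := by
    ext y; simp
  rw [this]
  exact isClosed_iUnion_of_finite fun n => isClosed_eq (continuous_apply n) continuous_const

lemma isClosed_YY : IsClosed (YY p) := by
  have h1 : IsClosed {y : ZMod p → ℝ | ∀ n, y n ∈ Icc (0:ℝ) 1} := by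
    have : {y : ZMod p → ℝ | ∀ n, y n ∈ Icc (0:ℝ) 1} = ⋂ n, {y : ZMod p → ℝ | y n ∈ Icc (0:ℝ) 1} := by
      ext y; simp
    rw [this]
    exact isClosed_iInter fun n => isClosed_Icc.preimage (continuous_apply n)
  exact h1.inter ((EPR_setOf_exists 0).inter (EPR_setOf_exists 1))

lemma sh_mem_YY {y : ZMod p → ℝ} (hy : y ∈ YY p) : sh y ∈ YY p := by
  obtain ⟨h1, ⟨a, ha⟩, ⟨b, hb⟩⟩ := hy
  refine ⟨fun n => h1 (n + 1), ⟨a - 1, ?_⟩, ⟨b - 1, ?_⟩⟩
  · show y (a - 1 + 1) = 0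
    rw [sub_add_cancel]; exact ha
  · show y (b - 1 + 1) = 1
    rw [sub_add_cancel]; exact hb

lemma isClosed_EE (N : ℕ → ℕ) (k : ℕ) : IsClosed (EE N p k) := by
  have h2 : IsClosed {y : ZMod p → ℝ | (p : ℝ) / 400 ≤ vr y} :=
    isClosed_le continuous_const continuous_vr
  have h3 : IsClosed {y : ZMod p → ℝ | ∀ j ≤ k, ∀ n, cz (N j) (j + 1) y n ≤ (N j : ℝ) / (2 * (j + 1))} := by
    have : {y : ZMod p → ℝ | ∀ j ≤ k, ∀ n, cz (N j) (j + 1) y n ≤ (N j : ℝ) / (2 * (j + 1))}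
        = ⋂ j, ⋂ (_ : j ≤ k), ⋂ n, {y : ZMod p → ℝ | cz (N j) (j + 1) y n ≤ (N j : ℝ) / (2 * (j + 1))} := by
      ext y; simp
    rw [this]
    exact isClosed_iInter fun j => isClosed_iInter fun _ => isClosed_iInter fun n =>
      isClosed_le (continuous_cz (N j) (j + 1) n) continuous_const
  exact isClosed_YY.inter (h2.inter h3)

lemma sh_mem_EE {N : ℕ → ℕ} {k : ℕ} {y : ZMod p → ℝ} (hy : y ∈ EE N p k) : sh y ∈ EE N p k := by
  obtain ⟨h1, h2, h3⟩ := hy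
  refine ⟨sh_mem_YY h1, ?_, ?_⟩
  · rw [vr_sh]; exact h2
  · intro j hj n
    rw [cz_sh]; exact h3 j hj (n + 1)

theorem cover_cases (N : ℕ → ℕ) (k : ℕ) {y : ZMod p → ℝ} (hy : y ∈ YY p) :
    vr y ≤ p / 400 ∨ (∃ j ≤ k, ∃ n, (N j : ℝ) / (2 * ((j + 1 : ℕ) : ℝ)) ≤ cz (N j) (j + 1) y n) ∨
      y ∈ EE N p k := by
  by_cases h1 : vr y ≤ p / 400
  · exact Or.inl h1
  by_cases h2 : ∃ j ≤ k, ∃ n, (N j : ℝ) / (2 * ((j + 1 : ℕ) : ℝ)) ≤ cz (N j) (j + 1) y n
  · exact Or.inr (Or.inl h2)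
  · refine Or.inr (Or.inr ⟨hy, (not_le.mp h1).le, ?_⟩)
    intro j hj n
    by_contra hcon
    apply h2
    refine ⟨j, hj, n, ?_⟩
    push_cast
    exact (not_le.mp hcon).le

end Pool.Agent.MDX
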