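import Pool.Agent.MDX.Defs

/-! # Few labels in small sets

PROOF. For every index `a` the set `K ∩ D a` is compact. If it is non-empty, the continuous function
`y ↦ max_n f a y n` (`Finset.univ.sup'`) is positive on it, so it has a lower bound `c a > 0`
there (`IsCompact.exists_isMinOn`); and `f a` is uniformly continuous on it
(`IsCompact.uniformContinuousOn_of_continuous`), so there is `η a > 0` such that
`|f a y n - f a z n| < c a` for all `n` whenever `y, z ∈ K ∩ D a` and `dist y z ≤ η a` (`dist_pi_lt_iff`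
or `dist_le_pi_dist`). Let `η > 0` be smaller than all `η a` (finitely many). Given `s`, `α`, `lab`: for
each `a` let `s a = {y ∈ s | α y = a}`. If `s a` is non-empty fix `z ∈ s a`; for every `y ∈ s a` we have
`f a y (lab y) = max_n f a y n ≥ c a`, so `f a z (lab y) > 0`; hence the labels of `s a` lie in the
support of `f a z`, at most `l a` labels. Sum over `a`: `Finset.card_biUnion_le`.
-/

open Set Filter Topology

namespace Pool.Agent.MDX

open Pool.Agent.MMD

private lemma few_aux {p : ℕ} [NeZero p] {C : Set (ZMod p → ℝ)} (hC : IsCompact C)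
    (f : (ZMod p → ℝ) → ZMod p → ℝ) (hf : ContinuousOn f C)
    (h0 : ∀ y ∈ C, ∀ n, 0 ≤ f y n) (hne : ∀ y ∈ C, f y ≠ 0) :
    ∃ η > 0, ∀ y ∈ C, ∀ z ∈ C, dist y z ≤ η → ∀ m, (∀ n, f y n ≤ f y m) → f z m ≠ 0 := by
  rcases C.eq_empty_or_nonempty with hE | hE
  · refine ⟨1, one_pos, fun y hy => ?_⟩
    rw [hE] at hy
    exact absurd hy (Set.notMem_empty y)
  · have hn : (Finset.univ : Finset (ZMod p)).Nonempty := ⟨0, Finset.mem_univ _⟩
    have hg : ContinuousOn (fun y => Finset.univ.sup' hn (fun n => f y n)) C := by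
      apply ContinuousOn.finset_sup'_apply
      intro n _
      exact (continuousOn_pi.1 hf) n
    obtain ⟨x, hx, hmin⟩ := hC.exists_isMinOn hE hg
    set c : ℝ := Finset.univ.sup' hn (fun n => f x n) with hc
    have hcpos : 0 < c := by
      obtain ⟨n, hn'⟩ : ∃ n, f x n ≠ 0 := by
        by_contra hcon
        push Not at hcon
        exact hne x hx (funext hcon)
      have h1 : 0 < f x n := lt_of_le_of_ne (h0 x hx n) (Ne.symm hn')
      exact h1.trans_le (Finset.le_sup' (fun n => f x n) (Finset.mem_univ n))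
    have huc := hC.uniformContinuousOn_of_continuous hf
    rw [Metric.uniformContinuousOn_iff] at huc
    obtain ⟨δ, hδ, huc⟩ := huc c hcpos
    refine ⟨δ / 2, half_pos hδ, fun y hy z hz hyz m hm => ?_⟩
    have h1 : c ≤ Finset.univ.sup' hn (fun n => f y n) := isMinOn_iff.1 hmin y hy
    have h2 : Finset.univ.sup' hn (fun n => f y n) ≤ f y m :=
      Finset.sup'_le hn _ fun n _ => hm n
    have h3 : dist (f y) (f z) < c := huc y hy z hz (by linarith)
    have h4 : dist (f y m) (f z m) ≤ dist (f y) (f z) := dist_le_pi_dist _ _ _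
    rw [Real.dist_eq] at h4
    have h5 := (abs_lt.1 (h4.trans_lt h3)).2
    intro h6
    rw [h6] at h5
    linarith

theorem few_labels {p : ℕ} [NeZero p] {ι : Type} [Fintype ι] {K : Set (ZMod p → ℝ)}
    (hK : IsCompact K) (D : ι → Set (ZMod p → ℝ)) (hD : ∀ a, IsClosed (D a))
    (f : ι → (ZMod p → ℝ) → ZMod p → ℝ) (hf : ∀ a, ContinuousOn (f a) (K ∩ D a))
    (h0 : ∀ a, ∀ y ∈ K ∩ D a, ∀ n, 0 ≤ f a y n) (hne : ∀ a, ∀ y ∈ K ∩ D a, f a y ≠ 0)
    (l : ι → ℕ) (hl : ∀ a, ∀ y ∈ K ∩ D a, supc (f a y) ≤ l a) :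
    ∃ η > 0, ∀ s : Finset (ZMod p → ℝ), (∀ y ∈ s, y ∈ K) → (∀ y ∈ s, ∀ z ∈ s, dist y z ≤ η) →
      ∀ (α : (ZMod p → ℝ) → ι) (lab : (ZMod p → ℝ) → ZMod p),
        (∀ y ∈ s, y ∈ D (α y) ∧ ∀ n, f (α y) y n ≤ f (α y) y (lab y)) →
          (s.image lab).card ≤ ∑ a, l a := by
  classical
  have key : ∀ a, ∃ η > 0, ∀ y ∈ K ∩ D a, ∀ z ∈ K ∩ D a, dist y z ≤ η →
      ∀ m, (∀ n, f a y n ≤ f a y m) → f a z m ≠ 0 := fun a =>
    few_aux (hK.inter_right (hD a)) (f a) (hf a) (h0 a) (hne a)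
  choose η hη hkey using key
  obtain ⟨η₀, hη₀, hle⟩ : ∃ η₀ > (0 : ℝ), ∀ a, η₀ ≤ η a := by
    rcases isEmpty_or_nonempty ι with hι | hι
    · exact ⟨1, one_pos, fun a => (hι.false a).elim⟩
    · obtain ⟨a, ha⟩ := Finite.exists_min η
      exact ⟨η a, hη a, ha⟩
  refine ⟨η₀, hη₀, fun s hs hd α lab hlab => ?_⟩
  have hsub : s.image lab ⊆ Finset.univ.biUnion fun a => (s.filter fun y => α y = a).image lab := by
    intro m hm
    obtain ⟨y, hy, rfl⟩ := Finset.mem_image.1 hm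
    refine Finset.mem_biUnion.2 ⟨α y, Finset.mem_univ _, Finset.mem_image.2 ⟨y, ?_, rfl⟩⟩
    exact Finset.mem_filter.2 ⟨hy, rfl⟩
  refine (Finset.card_le_card hsub).trans (Finset.card_biUnion_le.trans ?_)
  refine Finset.sum_le_sum fun a _ => ?_
  rcases (s.filter fun y => α y = a).eq_empty_or_nonempty with hE | ⟨z, hz⟩
  · rw [hE]
    simp
  · have hz' := Finset.mem_filter.1 hz
    have hzD : z ∈ K ∩ D a := ⟨hs z hz'.1, by have := (hlab z hz'.1).1; rwa [hz'.2] at this⟩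
    refine le_trans (Finset.card_le_card ?_) (hl a z hzD)
    intro m hm
    obtain ⟨y, hy, rfl⟩ := Finset.mem_image.1 hm
    have hy' := Finset.mem_filter.1 hy
    have hyl := hlab y hy'.1
    rw [hy'.2] at hyl
    refine Finset.mem_filter.2 ⟨Finset.mem_univ _, ?_⟩
    exact hkey a y ⟨hs y hy'.1, hyl.1⟩ z hzD ((hd y hy'.1 z hz'.1).trans (hle a)) (lab y) hyl.2

end Pool.Agent.MDX
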