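import Pool.Agent.MDX.KAA

/-! # The sparse vectors which turn with the phase: supports

PROOFS. By the substitution `n ↦ ξ * n`, a bijection of `ZMod p` as `ξ ≠ 0`, it is enough to
treat `ξ = 1`. Let `z ≠ 0`, `z = ‖z‖ exp(i θ)`, `t = θ p / (2 π)`. For `m : ZMod p` with representative
`m.val`, `stdAddChar m = exp (2 π i m.val / p)` (`ZMod.stdAddChar_apply`, `ZMod.toCircle_apply`), so
`(z * stdAddChar m).re = ‖z‖ cos (2 π (t + m.val) / p)`. For a real number `a`,
`cos (2 π a / p) > cos (2 π / p)` holds iff `|a - p k| < 1` for some integer `k`: by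
periodicity we may assume `|a| ≤ p / 2`, and the cosine is even and strictly decreasing on `[0, π]`
(`Real.strictAntiOn_cos`; here `p ≥ 3` so `2 π / p < π`). So `kap 1 z m ≠ 0` iff the integer
`j = p k - m.val` is at distance less than `1` from `t` for some `k`; then `j ∈ {⌊t⌋, ⌊t⌋ + 1}`, that is
`m = - ⌊t⌋` or `m = - (⌊t⌋ + 1)` in `ZMod p`. So the support has at most two elements,
and it contains `- ⌊t⌋` (only these two facts are needed).
If `z = 0` then `kap ξ 0 n = max 0 0 = 0`.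
-/

open Set Filter Topology

namespace Pool.Agent.MDX

open Pool.Agent.MMD

variable {p : ℕ} [Fact p.Prime]

private lemma kab_re {z : ℂ} (j : ℤ) :
    (z * ZMod.stdAddChar (j : ZMod p)).re =
      ‖z‖ * Real.cos (2 * Real.pi * (z.arg * p / (2 * Real.pi) + j) / p) := by
  have hp0 : (p : ℝ) ≠ 0 := by exact_mod_cast (Fact.out : p.Prime).ne_zero
  have hpi := Real.pi_ne_zero
  have h1 : z * ZMod.stdAddChar (j : ZMod p) =
      (‖z‖ : ℂ) * Complex.exp ((z.arg + 2 * Real.pi * j / p : ℝ) * Complex.I) := by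
    conv_lhs => rw [← Complex.norm_mul_exp_arg_mul_I z]
    rw [ZMod.stdAddChar_coe, mul_assoc, ← Complex.exp_add]
    congr 2
    push_cast
    ring
  rw [h1, Complex.re_ofReal_mul, Complex.exp_ofReal_mul_I_re]
  congr 2
  field_simp

private lemma kab_lt (hp : 3 ≤ p) {z : ℂ} (hz : z ≠ 0) (j : ℤ)
    (hj : |z.arg * p / (2 * Real.pi) + j| ≤ p / 2) :
    0 < (z * ZMod.stdAddChar (j : ZMod p)).re - ‖z‖ * Real.cos (2 * Real.pi / p) ↔
      |z.arg * p / (2 * Real.pi) + j| < 1 := by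
  have hp0 : (0 : ℝ) < p := by exact_mod_cast (Fact.out : p.Prime).pos
  have hp3 : (3 : ℝ) ≤ p := by exact_mod_cast hp
  have hpi := Real.pi_pos
  have hz' : 0 < ‖z‖ := norm_pos_iff.mpr hz
  rw [kab_re, ← mul_sub, mul_pos_iff_of_pos_left hz', sub_pos]
  set a := z.arg * p / (2 * Real.pi) + j with ha
  have h1 : |2 * Real.pi * a / p| = 2 * Real.pi / p * |a| := by
    rw [abs_div, abs_mul, abs_of_pos (by positivity : (0 : ℝ) < 2 * Real.pi), abs_of_pos hp0]
    ring
  rw [← Real.cos_abs (2 * Real.pi * a / p), h1]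
  have h2 : 2 * Real.pi / p * |a| ∈ Icc (0 : ℝ) Real.pi := by
    refine ⟨by positivity, ?_⟩
    calc 2 * Real.pi / p * |a| ≤ 2 * Real.pi / p * (p / 2) :=
          mul_le_mul_of_nonneg_left hj (by positivity)
      _ = Real.pi := by field_simp
  have h3 : 2 * Real.pi / p ∈ Icc (0 : ℝ) Real.pi := by
    refine ⟨by positivity, ?_⟩
    rw [div_le_iff₀ hp0]
    nlinarith
  rw [Real.strictAntiOn_cos.lt_iff_gt h3 h2]
  constructor
  · intro h
    have h4 : 2 * Real.pi / p * |a| < 2 * Real.pi / p * 1 := by rwa [mul_one]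
    exact lt_of_mul_lt_mul_left h4 (by positivity)
  · intro h
    calc 2 * Real.pi / p * |a| < 2 * Real.pi / p * 1 := mul_lt_mul_of_pos_left h (by positivity)
      _ = 2 * Real.pi / p := mul_one _

theorem kap_pos (hp : p ≠ 2) {ξ : ZMod p} (hξ : ξ ≠ 0) {z : ℂ} (hz : z ≠ 0) :
    ∃ n, 0 < kap ξ z n := by
  have hpp : p.Prime := Fact.out
  have hp3 : 3 ≤ p := by
    have := hpp.two_le
    omega
  have hp3' : (3 : ℝ) ≤ p := by exact_mod_cast hp3
  set t := z.arg * p / (2 * Real.pi) with ht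
  have h1 : |t + (-⌊t⌋ : ℤ)| < 1 := by
    push_cast
    rw [abs_lt]
    have := Int.floor_le t
    have := Int.lt_floor_add_one t
    constructor <;> linarith
  refine ⟨ξ⁻¹ * ((-⌊t⌋ : ℤ) : ZMod p), ?_⟩
  rw [kap, ← mul_assoc, mul_inv_cancel₀ hξ, one_mul]
  exact lt_max_of_lt_right ((kab_lt hp3 hz _ (by linarith)).mpr h1)

theorem kap_support (hp : p ≠ 2) {ξ : ZMod p} (hξ : ξ ≠ 0) (z : ℂ) : supc (kap ξ z) ≤ 2 := by
  have hpp : p.Prime := Fact.out
  have hp3 : 3 ≤ p := by
    have := hpp.two_le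
    omega
  have hp0 : (0 : ℝ) < p := by exact_mod_cast hpp.pos
  rw [supc]
  by_cases hz : z = 0
  · have h1 : (Finset.univ.filter fun n => kap ξ z n ≠ 0) = ∅ := by
      rw [Finset.filter_eq_empty_iff]
      intro n _
      simp [kap, hz]
    rw [h1]
    simp
  set t := z.arg * p / (2 * Real.pi) with ht
  have key : ∀ n, kap ξ z n ≠ 0 →
      n = ξ⁻¹ * ((-⌊t⌋ : ℤ) : ZMod p) ∨ n = ξ⁻¹ * ((-⌊t⌋ - 1 : ℤ) : ZMod p) := by
    intro n hn
    have h1 : 0 < (z * ZMod.stdAddChar (ξ * n)).re - ‖z‖ * Real.cos (2 * Real.pi / p) := by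
      by_contra h
      exact hn (max_eq_left (not_lt.mp h))
    set r : ℝ := (t + ((ξ * n).val : ℤ)) / p with hr
    set j : ℤ := ((ξ * n).val : ℤ) - p * round r with hj
    have hjn : (j : ZMod p) = ξ * n := by
      rw [hj]
      push_cast
      rw [ZMod.natCast_self, zero_mul, sub_zero, ZMod.natCast_val, ZMod.cast_id]
    have h2 : |t + j| ≤ p / 2 := by
      have h3 : t + j = p * (r - round r) := by
        rw [hj, hr]
        push_cast
        field_simp
        ring
      rw [h3, abs_mul, abs_of_pos hp0]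
      have := abs_sub_round r
      nlinarith
    rw [← hjn] at h1
    have h3 := (kab_lt hp3 hz j h2).mp h1
    rw [abs_lt] at h3
    have h4 : j = -⌊t⌋ ∨ j = -⌊t⌋ - 1 := by
      have h5 := Int.floor_le t
      have h6 := Int.lt_floor_add_one t
      have h7 : ⌊t⌋ - 1 < -j := by
        have : ((⌊t⌋ - 1 : ℤ) : ℝ) < ((-j : ℤ) : ℝ) := by
          push_cast
          linarith [h3.2]
        exact_mod_cast this
      have h8 : -j < ⌊t⌋ + 2 := by
        have : ((-j : ℤ) : ℝ) < ((⌊t⌋ + 2 : ℤ) : ℝ) := by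
          push_cast
          linarith [h3.1]
        exact_mod_cast this
      omega
    have h9 : n = ξ⁻¹ * (j : ZMod p) := by
      rw [hjn, ← mul_assoc, inv_mul_cancel₀ hξ, one_mul]
    rcases h4 with h | h
    · left
      rw [h9, h]
    · right
      rw [h9, h]
  calc (Finset.univ.filter fun n => kap ξ z n ≠ 0).card ≤
        ({ξ⁻¹ * ((-⌊t⌋ : ℤ) : ZMod p), ξ⁻¹ * ((-⌊t⌋ - 1 : ℤ) : ZMod p)} : Finset (ZMod p)).card := by
        refine Finset.card_le_card fun n hn => ?_
        rw [Finset.mem_filter] at hn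
        rw [Finset.mem_insert, Finset.mem_singleton]
        exact key n hn.2
    _ ≤ 2 := Finset.card_le_two

end Pool.Agent.MDX
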