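import Pool.Agent.MDX.PAR

/-! # Fourier coefficients of near cyclic sequences

PROOFS.
`vr_le` : `vr v = ∑ v^2 - (∑ v)^2 / p ≤ ∑ v^2`.
`near_count` : `|rr v ξ - rr w ξ| ≤ rr (v - w) ξ` by the triangle inequality and `ft_sub`. So
`card s * δ^2 ≤ ∑_i rr (v - w) (fq p i)^2 = vr (v - w) / 2 ≤ p * ε'^2 / 2` by `parseval_half`, `vr_le`.
`exists_big` : with `M = (p-1)/2 ≥ 1` (so `2 M = p - 1`): if all `rr v (fq p i) < σ` then
`σ^2 * p / 2 ≤ vr v / 2 = ∑ rr^2 ≤ M σ^2 = (p - 1)/2 * σ^2`, which is impossible for `σ > 0`.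
-/

open Set Filter Topology

namespace Pool.Agent.MDX

open Pool.Agent.MMD

variable {p : ℕ} [Fact p.Prime]

lemma vr_le (v : ZMod p → ℝ) : vr v ≤ ∑ n, v n ^ 2 := by
  have hp : (0 : ℝ) < p := by exact_mod_cast (Fact.out : p.Prime).pos
  have h0 : ∑ n, v n = p * mean v := by
    unfold mean
    field_simp
  have h1 : vr v = ∑ n, v n ^ 2 - p * mean v ^ 2 := by
    have h2 : vr v = ∑ n, (v n ^ 2 - 2 * mean v * v n + mean v ^ 2) := by
      unfold vr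
      exact Finset.sum_congr rfl fun n _ => by ring
    rw [h2, Finset.sum_add_distrib, Finset.sum_sub_distrib, ← Finset.mul_sum, h0, Finset.sum_const,
      Finset.card_univ, ZMod.card, nsmul_eq_mul]
    ring
  rw [h1]
  have h3 : 0 ≤ p * mean v ^ 2 := by positivity
  linarith

private lemma nea_rr (v w : ZMod p → ℝ) (ξ : ZMod p) : |rr v ξ - rr w ξ| ≤ rr (v - w) ξ := by
  unfold rr
  rw [ft_sub, ← sub_div, abs_div, abs_of_nonneg (Real.sqrt_nonneg _)]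
  exact div_le_div_of_nonneg_right (abs_norm_sub_norm_le _ _) (Real.sqrt_nonneg _)

private lemma nea_rr_nonneg (v : ZMod p → ℝ) (ξ : ZMod p) : 0 ≤ rr v ξ :=
  div_nonneg (norm_nonneg _) (Real.sqrt_nonneg _)

theorem near_count (hp : p ≠ 2) {v w : ZMod p → ℝ} {δ ε' : ℝ} (hδ : 0 < δ)
    (hvw : ∀ n, |v n - w n| ≤ ε') (s : Finset (Fin ((p - 1) / 2)))
    (hs : ∀ i ∈ s, δ ≤ |rr v (fq p i) - rr w (fq p i)|) : (s.card : ℝ) ≤ p * ε' ^ 2 / (2 * δ ^ 2) := by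
  have h1 : (s.card : ℝ) * δ ^ 2 ≤ ∑ i ∈ s, rr (v - w) (fq p i) ^ 2 := by
    rw [← nsmul_eq_mul]
    refine Finset.card_nsmul_le_sum _ _ _ fun i hi => ?_
    exact pow_le_pow_left₀ hδ.le ((hs i hi).trans (nea_rr v w _)) 2
  have h2 : ∑ i ∈ s, rr (v - w) (fq p i) ^ 2 ≤ ∑ i, rr (v - w) (fq p i) ^ 2 :=
    Finset.sum_le_sum_of_subset_of_nonneg (Finset.subset_univ s) fun i _ _ => sq_nonneg _
  have h3 : vr (v - w) ≤ p * ε' ^ 2 := by
    refine (vr_le (v - w)).trans ?_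
    have h4 : ∑ n, (v - w) n ^ 2 ≤ ∑ _n : ZMod p, ε' ^ 2 := by
      refine Finset.sum_le_sum fun n _ => ?_
      rw [Pi.sub_apply, ← sq_abs]
      exact pow_le_pow_left₀ (abs_nonneg _) (hvw n) 2
    rwa [Finset.sum_const, Finset.card_univ, ZMod.card, nsmul_eq_mul] at h4
  have h5 := parseval_half hp (v - w)
  rw [le_div_iff₀ (by positivity)]
  rw [h5] at h2
  nlinarith

theorem exists_big (hp : p ≠ 2) {v : ZMod p → ℝ} {σ : ℝ} (hσ : 0 < σ) (hv : σ ^ 2 * p ≤ vr v) :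
    ∃ i, σ ≤ rr v (fq p i) := by
  by_contra h
  push Not at h
  have h1 : ∑ i, rr v (fq p i) ^ 2 ≤ ∑ _i : Fin ((p - 1) / 2), σ ^ 2 :=
    Finset.sum_le_sum fun i _ => pow_le_pow_left₀ (nea_rr_nonneg v _) (h i).le 2
  rw [parseval_half hp v, Finset.sum_const, Finset.card_univ, Fintype.card_fin,
    nsmul_eq_mul] at h1
  have hp1 : 1 ≤ p := (Fact.out : p.Prime).one_le
  have h2 : (((p - 1) / 2 : ℕ) : ℝ) ≤ ((p : ℝ) - 1) / 2 := by
    have h6 : (((p - 1) / 2 * 2 : ℕ) : ℝ) ≤ ((p - 1 : ℕ) : ℝ) :=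
      Nat.cast_le.mpr (Nat.div_mul_le_self (p - 1) 2)
    rw [Nat.cast_mul, Nat.cast_sub hp1] at h6
    push_cast at h6
    linarith
  have h3 : (((p - 1) / 2 : ℕ) : ℝ) * σ ^ 2 ≤ ((p : ℝ) - 1) / 2 * σ ^ 2 :=
    mul_le_mul_of_nonneg_right h2 (sq_nonneg σ)
  have h4 : 0 < σ ^ 2 := by positivity
  nlinarith

end Pool.Agent.MDX
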