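import Pool.Agent.MDX.Defs

/-! # The weights

PROOFS. `wt ρ i = ρ i * ∏_{j < i} (1 - ρ j)`. It is non-zero iff `ρ i ≠ 0` and `ρ j ≠ 1` for all `j < i`
(`Finset.prod_eq_zero_iff`).
`wt_card` : let `i₀` be the least index with `ρ i₀ = 1` (`Fin.find`, `Finset.min'`, or
`WellFounded.min`). If `wt ρ i ≠ 0` then `i ≤ i₀`, and `i = i₀` or (`ρ i ≠ 0` and `ρ i ≠ 1`), so the
set of these `i` is contained in `{i₀} ∪ {i | 0 < ρ i < 1}`.
`exists_wt` : let `i₁` be the least index with `ρ i₁ ≠ 0`; all factors `1 - ρ j`, `j < i₁`, are `1`.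
-/

open Set Filter Topology

namespace Pool.Agent.MDX

open Pool.Agent.MMD

variable {M : ℕ}

lemma continuous_wt (i : Fin M) : Continuous fun ρ : Fin M → ℝ => wt ρ i := by
  unfold wt
  fun_prop

lemma wt_nonneg {ρ : Fin M → ℝ} (hρ : ∀ i, ρ i ∈ Icc (0 : ℝ) 1) (i : Fin M) : 0 ≤ wt ρ i := by
  unfold wt
  exact mul_nonneg (hρ i).1 (Finset.prod_nonneg fun j _ => sub_nonneg.2 (hρ j).2)

lemma wt_ne {ρ : Fin M → ℝ} {i : Fin M} (h : wt ρ i ≠ 0) : ρ i ≠ 0 := by
  intro h0
  exact h (by unfold wt; rw [h0, zero_mul])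

theorem exists_wt {ρ : Fin M → ℝ} (h1 : ∃ i, ρ i ≠ 0) : ∃ i, wt ρ i ≠ 0 := by
  classical
  obtain ⟨k, hk⟩ := h1
  have hne : (Finset.univ.filter fun i => ρ i ≠ 0).Nonempty := ⟨k, by simpa using hk⟩
  set i := (Finset.univ.filter fun i => ρ i ≠ 0).min' hne with hi
  have him : i ∈ Finset.univ.filter fun i => ρ i ≠ 0 := Finset.min'_mem _ _
  refine ⟨i, ?_⟩
  unfold wt
  refine mul_ne_zero (by simpa using him) ?_
  rw [Finset.prod_eq_one]
  · exact one_ne_zero
  · intro j hj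
    have hji : j < i := by simpa using hj
    have : ρ j = 0 := by
      by_contra hj0
      have : i ≤ j := Finset.min'_le _ _ (by simpa using hj0)
      exact absurd hji (not_lt.2 this)
    rw [this, sub_zero]

theorem wt_card {ρ : Fin M → ℝ} (hρ : ∀ i, ρ i ∈ Icc (0 : ℝ) 1) (h1 : ∃ i, ρ i = 1) {b : ℕ}
    (hb : ∀ s : Finset (Fin M), (∀ i ∈ s, 0 < ρ i ∧ ρ i < 1) → s.card ≤ b) :
    (Finset.univ.filter fun i => wt ρ i ≠ 0).card ≤ b + 1 := by
  classical
  obtain ⟨k, hk⟩ := h1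
  have hne : (Finset.univ.filter fun i => ρ i = 1).Nonempty := ⟨k, by simpa using hk⟩
  set i₀ := (Finset.univ.filter fun i => ρ i = 1).min' hne with hi₀
  have him : ρ i₀ = 1 := by
    have : i₀ ∈ Finset.univ.filter fun i => ρ i = 1 := Finset.min'_mem _ _
    simpa using this
  have hsub : (Finset.univ.filter fun i => wt ρ i ≠ 0) ⊆
      insert i₀ (Finset.univ.filter fun i => 0 < ρ i ∧ ρ i < 1) := by
    intro i hi
    have hw : wt ρ i ≠ 0 := by simpa using hi
    by_cases hii : i = i₀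
    · exact Finset.mem_insert.2 (Or.inl hii)
    · refine Finset.mem_insert.2 (Or.inr ?_)
      have h0 : ρ i ≠ 0 := wt_ne hw
      have h1 : ρ i ≠ 1 := by
        intro hi1
        have hle : i₀ ≤ i := Finset.min'_le _ _ (by simpa using hi1)
        have hlt : i₀ < i := lt_of_le_of_ne hle (Ne.symm hii)
        apply hw
        unfold wt
        rw [Finset.prod_eq_zero (i := i₀) (by simpa using hlt) (by rw [him, sub_self]), mul_zero]
      simp only [Finset.mem_filter, Finset.mem_univ, true_and]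
      exact ⟨lt_of_le_of_ne (hρ i).1 (Ne.symm h0), lt_of_le_of_ne (hρ i).2 h1⟩
  refine (Finset.card_le_card hsub).trans ((Finset.card_insert_le _ _).trans ?_)
  exact Nat.succ_le_succ (hb _ fun i hi => by simpa using hi)

end Pool.Agent.MDX
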