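import Pool.Agent.MDX.THR
import Pool.Agent.MDX.NEA
import Pool.Agent.MDX.KAB
import Pool.Agent.MDX.WTS

/-! # The Fourier lemma

PROOF. Let `M = (p - 1) / 2`. If `C` is empty then `A` is empty (`hAC`) and `h = 0` works. So let `C` be
non-empty; then `Q ≥ 1` (if `Q = 0` then `Q ^ b₁ ≤ 1 ≤ card C * 2 ^ M`, against `hC`).
Thresholds `λ q = σ/4 + 4 δ q`, `q : Fin Q`. For `w ∈ C` let `near w i q` mean
`|rr w (fq p i) - λ q| < 2 δ`; then `q` is determined by `w` and `i` (two thresholds differ by at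
least `4 δ`). By `exists_threshold` there is `c : Fin M → Fin Q` such that for every `w ∈ C` fewer
than `b₁` indices `i` satisfy `near w i (c i)`. Put `ρ v i = clamp ((rr v (fq p i) - λ (c i) + δ/2) / δ)`
and `h v n = ∑ i, wt (ρ v) i * kap (fq p i) (ft v (fq p i)) n`.
Continuity: `continuous_ft`, `continuous_wt`, `continuous_kap`, `continuous_clamp`. `0 ≤ h`: `wt_nonneg`,
`kap_nonneg`. Equivariance: `rr_sh` gives `ρ (sh v) = ρ v`, and `ft_sh`, `kap_turn`.
Let `v ∈ A`, `w ∈ C` with `|v n - w n| ≤ ε'`. If `0 < ρ v i < 1` then `|rr v - λ| < δ/2`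
(at `fq p i`, `c i`), so either `|rr w - λ| < 2 δ` (fewer than `b₁` indices) or `|rr v - rr w| ≥ δ`
(at most `p ε'^2 / (2 δ^2)` indices by `near_count`); so at most `b` indices by `hb`
(split `s` with `Finset.filter_card_add_filter_neg_card_eq_card` and cast to `ℝ`). By
`exists_big` some `i` has `rr v (fq p i) ≥ σ ≥ λ (c i) + δ/2` (as `λ q + δ/2 ≤ σ/4 + 4 δ (Q - 1) + δ/2 ≤
σ/2`), so `ρ v i = 1`. By `wt_card` at most `b + 1` of the weights `wt (ρ v) i` are non-zero, and
each `kap` has at most two non-zero entries (`kap_support`, `fq p i ≠ 0`), so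
`supc (h v) ≤ 2 (b + 1)` (`Finset.card_biUnion_le_card_mul`). By `exists_wt` some weight is non-zero;
then `ρ v i ≠ 0` (`wt_ne`), so `rr v (fq p i) > λ (c i) - δ/2 > 0` (`λ ≥ σ/4 ≥ 4 δ Q ≥ 4 δ`), so
`ft v (fq p i) ≠ 0` and `kap_pos` gives an `n` with `h v n > 0` (all summands are `≥ 0`).
-/

open Set Filter Topology

namespace Pool.Agent.MDX

open Pool.Agent.MMD

lemma fq_ne_zero {p : ℕ} [Fact p.Prime] (i : Fin ((p - 1) / 2)) : fq p i ≠ 0 := by
  unfold fq
  rw [Ne, ZMod.natCast_eq_zero_iff]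
  intro h
  have h1 := Nat.le_of_dvd (by omega) h
  have h2 := i.isLt
  omega

private lemma clamp_ne_zero {t : ℝ} (h : clamp t ≠ 0) : 0 < t := by
  by_contra h1
  exact h (clamp_of_nonpos (not_lt.1 h1))

private lemma clamp_lt_one {t : ℝ} (h : clamp t < 1) : t < 1 := by
  by_contra h1
  rw [clamp_of_one_le (not_lt.1 h1)] at h
  exact lt_irrefl _ h

theorem fourier_lemma {p : ℕ} [Fact p.Prime] (hp : p ≠ 2) {σ δ ε' : ℝ} (hσ : 0 < σ) (hδ : 0 < δ)
    {Q b₁ b : ℕ} (hQ : 16 * δ * Q ≤ σ) (C : Finset (ZMod p → ℝ))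
    (hC : C.card * 2 ^ ((p - 1) / 2) < Q ^ b₁) (A : Set (ZMod p → ℝ))
    (hA : ∀ v ∈ A, σ ^ 2 * p ≤ vr v) (hAC : ∀ v ∈ A, ∃ w ∈ C, ∀ n, |v n - w n| ≤ ε')
    (hb : b₁ + p * ε' ^ 2 / (2 * δ ^ 2) ≤ (b : ℝ)) :
    ∃ h : (ZMod p → ℝ) → ZMod p → ℝ, Continuous h ∧ (∀ v n, 0 ≤ h v n) ∧
      (∀ v, h (sh v) = sh (h v)) ∧ ∀ v ∈ A, h v ≠ 0 ∧ supc (h v) ≤ 2 * (b + 1) := by
  classical
  rcases C.eq_empty_or_nonempty with hCe | hCn
  · refine ⟨fun _ _ => 0, continuous_const, fun _ _ => le_rfl, fun _ => rfl, ?_⟩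
    intro v hv
    obtain ⟨w, hw, -⟩ := hAC v hv
    rw [hCe] at hw
    exact absurd hw (Finset.notMem_empty _)
  have hQ0 : 0 < Q := by
    rcases Nat.eq_zero_or_pos Q with h0 | h0
    · exfalso
      rw [h0] at hC
      have h1 : 0 < C.card := Finset.card_pos.2 hCn
      have h2 : 0 < 2 ^ ((p - 1) / 2) := by positivity
      have h3 : 0 < C.card * 2 ^ ((p - 1) / 2) := Nat.mul_pos h1 h2
      have h4 : (0 : ℕ) ^ b₁ ≤ 1 := by
        rcases Nat.eq_zero_or_pos b₁ with h | h
        · rw [h, pow_zero]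
        · rw [zero_pow (by omega)]
          omega
      omega
    · exact h0
  obtain ⟨c, hc⟩ := exists_threshold (M := (p - 1) / 2) (Q := Q) (b := b₁) (C := C)
    (fun w i q => |rr (w : ZMod p → ℝ) (fq p i) - (σ / 4 + 4 * δ * (q : ℕ))| < 2 * δ)
    (by
      intro w i q q' h1 h2
      have h3 := abs_lt.1 h1
      have h4 := abs_lt.1 h2
      by_contra hne
      have hne' : (q : ℕ) ≠ (q' : ℕ) := fun h => hne (Fin.ext h)
      rcases Nat.lt_or_gt_of_ne hne' with h | h
      · have h5 : ((q : ℕ) : ℝ) + 1 ≤ ((q' : ℕ) : ℝ) := by exact_mod_cast h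
        nlinarith
      · have h5 : ((q' : ℕ) : ℝ) + 1 ≤ ((q : ℕ) : ℝ) := by exact_mod_cast h
        nlinarith)
    hQ0 (by rw [Fintype.card_coe]; exact hC)
  set lam : Fin ((p - 1) / 2) → ℝ := fun i => σ / 4 + 4 * δ * ((c i : ℕ) : ℝ) with hlam
  set ρ : (ZMod p → ℝ) → Fin ((p - 1) / 2) → ℝ :=
    fun v i => clamp ((rr v (fq p i) - lam i + δ / 2) / δ) with hρ
  have hρm : ∀ v i, ρ v i ∈ Icc (0 : ℝ) 1 := fun v i => clamp_mem _
  have hlam1 : ∀ i, lam i + δ / 2 ≤ σ := by
    intro i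
    have h1 : ((c i : ℕ) : ℝ) + 1 ≤ Q := by exact_mod_cast (c i).isLt
    simp only [hlam]
    nlinarith
  have hlam2 : ∀ i, 0 < lam i - δ / 2 := by
    intro i
    have h1 : (0 : ℝ) ≤ ((c i : ℕ) : ℝ) := by positivity
    have h2 : (1 : ℝ) ≤ Q := by exact_mod_cast hQ0
    simp only [hlam]
    nlinarith [mul_nonneg hδ.le h1]
  have hρc : Continuous ρ := by
    apply continuous_pi
    intro i
    apply continuous_clamp.comp
    apply Continuous.div_const
    apply Continuous.add _ continuous_const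
    apply Continuous.sub _ continuous_const
    unfold rr
    exact ((continuous_ft (fq p i)).norm).div_const _
  refine ⟨fun v n => ∑ i, wt (ρ v) i * kap (fq p i) (ft v (fq p i)) n, ?_, ?_, ?_, ?_⟩
  · apply continuous_pi
    intro n
    apply continuous_finsetSum
    intro i _
    apply Continuous.mul
    · exact (continuous_wt i).comp hρc
    · exact (continuous_kap (fq p i) n).comp (continuous_ft (fq p i))
  · intro v n
    apply Finset.sum_nonneg
    intro i _
    exact mul_nonneg (wt_nonneg (hρm v) i) (kap_nonneg _ _ _)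
  · intro v
    funext n
    have h1 : ρ (sh v) = ρ v := by
      funext i
      simp only [hρ]
      rw [rr_sh]
    show ∑ i, wt (ρ (sh v)) i * kap (fq p i) (ft (sh v) (fq p i)) n
      = ∑ i, wt (ρ v) i * kap (fq p i) (ft v (fq p i)) (n + 1)
    rw [h1]
    apply Finset.sum_congr rfl
    intro i _
    rw [ft_sh, kap_turn]
  · intro v hv
    obtain ⟨w, hw, hvw⟩ := hAC v hv
    have hbd : ∀ s : Finset (Fin ((p - 1) / 2)), (∀ i ∈ s, 0 < ρ v i ∧ ρ v i < 1) → s.card ≤ b := by
      intro s hs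
      have hnear : ∀ i ∈ s, |rr v (fq p i) - lam i| < δ / 2 := by
        intro i hi
        obtain ⟨h1, h2⟩ := hs i hi
        have h3 := clamp_ne_zero h1.ne'
        have h4 := clamp_lt_one h2
        rw [lt_div_iff₀ hδ] at h3
        rw [div_lt_iff₀ hδ] at h4
        rw [abs_lt]
        constructor <;> linarith
      set s1 := s.filter fun i => |rr w (fq p i) - (σ / 4 + 4 * δ * ((c i : ℕ) : ℝ))| < 2 * δ
        with hs1
      set s2 := s.filter fun i => ¬ (|rr w (fq p i) - (σ / 4 + 4 * δ * ((c i : ℕ) : ℝ))| < 2 * δ)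
        with hs2
      have hcard : s1.card + s2.card = s.card := Finset.card_filter_add_card_filter_not _
      have h1 : s1.card < b₁ := hc ⟨w, hw⟩ s1 (fun i hi => (Finset.mem_filter.1 hi).2)
      have h2 : (s2.card : ℝ) ≤ p * ε' ^ 2 / (2 * δ ^ 2) := by
        apply near_count hp hδ hvw s2
        intro i hi
        obtain ⟨hi1, hi2⟩ := Finset.mem_filter.1 hi
        have h3 := hnear i hi1
        have h4 := not_lt.1 hi2
        have h5 : |rr w (fq p i) - (σ / 4 + 4 * δ * ((c i : ℕ) : ℝ))|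
            ≤ |rr v (fq p i) - rr w (fq p i)| + |rr v (fq p i) - lam i| := by
          have : rr w (fq p i) - (σ / 4 + 4 * δ * ((c i : ℕ) : ℝ))
              = -(rr v (fq p i) - rr w (fq p i)) + (rr v (fq p i) - lam i) := by
            simp only [hlam]
            ring
          rw [this]
          refine (abs_add_le _ _).trans ?_
          rw [abs_neg]
        linarith
      have h3 : (s1.card : ℝ) ≤ b₁ := by exact_mod_cast h1.le
      have h4 : (s.card : ℝ) ≤ b := by
        rw [← hcard]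
        push_cast
        linarith
      exact_mod_cast h4
    obtain ⟨i₀, hi₀⟩ := exists_big hp hσ (hA v hv)
    have hone : ∃ i, ρ v i = 1 := by
      refine ⟨i₀, clamp_of_one_le ?_⟩
      rw [le_div_iff₀ hδ]
      have := hlam1 i₀
      linarith
    have hwc := wt_card (hρm v) hone hbd
    constructor
    · obtain ⟨i, hi⟩ := exists_wt (ρ := ρ v) (by
        obtain ⟨i, hi⟩ := hone
        exact ⟨i, by rw [hi]; exact one_ne_zero⟩)
      have h1 := clamp_ne_zero (wt_ne hi)
      rw [lt_div_iff₀ hδ] at h1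
      have h2 := hlam2 i
      have h3 : ft v (fq p i) ≠ 0 := by
        intro h0
        have h4 : rr v (fq p i) = 0 := by
          rw [rr, h0, norm_zero, zero_div]
        linarith
      obtain ⟨n, hn⟩ := kap_pos hp (fq_ne_zero i) h3
      intro h0
      have h5 := congrFun h0 n
      have h6 : 0 < ∑ i, wt (ρ v) i * kap (fq p i) (ft v (fq p i)) n := by
        apply Finset.sum_pos'
        · intro j _
          exact mul_nonneg (wt_nonneg (hρm v) j) (kap_nonneg _ _ _)
        · exact ⟨i, Finset.mem_univ _,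
            mul_pos (lt_of_le_of_ne (wt_nonneg (hρm v) i) (Ne.symm hi)) hn⟩
      have h7 : ∑ i, wt (ρ v) i * kap (fq p i) (ft v (fq p i)) n = 0 := h5
      rw [h7] at h6
      exact lt_irrefl _ h6
    · unfold supc
      have hsub : (Finset.univ.filter fun n =>
          (∑ i, wt (ρ v) i * kap (fq p i) (ft v (fq p i)) n) ≠ 0)
          ⊆ (Finset.univ.filter fun i => wt (ρ v) i ≠ 0).biUnion
            (fun i => Finset.univ.filter fun n => kap (fq p i) (ft v (fq p i)) n ≠ 0) := by
        intro n hn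
        rw [Finset.mem_filter] at hn
        obtain ⟨i, -, hi⟩ := Finset.exists_ne_zero_of_sum_ne_zero hn.2
        rw [Finset.mem_biUnion]
        refine ⟨i, ?_, ?_⟩
        · rw [Finset.mem_filter]
          exact ⟨Finset.mem_univ _, left_ne_zero_of_mul hi⟩
        · rw [Finset.mem_filter]
          exact ⟨Finset.mem_univ _, right_ne_zero_of_mul hi⟩
      refine (Finset.card_le_card hsub).trans ?_
      refine (Finset.card_biUnion_le_card_mul _ _ 2 ?_).trans ?_
      · intro i _
        exact kap_support hp (fq_ne_zero i) _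
      · rw [mul_comm]
        exact Nat.mul_le_mul_left 2 hwc

end Pool.Agent.MDX
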