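import Pool.Agent.MDX.Defs

/-! # Fourier coefficients of cyclic sequences

PROOFS.
`ft_sh` : reindex the sum by `n ↦ n - 1` (`Equiv.sum_comp (Equiv.addRight 1)`), and
`stdAddChar (-(ξ * (n - 1))) = stdAddChar ξ * stdAddChar (-(ξ * n))` (`AddChar.map_add_eq_mul`).
`norm_std` : the values of the character lie on the unit circle (`ZMod.stdAddChar` is the
coercion of `ZMod.toCircle`, `Circle.norm_coe`; or `AddChar.norm_apply`).
`ft_neg` : the conjugate of `stdAddChar a` is `stdAddChar (-a)` (`AddChar.map_neg_eq_conj`), the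
entries of `v` are real, so `ft v (-ξ)` is the conjugate of `ft v ξ`.
-/

open Set Filter Topology

namespace Pool.Agent.MDX

open Pool.Agent.MMD

variable {p : ℕ} [Fact p.Prime]

lemma ft_sh (v : ZMod p → ℝ) (ξ : ZMod p) : ft (sh v) ξ = ZMod.stdAddChar ξ * ft v ξ := by
  unfold ft sh
  have h := Equiv.sum_comp (Equiv.addRight (1 : ZMod p))
    (fun n : ZMod p => (v n : ℂ) * ZMod.stdAddChar (-(ξ * (n - 1))))
  simp only [Equiv.coe_addRight, add_sub_cancel_right] at h
  rw [h, Finset.mul_sum]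
  refine Finset.sum_congr rfl fun n _ => ?_
  rw [show -(ξ * (n - 1)) = ξ + -(ξ * n) by ring, AddChar.map_add_eq_mul]
  ring

lemma norm_std (ξ : ZMod p) : ‖(ZMod.stdAddChar ξ : ℂ)‖ = 1 :=
  AddChar.norm_apply _ _

lemma rr_sh (v : ZMod p → ℝ) (ξ : ZMod p) : rr (sh v) ξ = rr v ξ := by
  rw [rr, rr, ft_sh, norm_mul, norm_std, one_mul]

lemma ft_sub (v w : ZMod p → ℝ) (ξ : ZMod p) : ft (v - w) ξ = ft v ξ - ft w ξ := by
  unfold ft
  rw [← Finset.sum_sub_distrib]
  refine Finset.sum_congr rfl fun n _ => ?_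
  rw [Pi.sub_apply]
  push_cast
  ring

lemma continuous_ft (ξ : ZMod p) : Continuous fun v : ZMod p → ℝ => ft v ξ := by
  unfold ft
  refine continuous_finsetSum _ fun n _ => ?_
  exact (Complex.continuous_ofReal.comp (continuous_apply n)).mul continuous_const

lemma ft_neg (v : ZMod p → ℝ) (ξ : ZMod p) : ‖ft v (-ξ)‖ = ‖ft v ξ‖ := by
  have h : ft v (-ξ) = (starRingEnd ℂ) (ft v ξ) := by
    unfold ft
    rw [map_sum]
    refine Finset.sum_congr rfl fun n _ => ?_
    rw [map_mul, Complex.conj_ofReal, ← AddChar.map_neg_eq_conj]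
    congr 2
    ring
  rw [h, RCLike.norm_conj]

end Pool.Agent.MDX
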