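import Pool.Agent.MDX.FTA

/-! # The piece of small variance

PROOFS.
`mean_sh`, `vr_sh` : reindex the sums. `fA_sh` : from `mean_sh`.
`fA_ne` : the mean lies in `[0, 1]`; if it is at least `1/2` then at the index with `y n = 0` we have
`|y n - mean y| ≥ 1/2`, otherwise at the index with `y n = 1`.
`supc_fA` : if `fA y n ≠ 0` then `|y n - mean y| > 1/4`, `(y n - mean y)^2 > 1/16`, so
`supc / 16 ≤ vr y ≤ p / 400`.
-/

open Set Filter Topology

namespace Pool.Agent.MDX

open Pool.Agent.MMD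

variable {p : ℕ} [NeZero p]

private lemma PVA_sum (g : ZMod p → ℝ) : ∑ n, g (n + 1) = ∑ n, g n :=
  Equiv.sum_comp (Equiv.addRight (1 : ZMod p)) g

lemma mean_sh (y : ZMod p → ℝ) : mean (sh y) = mean y := by
  unfold mean sh
  rw [PVA_sum]

lemma vr_sh (y : ZMod p → ℝ) : vr (sh y) = vr y := by
  unfold vr
  rw [mean_sh]
  exact PVA_sum fun n => (y n - mean y) ^ 2

lemma continuous_mean : Continuous (mean : (ZMod p → ℝ) → ℝ) := by
  unfold mean
  exact (continuous_finset_sum _ fun n _ => continuous_apply n).div_const _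

lemma continuous_vr : Continuous (vr : (ZMod p → ℝ) → ℝ) := by
  unfold vr
  exact continuous_finset_sum _ fun n _ => ((continuous_apply n).sub continuous_mean).pow 2

lemma continuous_fA : Continuous (fA : (ZMod p → ℝ) → ZMod p → ℝ) := by
  refine continuous_pi fun n => ?_
  unfold fA
  exact continuous_const.max (((continuous_apply n).sub continuous_mean).abs.sub
    continuous_const)

lemma fA_sh (y : ZMod p → ℝ) : fA (sh y) = sh (fA y) := by
  funext n
  unfold fA
  rw [mean_sh]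
  rfl

theorem fA_ne {y : ZMod p → ℝ} (hy : y ∈ YY p) : fA y ≠ 0 := by
  obtain ⟨_, ⟨a, ha⟩, b, hb⟩ := hy
  intro h
  have h1 : ∀ n, |y n - mean y| ≤ 1 / 4 := by
    intro n
    have h2 : max 0 (|y n - mean y| - 1 / 4) = 0 := congrFun h n
    have h3 := le_max_right 0 (|y n - mean y| - 1 / 4)
    linarith
  have h2 := abs_le.1 (h1 a)
  have h3 := abs_le.1 (h1 b)
  rw [ha] at h2
  rw [hb] at h3
  linarith [h2.1, h3.2]

theorem supc_fA {y : ZMod p → ℝ} (hy : vr y ≤ p / 400) : 25 * supc (fA y) ≤ p := by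
  have h1 : ∀ n ∈ Finset.univ.filter (fun n => fA y n ≠ 0), (1 : ℝ) / 16 ≤ (y n - mean y) ^ 2 := by
    intro n hn
    have h2 : max 0 (|y n - mean y| - 1 / 4) ≠ 0 := (Finset.mem_filter.1 hn).2
    have h3 : 1 / 4 < |y n - mean y| := by
      by_contra hc
      exact h2 (max_eq_left (by linarith [not_lt.1 hc]))
    have h4 : (1 / 4 : ℝ) ^ 2 ≤ |y n - mean y| ^ 2 := pow_le_pow_left₀ (by norm_num) h3.le 2
    rw [sq_abs] at h4
    linarith
  have h2 : (supc (fA y) : ℝ) * (1 / 16) ≤ vr y := by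
    calc (supc (fA y) : ℝ) * (1 / 16)
        = ∑ n ∈ Finset.univ.filter (fun n => fA y n ≠ 0), (1 : ℝ) / 16 := by
          rw [Finset.sum_const, nsmul_eq_mul, supc]
      _ ≤ ∑ n ∈ Finset.univ.filter (fun n => fA y n ≠ 0), (y n - mean y) ^ 2 :=
          Finset.sum_le_sum h1
      _ ≤ ∑ n, (y n - mean y) ^ 2 :=
          Finset.sum_le_sum_of_subset_of_nonneg (Finset.filter_subset _ _)
            fun n _ _ => sq_nonneg _
      _ = vr y := rfl
  have h3 : (25 * supc (fA y) : ℝ) ≤ p := by linarith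
  exact_mod_cast h3

end Pool.Agent.MDX
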