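import Pool.Agent.MDX.VAL
import Pool.Agent.MDX.PVA
import Pool.Agent.MDX.PCN

/-! # The equivariant map of a function on the system

PROOF. For `y ∈ EE N p k` let `P y` be the point `⟨per y, per_mem hL hy⟩` of `XX N` and
`G y n = g (vec n.val +ᵥ P y)` (`G y = 0` if `per y ∉ XX N`; define `G` with `dite`). If `x.1 = per y` then `x = P y`.
Continuity on `EE`: restrict to the subtype (`continuousOn_iff_continuous_restrict`); `y ↦ P y` is
continuous (coordinatewise), translation is continuous, and `g` is continuous since it is Lipschitz for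
the compatible metric `d` (`|g x - g y| ≤ L * d x y` and `d` is continuous and vanishes on the
diagonal: `IsCompatibleMetric.continuous`).
Equivariance: `(vec n.val +ᵥ P (sh y)) m = y (m + n.val + 1)` and `(vec (n + 1).val +ᵥ P y) m = y (m + (n+1).val)`
as elements of `ZMod p` the arguments agree (`ZMod.natCast_zmod_val`), so both points are equal.
Variance: `(vec n.val +ᵥ P y) 0 = y n`, so `|G y n - y n| ≤ 1/100` by `hg0`. With `u = G y - y`,
`G y n - mean (G y) = (y n - mean y) + (u n - mean u)` and `(a + b)^2 ≥ a^2 / 2 - b^2`, so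
`vr (G y) ≥ vr y / 2 - vr u ≥ p / 800 - p / 10^4 ≥ (3/100)^2 p`, as `vr u ≤ ∑ u^2 ≤ p / 10^4`
(`∑ (u - mean u)^2 = ∑ u^2 - p (mean u)^2`).
-/

open Set Filter Topology

namespace Pool.Agent.MDX

open Pool.Agent.MMD

private lemma gmp_continuous_g {X : Type*} [TopologicalSpace X] {d : X → X → ℝ}
    (hd : IsCompatibleMetric d) {g : X → ℝ} {L : ℝ} (hg : ∀ x y, |g x - g y| ≤ L * d x y) :
    Continuous g := by
  refine continuous_iff_continuousAt.mpr fun x => ?_
  refine tendsto_iff_dist_tendsto_zero.mpr ?_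
  refine squeeze_zero (fun z => dist_nonneg) (fun z => ?_) (g := fun z => L * d z x) ?_
  · rw [Real.dist_eq]
    exact hg z x
  · have h : Continuous fun z => L * d z x :=
      continuous_const.mul (hd.continuous.comp (continuous_id.prodMk continuous_const))
    have h2 := h.tendsto x
    simp only [hd.dist_self, mul_zero] at h2
    exact h2

private lemma gmp_vr_nonneg_mean {p : ℕ} [NeZero p] (u : ZMod p → ℝ) :
    vr u ≤ ∑ n, u n ^ 2 := by
  have hp : (0 : ℝ) < p := by exact_mod_cast Nat.pos_of_ne_zero (NeZero.ne p)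
  have hs : ∑ n, u n = p * mean u := by
    unfold mean
    field_simp
  have h1 : vr u = ∑ n, u n ^ 2 - p * mean u ^ 2 := by
    unfold vr
    have h2 : ∀ n, (u n - mean u) ^ 2 = u n ^ 2 - 2 * mean u * u n + mean u ^ 2 := fun n => by ring
    simp only [h2]
    rw [Finset.sum_add_distrib, Finset.sum_sub_distrib, ← Finset.mul_sum, hs, Finset.sum_const,
      nsmul_eq_mul, Finset.card_univ, ZMod.card]
    ring
  rw [h1]
  nlinarith [sq_nonneg (mean u)]

private lemma gmp_vr_ge {p : ℕ} [NeZero p] {y z : ZMod p → ℝ} (hy : (p : ℝ) / 400 ≤ vr y)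
    (h : ∀ n, |z n - y n| ≤ 1 / 100) : ((3 : ℝ) / 100) ^ 2 * p ≤ vr z := by
  have hp : (0 : ℝ) < p := by exact_mod_cast Nat.pos_of_ne_zero (NeZero.ne p)
  have h1 : vr (fun n => z n - y n) ≤ p / 10000 := by
    refine (gmp_vr_nonneg_mean _).trans ?_
    calc ∑ n, (z n - y n) ^ 2 ≤ ∑ _n : ZMod p, (1 / 100 : ℝ) ^ 2 := by
          refine Finset.sum_le_sum fun n _ => ?_
          rw [← sq_abs (z n - y n)]
          exact pow_le_pow_left₀ (abs_nonneg _) (h n) 2
      _ = p / 10000 := by
          rw [Finset.sum_const, nsmul_eq_mul, Finset.card_univ, ZMod.card]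
          ring
  have hm : mean (fun n => z n - y n) = mean z - mean y := by
    unfold mean
    rw [Finset.sum_sub_distrib]
    ring
  have h2 : vr y / 2 - vr (fun n => z n - y n) ≤ vr z := by
    unfold vr
    rw [hm, Finset.sum_div, ← Finset.sum_sub_distrib]
    refine Finset.sum_le_sum fun n _ => ?_
    nlinarith [sq_nonneg ((y n - mean y) + 2 * ((z n - y n) - (mean z - mean y)))]
  nlinarith

private lemma gmp_continuous_per {N : ℕ → ℕ} {p k : ℕ} [NeZero p] (hL : Lev N p k) :
    Continuous fun y : EE N p k => (⟨per y.1, per_mem hL y.2⟩ : XX N) := by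
  refine Continuous.subtype_mk (continuous_pi fun n => ?_) _
  exact (continuous_apply (n : ZMod p)).comp continuous_subtype_val

theorem exists_G {N : ℕ → ℕ} {p k : ℕ} [Fact p.Prime] (hL : Lev N p k) {d : XX N → XX N → ℝ}
    (hd : IsCompatibleMetric d) {g : XX N → ℝ} {L : ℝ} (hg : ∀ x y, |g x - g y| ≤ L * d x y)
    (hg0 : ∀ x, |g x - x.1 0| ≤ 1 / 100) :
    ∃ G : (ZMod p → ℝ) → ZMod p → ℝ, ContinuousOn G (EE N p k) ∧
      (∀ y ∈ EE N p k, G (sh y) = sh (G y)) ∧
      (∀ y ∈ EE N p k, ((3 : ℝ) / 100) ^ 2 * p ≤ vr (G y)) ∧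
      ∀ y ∈ EE N p k, ∀ x : XX N, x.1 = per y → ∀ n : ZMod p, G y n = g (vec n.val +ᵥ x) := by
  classical
  have hgc : Continuous g := gmp_continuous_g hd hg
  let G : (ZMod p → ℝ) → ZMod p → ℝ := fun y n =>
    if h : per y ∈ XX N then g (vec n.val +ᵥ ⟨per y, h⟩) else 0
  have hG : ∀ y (h : per y ∈ XX N) n, G y n = g (vec n.val +ᵥ ⟨per y, h⟩) := fun y h n => by
    simp only [G, dif_pos h]
  refine ⟨G, ?_, fun y hy => ?_, fun y hy => ?_, fun y hy x hx n => ?_⟩
  · rw [continuousOn_iff_continuous_domRestrict]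
    have h1 : (EE N p k).domRestrict G = fun y : EE N p k => fun n =>
        g (vec (n.val : ℤ) +ᵥ (⟨per y.1, per_mem hL y.2⟩ : XX N)) := by
      funext y n
      exact hG y.1 (per_mem hL y.2) n
    rw [h1]
    refine continuous_pi fun n => ?_
    exact hgc.comp ((continuous_const_vadd (vec (n.val : ℤ))).comp (gmp_continuous_per hL))
  · have h1 : per y ∈ XX N := per_mem hL hy
    have h2 : per (sh y) = tr 1 (per y) := by
      funext n
      simp [per, sh, tr]
    have h3 : per (sh y) ∈ XX N := by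
      rw [h2]
      exact tr_mem h1 1
    funext n
    rw [hG _ h3]
    change _ = G y (n + 1)
    rw [hG _ h1]
    congr 1
    refine Subtype.ext ?_
    funext m
    rw [vadd_apply, vadd_apply]
    simp only [per, sh, vec]
    congr 1
    push_cast
    rw [ZMod.natCast_zmod_val, ZMod.natCast_zmod_val]
    ring
  · refine gmp_vr_ge hy.2.1 fun n => ?_
    have h1 : per y ∈ XX N := per_mem hL hy
    rw [hG _ h1]
    have h2 := hg0 (vec n.val +ᵥ (⟨per y, h1⟩ : XX N))
    rw [vadd_apply] at h2
    have h3 : (⟨per y, h1⟩ : XX N).1 (0 + vec (n.val : ℤ) 0) = y n := by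
      simp [per, vec]
    rw [h3] at h2
    exact h2
  · have h1 : per y ∈ XX N := per_mem hL hy
    rw [hG _ h1]
    have h2 : x = ⟨per y, h1⟩ := Subtype.ext hx
    rw [h2]

end Pool.Agent.MDX
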