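import Pool.Agent.MDX.FTA

/-! # The sparse vectors which turn with the phase: basic rules

PROOFS. `kap ξ z n = max 0 ((z * stdAddChar (ξ * n)).re - ‖z‖ * cos (2 π / p))`.
`kap_turn` : `stdAddChar ξ * z * stdAddChar (ξ * n) = z * stdAddChar (ξ * (n + 1))` and the norm of
`stdAddChar ξ` is `1` (`norm_std`).
-/

open Set Filter Topology

namespace Pool.Agent.MDX

open Pool.Agent.MMD

variable {p : ℕ} [Fact p.Prime]

lemma kap_nonneg (ξ : ZMod p) (z : ℂ) (n : ZMod p) : 0 ≤ kap ξ z n := le_max_left _ _

lemma continuous_kap (ξ n : ZMod p) : Continuous fun z => kap ξ z n := by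
  unfold kap
  refine continuous_const.max ?_
  exact (Complex.continuous_re.comp (continuous_id.mul continuous_const)).sub
    (continuous_norm.mul continuous_const)

lemma kap_turn (ξ : ZMod p) (z : ℂ) (n : ZMod p) :
    kap ξ (ZMod.stdAddChar ξ * z) n = kap ξ z (n + 1) := by
  unfold kap
  have h : ZMod.stdAddChar ξ * z * ZMod.stdAddChar (ξ * n) =
      z * ZMod.stdAddChar (ξ * (n + 1)) := by
    rw [mul_add, mul_one, AddChar.map_add_eq_mul]
    ring
  rw [h, norm_mul, norm_std, one_mul]

end Pool.Agent.MDX
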