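import Pool.Agent.MDX.Defs

/-! # The Kuhn triangulation of a cube

PROOF. For `c : I → ℝ` let `A c V = {t ∈ [0, 1) | ∀ i, i ∈ V ↔ t < c i}`, so for `V : Finset I` this is the
interval from `max (0, max_{i ∉ V} c i)` (included) to `min (1, min_{i ∈ V} c i)` (excluded). Let
`f c V` be its length, `f c V = max 0 (min_{i ∈ V} .. - max_{i ∉ V} ..)` (with `Finset.inf'`, `Finset.sup'`
over `insert`, or `Finset.fold`; or define `f c V` as the volume of `A c V` and show the formula), a
continuous function of `c`, `≥ 0`. The sets `A c V` for the different `V` partition `[0, 1)`, so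
`∑ V, f c V = 1` (`MeasureTheory.measure_biUnion_finset` with `Real.volume_Ico`). For `c i ∈ [0, 1]` the union of the sets
`A c V` over the `V` with `i ∈ V` is `[0, c i)`, so `∑_{V ∋ i} f c V = c i`.
The support: if `f c V ≠ 0` then `V = V t := {i | t < c i}` for some `t ∈ [0, 1)`. Let
`Q = {i | c i ≠ 0 ∧ c i ≠ 1}`. The map `V ↦ (V ∩ Q).card`, with values in `{0, …, Q.card}`, is
injective on these sets: `V t ⊆ V s` for `s ≤ t`, so if the numbers agree then `V t ∩ Q = V s ∩ Q`, and off
`Q` both sets consist of the `i` with `c i = 1`. So there are at most `Q.card + 1` of them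
(`Finset.card_le_card_of_injOn` into `Finset.range (Q.card + 1)`).
-/

open Set Filter Topology

namespace Pool.Agent.MDX

open Pool.Agent.MMD

private noncomputable def khi {I : Type} (c : I → ℝ) (V : Finset I) : ℝ := V.fold min 1 c

private noncomputable def klo {I : Type} (c : I → ℝ) (V : Finset I) : ℝ := V.fold max 0 c

private lemma khi_cont {I : Type} [DecidableEq I] (V : Finset I) :
    Continuous fun c : I → ℝ => khi c V := by
  unfold khi
  induction V using Finset.induction_on with
  | empty => simpa using continuous_const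
  | insert a s ha ih =>
    have : (fun c : I → ℝ => (insert a s).fold min 1 c) = fun c => min (c a) (s.fold min 1 c) := by
      funext c
      rw [Finset.fold_insert ha]
    rw [this]
    exact (continuous_apply a).min ih

private lemma klo_cont {I : Type} [DecidableEq I] (V : Finset I) :
    Continuous fun c : I → ℝ => klo c V := by
  unfold klo
  induction V using Finset.induction_on with
  | empty => simpa using continuous_const
  | insert a s ha ih =>
    have : (fun c : I → ℝ => (insert a s).fold max 0 c) = fun c => max (c a) (s.fold max 0 c) := by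
      funext c
      rw [Finset.fold_insert ha]
    rw [this]
    exact (continuous_apply a).max ih

private noncomputable def kf {I : Type} [Fintype I] [DecidableEq I] (c : I → ℝ) (V : Finset I) : ℝ :=
  max 0 (khi c V - klo c Vᶜ)

private def kA {I : Type} [Fintype I] [DecidableEq I] (c : I → ℝ) (V : Finset I) : Set ℝ :=
  Ico (klo c Vᶜ) (khi c V)

private lemma mem_kA {I : Type} [Fintype I] [DecidableEq I] (c : I → ℝ) (V : Finset I) (t : ℝ) :
    t ∈ kA c V ↔ (0 ≤ t ∧ t < 1) ∧ ∀ i, i ∈ V ↔ t < c i := by
  unfold kA khi klo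
  rw [mem_Ico, Finset.fold_max_le, Finset.lt_fold_min]
  constructor
  · rintro ⟨⟨h0, h1⟩, h2, h3⟩
    refine ⟨⟨h0, h2⟩, fun i => ⟨h3 i, fun hi => ?_⟩⟩
    by_contra hV
    exact absurd (h1 i (Finset.mem_compl.2 hV)) (not_le.2 hi)
  · rintro ⟨⟨h0, h2⟩, h⟩
    exact ⟨⟨h0, fun i hi => not_lt.1 fun h' => (Finset.mem_compl.1 hi) ((h i).2 h')⟩, h2,
      fun i hi => (h i).1 hi⟩

private lemma kf_eq {I : Type} [Fintype I] [DecidableEq I] (c : I → ℝ) (V : Finset I) :
    kf c V = MeasureTheory.volume.real (kA c V) := by
  unfold kf kA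
  rw [Real.volume_real_Ico, max_comm]

private lemma kA_disj {I : Type} [Fintype I] [DecidableEq I] (c : I → ℝ) {V W : Finset I}
    (h : V ≠ W) : Disjoint (kA c V) (kA c W) := by
  rw [Set.disjoint_left]
  intro t hV hW
  rw [mem_kA] at hV hW
  exact h (Finset.ext fun i => (hV.2 i).trans (hW.2 i).symm)

private lemma kf_sum {I : Type} [Fintype I] [DecidableEq I] (c : I → ℝ) (F : Finset (Finset I)) :
    ∑ V ∈ F, kf c V = MeasureTheory.volume.real (⋃ V ∈ F, kA c V) := by
  rw [MeasureTheory.measureReal_biUnion_finset (fun V _ W _ h => kA_disj c h)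
    (fun V _ => measurableSet_Ico) (fun V _ => by
      unfold kA
      rw [Real.volume_Ico]
      exact ENNReal.ofReal_ne_top)]
  exact Finset.sum_congr rfl fun V _ => kf_eq c V

theorem kuhn (I : Type) [Fintype I] [DecidableEq I] : ∃ f : (I → ℝ) → Finset I → ℝ,
    Continuous f ∧ ∀ c : I → ℝ, (∀ i, c i ∈ Icc (0 : ℝ) 1) →
      (∀ V, 0 ≤ f c V) ∧ ∑ V, f c V = 1 ∧
      (Finset.univ.filter fun V => f c V ≠ 0).card ≤
        (Finset.univ.filter fun i => c i ≠ 0 ∧ c i ≠ 1).card + 1 ∧
      ∀ i, c i = ∑ V ∈ Finset.univ.filter (fun V : Finset I => i ∈ V), f c V := by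
  refine ⟨kf, ?_, fun c hc => ⟨fun V => le_max_left _ _, ?_, ?_, ?_⟩⟩
  · refine continuous_pi fun V => ?_
    exact continuous_const.max ((khi_cont V).sub (klo_cont Vᶜ))
  · rw [kf_sum]
    have : (⋃ V ∈ (Finset.univ : Finset (Finset I)), kA c V) = Ico (0 : ℝ) 1 := by
      ext t
      simp only [Finset.mem_univ, iUnion_true, mem_iUnion, mem_kA, mem_Ico]
      constructor
      · rintro ⟨V, h, _⟩
        exact h
      · intro h
        exact ⟨Finset.univ.filter fun i => t < c i, h, fun i => by simp⟩
    rw [this, Real.volume_real_Ico]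
    norm_num
  · set Q : Finset I := Finset.univ.filter fun i => c i ≠ 0 ∧ c i ≠ 1 with hQ
    have key : ∀ V : Finset I, kf c V ≠ 0 → ∃ t : ℝ, (0 ≤ t ∧ t < 1) ∧ ∀ i, i ∈ V ↔ t < c i := by
      intro V hV
      have hlt : klo c Vᶜ < khi c V := by
        by_contra h
        apply hV
        unfold kf
        rw [max_eq_left]
        linarith [not_lt.1 h]
      exact ⟨klo c Vᶜ, (mem_kA c V _).1 ⟨le_refl _, hlt⟩⟩
    have hcard : (Finset.univ.filter fun V => kf c V ≠ 0).card ≤ (Finset.range (Q.card + 1)).card := by
      refine Finset.card_le_card_of_injOn (fun V => (V ∩ Q).card) ?_ ?_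
      · intro V _
        simp only [Finset.coe_range, mem_Iio]
        exact Nat.lt_succ_of_le (Finset.card_le_card Finset.inter_subset_right)
      · intro V hV W hW hVW
        simp only [Finset.coe_filter, Finset.mem_univ, true_and, mem_ofPred_eq] at hV hW
        obtain ⟨t, ht, hVt⟩ := key V hV
        obtain ⟨s, hs, hWs⟩ := key W hW
        have hVW' : (V ∩ Q).card = (W ∩ Q).card := hVW
        have hint : V ∩ Q = W ∩ Q := by
          rcases le_total t s with h | h
          · have hsub : W ∩ Q ⊆ V ∩ Q := by
              intro i hi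
              rw [Finset.mem_inter] at hi ⊢
              exact ⟨(hVt i).2 (lt_of_le_of_lt h ((hWs i).1 hi.1)), hi.2⟩
            exact (Finset.eq_of_subset_of_card_le hsub (le_of_eq hVW')).symm
          · have hsub : V ∩ Q ⊆ W ∩ Q := by
              intro i hi
              rw [Finset.mem_inter] at hi ⊢
              exact ⟨(hWs i).2 (lt_of_le_of_lt h ((hVt i).1 hi.1)), hi.2⟩
            exact Finset.eq_of_subset_of_card_le hsub (le_of_eq hVW'.symm)
        ext i
        by_cases hi : i ∈ Q
        · have := Finset.ext_iff.1 hint i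
          simpa [Finset.mem_inter, hi] using this
        · have hi' : c i = 0 ∨ c i = 1 := by
            by_contra hcon
            rw [not_or] at hcon
            exact hi (by rw [hQ]; simpa using hcon)
          rw [hVt i, hWs i]
          rcases hi' with h | h
          · rw [h]
            constructor <;> intro h' <;> linarith [ht.1, hs.1]
          · rw [h]
            constructor <;> intro _
            · exact hs.2
            · exact ht.2
    rwa [Finset.card_range] at hcard
  · intro i
    rw [kf_sum]
    have : (⋃ V ∈ Finset.univ.filter (fun V : Finset I => i ∈ V), kA c V) = Ico (0 : ℝ) (c i) := by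
      ext t
      simp only [Finset.mem_filter, Finset.mem_univ, true_and, mem_iUnion, mem_kA, mem_Ico,
        exists_prop]
      constructor
      · rintro ⟨V, hiV, h, hV⟩
        exact ⟨h.1, (hV i).1 hiV⟩
      · rintro ⟨h0, h1⟩
        exact ⟨Finset.univ.filter fun j => t < c j, by simpa using h1,
          ⟨h0, lt_of_lt_of_le h1 (hc i).2⟩, fun j => by simp⟩
    rw [this, Real.volume_real_Ico, sub_zero, max_eq_left (hc i).1]

end Pool.Agent.MDX
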