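import Pool.Agent.MDX.Defs

/-! # Lipschitz approximation

PROOF. `d` is continuous (`IsCompatibleMetric.continuous`) and `hd.metricSpace` is a metric space
structure with the given topology and distance `d`. `f` is uniformly continuous: there is `ρ > 0` with
`|f x - f y| < η` whenever `d x y < ρ` (`exists_near` of `Pool.Agent.MMD.Metric` applied to
`fun x y => |f x - f y|`). Let `L = 1 / ρ` and `g x = ⨅ y, (f y + L * d x y)`; the infimum is
over a non-empty set bounded below by `0` (if `X` is empty take `g = 0`, `L = 1`). As an infimum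
of `L`-Lipschitz functions `g` is `L`-Lipschitz for `d`. `g x ≤ f x` (take `y = x`). And
`g x ≥ f x - η`: if `d x y < ρ` then `f y ≥ f x - η`; otherwise `f y + L * d x y ≥ 0 + 1 ≥ f x`.
-/

open Set Filter Topology

namespace Pool.Agent.MDX

open Pool.Agent.MMD

theorem exists_lipschitz {X : Type} [TopologicalSpace X] [CompactSpace X] {d : X → X → ℝ}
    (hd : IsCompatibleMetric d) (f : X → ℝ) (hf : Continuous f) (h01 : ∀ x, f x ∈ Icc (0 : ℝ) 1)
    {η : ℝ} (hη : 0 < η) : ∃ (g : X → ℝ) (L : ℝ), 0 < L ∧ (∀ x y, |g x - g y| ≤ L * d x y) ∧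
      ∀ x, |g x - f x| ≤ η := by
  have hnn : ∀ x y, 0 ≤ d x y := fun x y => by
    have h1 := hd.dist_triangle x y x
    rw [hd.dist_self, hd.dist_comm y x] at h1
    linarith
  obtain ⟨ρ, hρ, hnear⟩ := exists_near hd (ρ := fun x y => |f x - f y|)
    (((hf.comp continuous_fst).sub (hf.comp continuous_snd)).abs) (fun x => by simp) hη
  have hL : 0 < 1 / ρ := by positivity
  have hbdd : ∀ x, BddBelow (range fun y => f y + 1 / ρ * d x y) := fun x =>
    ⟨0, by
      rintro _ ⟨y, rfl⟩
      exact add_nonneg (h01 y).1 (mul_nonneg hL.le (hnn x y))⟩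
  have key : ∀ x y, (⨅ z, (f z + 1 / ρ * d x z)) ≤ (⨅ z, (f z + 1 / ρ * d y z)) + 1 / ρ * d x y := by
    intro x y
    have : Nonempty X := ⟨x⟩
    rw [← sub_le_iff_le_add]
    refine le_ciInf fun z => ?_
    have h1 : (⨅ z, (f z + 1 / ρ * d x z)) ≤ f z + 1 / ρ * d x z := ciInf_le (hbdd x) z
    have h2 : 1 / ρ * d x z ≤ 1 / ρ * (d x y + d y z) :=
      mul_le_mul_of_nonneg_left (hd.dist_triangle x y z) hL.le
    linarith
  refine ⟨fun x => ⨅ y, (f y + 1 / ρ * d x y), 1 / ρ, hL, fun x y => ?_, fun x => ?_⟩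
  · rw [abs_le]
    have h1 := key x y
    have h2 := key y x
    rw [hd.dist_comm y x] at h2
    constructor <;> linarith
  · have : Nonempty X := ⟨x⟩
    have h1 : (⨅ y, (f y + 1 / ρ * d x y)) ≤ f x := by
      have h := ciInf_le (hbdd x) x
      simp only [hd.dist_self, mul_zero, add_zero] at h
      exact h
    have h2 : f x - η ≤ ⨅ y, (f y + 1 / ρ * d x y) := by
      refine le_ciInf fun y => ?_
      by_cases hxy : d x y < ρ
      · have h3 := hnear x y hxy
        have h4 := le_abs_self (f x - f y)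
        have h5 : 0 ≤ 1 / ρ * d x y := mul_nonneg hL.le (hnn x y)
        linarith
      · push Not at hxy
        have h3 : 1 ≤ 1 / ρ * d x y := by
          have h4 : 1 / ρ * ρ ≤ 1 / ρ * d x y := mul_le_mul_of_nonneg_left hxy hL.le
          rwa [one_div_mul_cancel hρ.ne'] at h4
        have h4 := (h01 y).1
        have h5 := (h01 x).2
        linarith
    rw [abs_le]
    constructor <;> linarith

end Pool.Agent.MDX
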