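import Pool.Agent.MDX.Defs

/-! # The lower bound for the metric mean dimension from a lower bound for the rates

PROOF. For all small `ε > 0` we have `log (1/ε) > 0` and
`coverRate 1 d ε / log (1/ε) ≥ (3/25 log (1/ε) - C) / log (1/ε) = 3/25 - C / log (1/ε) ≥ 1/10` as soon as
`C / log (1/ε) ≤ 1/50`, which holds for all small `ε` since `log (1/ε) → ∞`. Division by a positive real
is monotone in `EReal` (`EReal.div_le_div_right_of_nonneg`), and the quotient of two coerced reals is the coerced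
quotient (`EReal.coe_div`). Then `Filter.le_liminf_of_le`.
-/

open Set Filter Topology

namespace Pool.Agent.MDX

open Pool.Agent.MMD

theorem mmdim_ge {X : Type} [TopologicalSpace X] [AddAction (Fin 1 → ℤ) X] {d : X → X → ℝ} {C : ℝ}
    (h : ∀ᶠ ε in 𝓝[>] (0 : ℝ), ((3 / 25 * Real.log (1 / ε) - C : ℝ) : EReal) ≤ coverRate 1 d ε) :
    ((1 / 10 : ℝ) : EReal) ≤ mmdim 1 d := by
  unfold mmdim
  have hL : Tendsto (fun ε : ℝ => Real.log (1 / ε)) (𝓝[>] 0) atTop := by
    have h1 : Tendsto (fun ε : ℝ => - Real.log ε) (𝓝[>] 0) atTop :=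
      tendsto_neg_atBot_atTop.comp Real.tendsto_log_nhdsGT_zero
    refine h1.congr fun ε => ?_
    rw [one_div, Real.log_inv]
  refine Filter.le_liminf_of_le (by isBoundedDefault) ?_
  filter_upwards [h, hL.eventually_ge_atTop (max 1 (50 * C))] with ε h1 h2
  have h3 : 1 ≤ Real.log (1 / ε) := le_trans (le_max_left _ _) h2
  have h4 : 50 * C ≤ Real.log (1 / ε) := le_trans (le_max_right _ _) h2
  generalize Real.log (1 / ε) = L at h1 h3 h4 ⊢
  rw [EReal.le_div_iff_mul_le (by exact_mod_cast (by linarith : (0 : ℝ) < L)) (EReal.coe_ne_top _)]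
  refine le_trans ?_ h1
  rw [← EReal.coe_mul]
  exact_mod_cast (by linarith : 1 / 10 * L ≤ 3 / 25 * L - C)

end Pool.Agent.MDX
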