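import Pool.Agent.MDX.Defs

/-! # Nets and maximal separated sets

PROOFS.
`exists_net` : to `y ∈ A` assign its cell `κ y : ZMod p → Fin (k + 2)`, `κ y n = ⌊(k + 1) * y n⌋₊`
(at most `k + 1` as `y n ≤ 1`). Two elements of the same cell satisfy `|y n - z n| ≤ 1 / (k + 1)` for all
`n`. Choose one element of `A` from every cell which meets `A`; there are at most
`(k + 2) ^ p` cells.
`exists_maximal` : a subset `S` of `F` of maximal cardinality among the subsets whose elements are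
mutually not near (`Finset.exists_max_image` on `F.powerset.filter ..`, non-empty because of `∅`); if
`a ∈ F` is not near any element of `S` then `insert a S` is larger, a contradiction.
-/

open Set Filter Topology

namespace Pool.Agent.MDX

open Pool.Agent.MMD

theorem exists_net {p : ℕ} [NeZero p] (A : Set (ZMod p → ℝ))
    (hA : ∀ y ∈ A, ∀ n, y n ∈ Icc (0 : ℝ) 1) (k : ℕ) :
    ∃ F : Finset (ZMod p → ℝ), (∀ y ∈ F, y ∈ A) ∧ F.card ≤ (k + 2) ^ p ∧
      ∀ y ∈ A, ∃ z ∈ F, ∀ n, |y n - z n| ≤ 1 / (k + 1) := by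
  classical
  let κ : (ZMod p → ℝ) → (ZMod p → Fin (k + 2)) := fun y n => Fin.ofNat (k + 2) ⌊(k + 1) * y n⌋₊
  have hκ : ∀ y ∈ A, ∀ n, ((κ y n : ℕ)) = ⌊(k + 1) * y n⌋₊ := by
    intro y hy n
    have h1 : ⌊((k : ℝ) + 1) * y n⌋₊ < k + 2 := by
      rw [Nat.floor_lt' (by omega)]
      have := (hA y hy n).2
      push_cast
      nlinarith
    simp only [κ, Fin.ofNat]
    exact Nat.mod_eq_of_lt h1
  let rep : (ZMod p → Fin (k + 2)) → (ZMod p → ℝ) := fun c =>
    if h : ∃ y ∈ A, κ y = c then h.choose else 0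
  have hrep : ∀ y ∈ A, rep (κ y) ∈ A ∧ κ (rep (κ y)) = κ y := by
    intro y hy
    have h : ∃ z ∈ A, κ z = κ y := ⟨y, hy, rfl⟩
    simp only [rep, dif_pos h]
    exact h.choose_spec
  let F : Finset (ZMod p → ℝ) :=
    (Finset.univ.filter fun c : ZMod p → Fin (k + 2) => ∃ y ∈ A, κ y = c).image rep
  refine ⟨F, ?_, ?_, ?_⟩
  · intro z hz
    obtain ⟨c, hc, rfl⟩ := Finset.mem_image.mp hz
    obtain ⟨y, hy, rfl⟩ := (Finset.mem_filter.mp hc).2
    exact (hrep y hy).1
  · calc F.card ≤ _ := Finset.card_image_le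
      _ ≤ _ := Finset.card_filter_le _ _
      _ = (k + 2) ^ p := by simp [Finset.card_univ]
  · intro y hy
    refine ⟨rep (κ y), Finset.mem_image_of_mem _ (Finset.mem_filter.mpr
      ⟨Finset.mem_univ _, y, hy, rfl⟩), ?_⟩
    intro n
    obtain ⟨hz, hzκ⟩ := hrep y hy
    set z := rep (κ y)
    have h1 := hκ y hy n
    have h2 := hκ z hz n
    rw [hzκ] at h2
    have h3 : ⌊((k : ℝ) + 1) * y n⌋₊ = ⌊((k : ℝ) + 1) * z n⌋₊ := by rw [← h1, ← h2]
    have hk : (0 : ℝ) < (k : ℝ) + 1 := by positivity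
    have h4 := Nat.floor_le (mul_nonneg hk.le (hA y hy n).1)
    have h5 := Nat.floor_le (mul_nonneg hk.le (hA z hz n).1)
    have h6 := Nat.lt_floor_add_one (((k : ℝ) + 1) * y n)
    have h7 := Nat.lt_floor_add_one (((k : ℝ) + 1) * z n)
    rw [h3] at h4 h6
    rw [le_div_iff₀ hk, ← abs_of_pos hk, ← abs_mul, abs_le]
    constructor <;> nlinarith

theorem exists_maximal {α : Type*} (F : Finset α) (near : α → α → Prop) (hrefl : ∀ a, near a a)
    (hsymm : ∀ a b, near a b → near b a) :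
    ∃ S ⊆ F, (∀ a ∈ S, ∀ b ∈ S, a ≠ b → ¬ near a b) ∧ ∀ a ∈ F, ∃ b ∈ S, near a b := by
  classical
  let P : Finset α → Prop := fun S => ∀ a ∈ S, ∀ b ∈ S, a ≠ b → ¬ near a b
  obtain ⟨S, hS, hmax⟩ := Finset.exists_max_image (F.powerset.filter P) Finset.card
    ⟨∅, by simp [P]⟩
  rw [Finset.mem_filter, Finset.mem_powerset] at hS
  refine ⟨S, hS.1, hS.2, ?_⟩
  intro a ha
  by_contra hcon
  push Not at hcon
  have haS : a ∉ S := fun h => hcon a h (hrefl a)
  have h1 := hmax (insert a S) (by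
    rw [Finset.mem_filter, Finset.mem_powerset]
    refine ⟨Finset.insert_subset ha hS.1, ?_⟩
    intro b hb c hc hbc
    rcases Finset.mem_insert.mp hb with hb1 | hb1
    · rcases Finset.mem_insert.mp hc with hc1 | hc1
      · exact absurd (hb1.trans hc1.symm) hbc
      · rw [hb1]
        exact hcon c hc1
    · rcases Finset.mem_insert.mp hc with hc1 | hc1
      · rw [hc1]
        exact fun h => hcon b hb1 (hsymm _ _ h)
      · exact hS.2 b hb1 c hc1 hbc)
  rw [Finset.card_insert_of_notMem haS] at h1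
  omega

end Pool.Agent.MDX
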