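import Pool.Agent.MDX.Defs

/-! # Numerical estimates

PROOFS.
`log_bound` : taking logarithms, `(p/4) log Q ≤ log s + ((p-1)/2) log 2` with the natural divisions,
`(p/4 : ℕ) ≥ (p - 3) / 4`, `((p-1)/2 : ℕ) ≤ p / 2`, `log 2 ≤ 0.7` (`Real.log_two_lt_d9`), `log Q ≥ 0`; note that
`s ≥ 1` by `h` (`Q ^ _ ≥ 1`). So `log s / (2 p) ≥ (1/8 - 3/(8 p)) log Q - (log 2) / 4 ≥ (3/25) log Q - 1`
as `3/(8 p) ≤ 3/8000` and `1/8 - 3/8000 ≥ 3/25`.
`floor_log` : with `x = a / ε ≥ 1` we have `⌊x⌋₊ ≥ x / 2`, so `log ⌊x⌋₊ ≥ log (1/ε) + log (a / 2)`.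
-/

open Set Filter Topology

namespace Pool.Agent.MDX

open Pool.Agent.MMD

theorem log_bound {p Q s : ℕ} (hp : 1000 ≤ p) (hQ : 1 ≤ Q)
    (h : Q ^ (p / 4) ≤ s * 2 ^ ((p - 1) / 2)) :
    3 / 25 * Real.log Q - 1 ≤ Real.log s / (2 * p) := by
  have hs : 1 ≤ s := by
    rcases Nat.eq_zero_or_pos s with h0 | h0
    · rw [h0, zero_mul] at h
      have := Nat.one_le_pow (p / 4) Q hQ
      omega
    · exact h0
  have hQ' : (1 : ℝ) ≤ Q := by exact_mod_cast hQ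
  have hs' : (1 : ℝ) ≤ s := by exact_mod_cast hs
  have hp' : (1000 : ℝ) ≤ p := by exact_mod_cast hp
  have hlQ : 0 ≤ Real.log Q := Real.log_nonneg hQ'
  have h1 : Real.log ((Q : ℝ) ^ (p / 4)) ≤ Real.log ((s : ℝ) * 2 ^ ((p - 1) / 2)) := by
    apply Real.log_le_log (by positivity)
    exact_mod_cast h
  rw [Real.log_pow, Real.log_mul (by positivity) (by positivity), Real.log_pow] at h1
  have h2 : ((p : ℝ) - 3) / 4 ≤ ((p / 4 : ℕ) : ℝ) := by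
    have : p ≤ 4 * (p / 4) + 3 := by omega
    have h3 : (p : ℝ) ≤ 4 * ((p / 4 : ℕ) : ℝ) + 3 := by exact_mod_cast this
    linarith
  have h4 : (((p - 1) / 2 : ℕ) : ℝ) ≤ (p : ℝ) / 2 := by
    have : 2 * ((p - 1) / 2) ≤ p := by omega
    have h5 : 2 * (((p - 1) / 2 : ℕ) : ℝ) ≤ (p : ℝ) := by exact_mod_cast this
    linarith
  have hl2 : Real.log 2 ≤ 7 / 10 := by
    have := Real.log_two_lt_d9
    linarith
  have hl20 : 0 ≤ Real.log 2 := Real.log_nonneg (by norm_num)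
  have h6 : ((p : ℝ) - 3) / 4 * Real.log Q ≤ Real.log s + p / 2 * Real.log 2 := by
    calc ((p : ℝ) - 3) / 4 * Real.log Q ≤ ((p / 4 : ℕ) : ℝ) * Real.log Q :=
          mul_le_mul_of_nonneg_right h2 hlQ
      _ ≤ _ := h1
      _ ≤ _ := by
          have := mul_le_mul_of_nonneg_right h4 hl20
          linarith
  rw [le_div_iff₀ (by positivity)]
  have h7 : (p : ℝ) / 2 * Real.log 2 ≤ p / 2 * (7 / 10) :=
    mul_le_mul_of_nonneg_left hl2 (by positivity)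
  have h8 : (1000 : ℝ) * Real.log Q ≤ p * Real.log Q := mul_le_mul_of_nonneg_right hp' hlQ
  nlinarith

theorem floor_log {a ε : ℝ} (ha : 0 < a) (hε : 0 < ε) (h : ε ≤ a) :
    1 ≤ ⌊a / ε⌋₊ ∧ Real.log (1 / ε) + Real.log (a / 2) ≤ Real.log ⌊a / ε⌋₊ := by
  have hx : 1 ≤ a / ε := by rwa [le_div_iff₀ hε, one_mul]
  have h1 : 1 ≤ ⌊a / ε⌋₊ := by
    rw [Nat.le_floor_iff (by positivity)]
    exact_mod_cast hx
  refine ⟨h1, ?_⟩
  have h1' : (1 : ℝ) ≤ ⌊a / ε⌋₊ := by exact_mod_cast h1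
  have h2 : a / ε < ⌊a / ε⌋₊ + 1 := Nat.lt_floor_add_one _
  rw [← Real.log_mul (by positivity) (by positivity)]
  apply Real.log_le_log (by positivity)
  have : 1 / ε * (a / 2) = (a / ε) / 2 := by ring
  rw [this]
  linarith

end Pool.Agent.MDX
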