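import Pool.Agent.MDX.Defs

/-! # From the covering numbers to the rate

PROOF. For `R ≥ 1` the term of the sequence in `coverRate` with the index `2 * p * R` is
`log (coverNum ..) / (2 p R) ^ 1 ≥ log (s ^ R) / (2 p R) = log s / (2 p)` (`Real.log_le_log`, `1 ≤ s`).
So the terms are frequently at least `log s / (2 p)` (the indices `2 p R` are unbounded,
`Filter.frequently_atTop`), and `Filter.le_limsup_of_frequently_le` in the complete lattice `EReal`.
-/

open Set Filter Topology

namespace Pool.Agent.MDX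

open Pool.Agent.MMD

theorem coverRate_ge {X : Type} [TopologicalSpace X] [AddAction (Fin 1 → ℤ) X] {d : X → X → ℝ}
    {ε : ℝ} {p s : ℕ} (hp : 0 < p) (hs : 1 ≤ s) (h : ∀ R, s ^ R ≤ coverNum 1 d (2 * p * R) ε) :
    ((Real.log s / (2 * p) : ℝ) : EReal) ≤ coverRate 1 d ε := by
  unfold coverRate
  refine Filter.le_limsup_of_frequently_le' ?_
  rw [Filter.frequently_atTop]
  intro a
  refine ⟨2 * p * (a + 1), ?_, ?_⟩
  · nlinarith
  · rw [EReal.coe_le_coe_iff]
    have hp' : (0 : ℝ) < p := by exact_mod_cast hp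
    have hs' : (1 : ℝ) ≤ s := by exact_mod_cast hs
    have ha : (0 : ℝ) < (a : ℝ) + 1 := by positivity
    have h1 : Real.log ((s : ℝ) ^ (a + 1)) ≤ Real.log (coverNum 1 d (2 * p * (a + 1)) ε) := by
      apply Real.log_le_log (by positivity)
      exact_mod_cast h (a + 1)
    rw [Real.log_pow] at h1
    rw [pow_one]
    push_cast at h1 ⊢
    rw [div_le_div_iff₀ (by positivity) (by positivity)]
    nlinarith [mul_le_mul_of_nonneg_right h1 (by positivity : (0 : ℝ) ≤ 2 * p)]

end Pool.Agent.MDX
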