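import Pool.Agent.MDX.SOF

/-! # The system is a compact metrizable system

PROOFS.
`isClosed_XX` : intersection of closed conditions, `continuous_soft`, `continuous_apply`.
`isCompact_XX` : closed subset of `Set.pi univ fun _ => Icc 0 1` (`isCompact_univ_pi`).
The action is continuous: every coordinate of `g +ᵥ x` is a coordinate of `x`.
Metrizable: subspace of `ℤ → ℝ`, which is regular and second countable
(`metrizableSpace_of_t3_secondCountable`; perhaps found by `inferInstance`).
-/

open Set Filter Topology

namespace Pool.Agent.MDX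

open Pool.Agent.MMD

private lemma continuous_cnt (N q : ℕ) (n : ℤ) : Continuous fun x : ℤ → ℝ => cnt N q x n := by
  unfold cnt
  exact continuous_finsetSum _ fun i _ => (continuous_soft N q i).comp (continuous_apply _)

lemma isClosed_XX (N : ℕ → ℕ) : IsClosed (XX N) := by
  have h : XX N = (⋂ n : ℤ, {x : ℤ → ℝ | x n ∈ Icc (0 : ℝ) 1}) ∩
      ⋂ (j : ℕ), ⋂ (n : ℤ), {x : ℤ → ℝ | cnt (N j) (j + 1) x n ≤ N j / (j + 1)} := by
    ext x
    simp only [XX, mem_ofPred_eq, mem_inter_iff, mem_iInter]
  rw [h]
  refine IsClosed.inter (isClosed_iInter fun n => ?_)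
    (isClosed_iInter fun j => isClosed_iInter fun n => ?_)
  · exact isClosed_Icc.preimage (continuous_apply n)
  · exact isClosed_le (continuous_cnt _ _ _) continuous_const

lemma isCompact_XX (N : ℕ → ℕ) : IsCompact (XX N) := by
  have h1 : IsCompact (Set.pi univ fun _ : ℤ => Icc (0 : ℝ) 1) :=
    isCompact_univ_pi fun _ => isCompact_Icc
  exact h1.of_isClosed_subset (isClosed_XX N) fun x hx n _ => hx.1 n

instance instCompactXX (N : ℕ → ℕ) : CompactSpace (XX N) := by
  exact isCompact_iff_compactSpace.mp (isCompact_XX N)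

instance instVaddXX (N : ℕ → ℕ) : ContinuousConstVAdd (Fin 1 → ℤ) (XX N) := by
  refine ⟨fun g => ?_⟩
  refine Continuous.subtype_mk (continuous_pi fun n => ?_) _
  exact (continuous_apply (n + g 0)).comp continuous_subtype_val

lemma metrizable_XX (N : ℕ → ℕ) : TopologicalSpace.MetrizableSpace (XX N) := by
  infer_instance

end Pool.Agent.MDX
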