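import Pool.Agent.MDX.CVN
import Pool.Agent.MDX.XTP

/-! # Free concatenation gives many separated points

PROOF. Let `𝒰` be the cover of `coverNum_spec` for `n = 2 * p * R`. For `v : Fin R → ι` let
`w v : ℤ → ι` extend `v` (`w v b = v b` for `0 ≤ b < R`, some fixed element otherwise; `ι` is not
empty) and let `x v` be the point `n ↦ (u (w v (n / (2 * p)))).1 n` of `XX N` (`hcat`). Choose `U v ∈ 𝒰`
with `x v ∈ U v`. The map `U` is injective, so `(card ι) ^ R ≤ 𝒰.ncard = coverNum`: let `v ≠ v'`,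
say `v b ≠ v' b`, `i = v b`, `i' = v' b`. By `hsep` there is `t` with
`4 ε ≤ d (vec t +ᵥ u i) (vec t +ᵥ u i')`. The points `u i`, `u i'` are `p`-periodic, so
`vec t +ᵥ u i = vec t' +ᵥ u i` if `t ≡ t'` mod `p`; so we may replace `t` by `T = 2 p b + t'` with
`W ≤ t' < W + p`, `t' ≡ t` mod `p` (`2 p b` is a multiple of `p`). For `|n| ≤ W` we have
`2 p b ≤ n + T < 2 p (b + 1)` (`t' - W ≥ 0`, `t' + W < 2 W + p ≤ 2 p`), so `x v (n + T) = u i (n + T)`:
`vec T +ᵥ x v` and `vec T +ᵥ u i` agree on `[-W, W]`, so their distance is less than `ε` by `hW`; the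
same for `v'`. So `d (vec T +ᵥ x v) (vec T +ᵥ x v') > 4 ε - 2 ε = 2 ε`. But `vec T ∈ box 1 (2 p R)`
(`0 ≤ T < 2 p (b + 1) ≤ 2 p R`), so if `U v = U v'` then this distance is less than `ε`, a
contradiction.
-/

open Set Filter Topology

namespace Pool.Agent.MDX

open Pool.Agent.MMD

private lemma swi_shift {N : ℕ → ℕ} {p : ℕ} {y : XX N} (hper : ∀ n, y.1 (n + p) = y.1 n)
    (t m : ℤ) : vec (t + m * p) +ᵥ y = vec t +ᵥ y := by
  apply Subtype.ext
  funext n
  rw [vadd_apply, vadd_apply]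
  have h : Function.Periodic y.1 (p : ℤ) := hper
  have := (h.int_mul m) (n + t)
  simpa [vec, add_assoc] using this

theorem switch {N : ℕ → ℕ} {d : XX N → XX N → ℝ} (hd : IsCompatibleMetric d) {ε : ℝ} (hε : 0 < ε)
    {W p : ℕ} (hW : ∀ x y : XX N, (∀ n : ℤ, |n| ≤ W → x.1 n = y.1 n) → d x y < ε) (hp : 0 < p)
    (hWp : 2 * W ≤ p) {ι : Type} [Fintype ι] [Nonempty ι] (u : ι → XX N)
    (hper : ∀ i n, (u i).1 (n + p) = (u i).1 n)
    (hcat : ∀ w : ℤ → ι, (fun n : ℤ => (u (w (n / (2 * p)))).1 n) ∈ XX N)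
    (hsep : ∀ i j, i ≠ j → ∃ t : ℤ, 4 * ε ≤ d (vec t +ᵥ u i) (vec t +ᵥ u j)) (R : ℕ) :
    (Fintype.card ι) ^ R ≤ coverNum 1 d (2 * p * R) ε := by
  classical
  obtain ⟨𝒰, hfin, hcard, hU, hcov⟩ := coverNum_spec (k := 1) hd (2 * p * R) hε
  have hp' : (0 : ℤ) < p := by exact_mod_cast hp
  have hWp' : 2 * (W : ℤ) ≤ p := by exact_mod_cast hWp
  let w : (Fin R → ι) → ℤ → ι := fun v b =>
    if h : 0 ≤ b ∧ b < R then v ⟨b.toNat, by omega⟩ else Classical.arbitrary ι
  have hw : ∀ (v : Fin R → ι) (b : Fin R), w v ((b : ℕ) : ℤ) = v b := by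
    intro v b
    have hb : 0 ≤ ((b : ℕ) : ℤ) ∧ ((b : ℕ) : ℤ) < R := ⟨by positivity, by exact_mod_cast b.2⟩
    simp only [w]
    rw [dif_pos hb]
    congr 1
  let x : (Fin R → ι) → XX N := fun v => ⟨fun n => (u (w v (n / (2 * p)))).1 n, hcat (w v)⟩
  have hchoice : ∀ v, ∃ U ∈ 𝒰, x v ∈ U := by
    intro v
    have : x v ∈ ⋃₀ 𝒰 := by rw [hcov]; exact mem_univ _
    exact mem_sUnion.1 this
  choose U hU𝒰 hxU using hchoice
  -- the distance between the concatenation and the building block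
  have hclose : ∀ (v : Fin R → ι) (b : Fin R) (t' : ℤ), (W : ℤ) ≤ t' → t' < W + p →
      d (vec (2 * p * (b : ℕ) + t') +ᵥ x v) (vec (2 * p * (b : ℕ) + t') +ᵥ u (v b)) < ε := by
    intro v b t' h1 h2
    apply hW
    intro n hn
    rw [vadd_apply, vadd_apply]
    have hn' := abs_le.1 hn
    have hdiv : (n + (2 * p * (b : ℕ) + t')) / (2 * p : ℤ) = ((b : ℕ) : ℤ) := by
      have h2p : (0 : ℤ) < 2 * p := by linarith
      apply le_antisymm
      · apply Int.le_of_lt_add_one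
        exact Int.ediv_lt_of_lt_mul h2p (by nlinarith)
      · exact Int.le_ediv_of_mul_le h2p (by nlinarith)
    change (u (w v ((n + (2 * p * (b : ℕ) + t')) / (2 * p)))).1 (n + (2 * p * (b : ℕ) + t')) = _
    rw [hdiv, hw]
    rfl
  have hinj : Function.Injective U := by
    intro v v' hvv
    by_contra hne
    obtain ⟨b, hb⟩ := Function.ne_iff.1 hne
    obtain ⟨t, ht⟩ := hsep (v b) (v' b) hb
    set t' : ℤ := W + (t - W) % p with ht'
    have h0 : 0 ≤ (t - W) % (p : ℤ) := Int.emod_nonneg _ hp'.ne'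
    have h1 : (t - W) % (p : ℤ) < p := Int.emod_lt_of_pos _ hp'
    set T : ℤ := 2 * p * (b : ℕ) + t' with hT
    have hTt : T = t + (2 * (b : ℕ) - (t - W) / p) * p := by
      have := Int.emod_add_mul_ediv (t - W) p
      rw [hT, ht']
      linarith
    have e1 : vec T +ᵥ u (v b) = vec t +ᵥ u (v b) := by
      rw [hTt]; exact swi_shift (hper _) _ _
    have e2 : vec T +ᵥ u (v' b) = vec t +ᵥ u (v' b) := by
      rw [hTt]; exact swi_shift (hper _) _ _
    rw [← e1, ← e2] at ht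
    have c1 := hclose v b t' (by linarith) (by linarith)
    have c2 := hclose v' b t' (by linarith) (by linarith)
    rw [← hT] at c1 c2
    obtain ⟨r, hr, hr'⟩ := (hU (U v) (hU𝒰 v)).2
    have hTbox : vec T ∈ box 1 (2 * p * R) := by
      rw [mem_box]
      intro _
      have hbR : ((b : ℕ) : ℤ) + 1 ≤ R := by exact_mod_cast b.2
      have hb0 : (0 : ℤ) ≤ ((b : ℕ) : ℤ) := by positivity
      have hT0 : 0 ≤ T := by
        rw [hT]
        have : 0 ≤ 2 * (p : ℤ) * ((b : ℕ) : ℤ) := by positivity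
        linarith
      have hT1 : T < 2 * p * R := by
        have : 2 * (p : ℤ) * (((b : ℕ) : ℤ) + 1) ≤ 2 * p * R := by
          apply mul_le_mul_of_nonneg_left hbR
          positivity
        rw [hT]
        nlinarith
      refine ⟨hT0, ?_⟩
      push_cast
      exact hT1
    have c3 := hr' (x v) (hxU v) (x v') (by rw [hvv]; exact hxU v') (vec T) hTbox
    have tri1 := hd.dist_triangle (vec T +ᵥ u (v b)) (vec T +ᵥ x v) (vec T +ᵥ u (v' b))
    have tri2 := hd.dist_triangle (vec T +ᵥ x v) (vec T +ᵥ x v') (vec T +ᵥ u (v' b))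
    have sym1 := hd.dist_comm (vec T +ᵥ u (v b)) (vec T +ᵥ x v)
    linarith
  rw [← hcard, Set.ncard_eq_toFinset_card 𝒰 hfin]
  have hle : (Finset.univ : Finset (Fin R → ι)).card ≤ hfin.toFinset.card := by
    apply Finset.card_le_card_of_injOn U
    · intro v _
      rw [Finset.mem_coe, Set.Finite.mem_toFinset]
      exact hU𝒰 v
    · intro v _ v' _ h
      exact hinj h
  simpa using hle

end Pool.Agent.MDX
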