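import Pool.Agent.MDX.MNY
import Pool.Agent.MDX.SWI
import Pool.Agent.MDX.RAT
import Pool.Agent.MDX.CAT
import Pool.Agent.MDX.NET
import Pool.Agent.MDX.AGR
import Pool.Agent.MDX.LIP
import Pool.Agent.MDX.NUM

/-! # The lower bound for the rates -/

open Set Filter Topology

namespace Pool.Agent.MDX

open Pool.Agent.MMD

theorem rate_ge {N : ℕ → ℕ} (hN : ∀ k, ∃ p, p.Prime ∧ k ≤ p ∧ Lev N p k)
    {d : XX N → XX N → ℝ} (hd : IsCompatibleMetric d) : ∃ C : ℝ, ∀ᶠ ε in 𝓝[>] (0 : ℝ),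
      ((3 / 25 * Real.log (1 / ε) - C : ℝ) : EReal) ≤ coverRate 1 d ε := by
  classical
  have hf : Continuous fun x : XX N => x.1 0 := (continuous_apply 0).comp continuous_subtype_val
  obtain ⟨g, L, hL0, hgL, hg0⟩ := exists_lipschitz hd (fun x => x.1 0) hf (fun x => x.2.1 0)
    (show (0 : ℝ) < 1 / 100 by norm_num)
  have ha : (0 : ℝ) < 3 / (64000 * L) := by positivity
  refine ⟨1 - 3 / 25 * Real.log (3 / (64000 * L) / 2), ?_⟩
  have hmem : Ioc (0 : ℝ) (3 / (64000 * L)) ∈ 𝓝[>] (0 : ℝ) := Ioc_mem_nhdsGT ha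
  filter_upwards [hmem] with ε hε
  obtain ⟨hε0, hεa⟩ := hε
  obtain ⟨hQ1, hQlog⟩ := floor_log ha hε0 hεa
  set Q := ⌊3 / (64000 * L) / ε⌋₊ with hQdef
  have hQ : 16 * (40 * L * ε) * (Q : ℝ) ≤ 3 / 100 := by
    have h1 : (Q : ℝ) ≤ 3 / (64000 * L) / ε := Nat.floor_le (by positivity)
    calc 16 * (40 * L * ε) * (Q : ℝ) ≤ 16 * (40 * L * ε) * (3 / (64000 * L) / ε) := by gcongr
      _ = 3 / 100 := by
        field_simp
        norm_num
  obtain ⟨W, s, hs0, hWs⟩ := exists_agree hd hε0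
  obtain ⟨k₀, hk₀⟩ := exists_nat_gt (1 / s)
  set k := max (2 * W) k₀ with hk
  have hks : (1 : ℝ) / (k + 1) ≤ s := by
    have h1 : 1 / s < (k : ℝ) + 1 := by
      have : (k₀ : ℝ) ≤ k := by exact_mod_cast le_max_right _ _
      linarith
    rw [div_le_iff₀ (by positivity)]
    rw [div_lt_iff₀ hs0] at h1
    linarith
  obtain ⟨p, hp, hkp, hL⟩ := hN k
  have : Fact p.Prime := ⟨hp⟩
  obtain ⟨F, hFE, hFc, hFn⟩ := exists_net (EE N p k) (fun y hy n => hy.1.1 n) k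
  let near : (ZMod p → ℝ) → (ZMod p → ℝ) → Prop := fun y z =>
    ∀ (hy : per y ∈ XX N) (hz : per z ∈ XX N) (t : ℤ),
      d (vec t +ᵥ ⟨per y, hy⟩) (vec t +ᵥ ⟨per z, hz⟩) < 4 * ε
  obtain ⟨S, hSF, hSsep, hSnet⟩ := exists_maximal F near
    (fun a hy hz t => by rw [hd.dist_self]; positivity)
    (fun a b h hy hz t => by rw [hd.dist_comm]; exact h hz hy t)
  let u : S → XX N := fun y => ⟨per y.1, per_mem hL (hFE _ (hSF y.2))⟩
  have hmany : Q ^ (p / 4) ≤ Fintype.card S * 2 ^ ((p - 1) / 2) := by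
    refine many_points hL hd hL0 hgL hg0 hε0 hQ u ?_
    rintro x ⟨y, hy, hxy⟩
    obtain ⟨z, hzF, hyz⟩ := hFn y hy
    obtain ⟨b, hbS, hzb⟩ := hSnet z hzF
    refine ⟨⟨b, hbS⟩, fun t => ?_⟩
    have hz : per z ∈ XX N := per_mem hL (hFE z hzF)
    have h1 : d (vec t +ᵥ x) (vec t +ᵥ (⟨per z, hz⟩ : XX N)) < ε := by
      refine hWs _ _ fun n _ => ?_
      rw [vadd_apply, vadd_apply, hxy]
      exact (hyz _).trans hks
    have h2 := hzb hz (per_mem hL (hFE _ (hSF hbS))) t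
    have h3 := hd.dist_triangle (vec t +ᵥ x) (vec t +ᵥ (⟨per z, hz⟩ : XX N))
      (vec t +ᵥ u ⟨b, hbS⟩)
    have h4 : d (vec t +ᵥ (⟨per z, hz⟩ : XX N)) (vec t +ᵥ u ⟨b, hbS⟩) < 4 * ε := h2
    linarith
  have hcard : 1 ≤ Fintype.card S := by
    rcases Nat.eq_zero_or_pos (Fintype.card S) with h | h
    · rw [h, zero_mul] at hmany
      have := Nat.one_le_pow (p / 4) Q hQ1
      omega
    · exact h
  have : Nonempty S := Fintype.card_pos_iff.mp hcard
  have hsw : ∀ R, (Fintype.card S) ^ R ≤ coverNum 1 d (2 * p * R) ε := by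
    intro R
    refine switch hd hε0 (W := W) (p := p) ?_ hp.pos ?_ u ?_ ?_ ?_ R
    · intro x y hxy
      refine hWs x y fun n hn => ?_
      rw [hxy n hn, sub_self, abs_zero]
      exact hs0.le
    · exact (le_max_left _ _).trans hkp
    · intro i n
      change i.1 ((n + p : ℤ) : ZMod p) = i.1 (n : ZMod p)
      push_cast
      simp
    · intro w
      exact cat_mem hL F hFE hFc (fun i => (w i).1) (fun i => hSF (w i).2)
    · intro i j hij
      have h1 := hSsep i.1 i.2 j.1 j.2 (fun h => hij (Subtype.ext h))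
      simp only [near, not_forall, not_lt] at h1
      obtain ⟨hy, hz, t, ht⟩ := h1
      exact ⟨t, ht⟩
  have hp1000 : 1000 ≤ p := by
    have h1 := hL.large 0
    have h2 := hL.le 0 (Nat.zero_le _)
    simp at h1
    omega
  refine le_trans ?_ (coverRate_ge hp.pos hcard hsw)
  rw [EReal.coe_le_coe_iff]
  have h5 := log_bound hp1000 hQ1 hmany
  nlinarith [h5, hQlog]

end Pool.Agent.MDX
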