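import Pool.Agent.MDX.Defs

/-! # Existence of the levels -/

open Set Filter Topology

namespace Pool.Agent.MDX

open Pool.Agent.MMD

private noncomputable def lvlP (k a : ℕ) : ℕ := Classical.choose (Nat.exists_infinite_primes (a + k))

private lemma lvlP_spec (k a : ℕ) : a + k ≤ lvlP k a ∧ (lvlP k a).Prime :=
  Classical.choose_spec (Nat.exists_infinite_primes (a + k))

private noncomputable def lvlN : ℕ → ℕ
  | 0 => 1000
  | k + 1 => 1000 * (k + 2) * 2 ^ (k + 1) * (lvlP k (lvlN k) * (k + 2) ^ lvlP k (lvlN k))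

private noncomputable def lvlQ (k : ℕ) : ℕ := lvlP k (lvlN k)

private lemma lvl_succ (k : ℕ) :
    lvlN (k + 1) = 1000 * (k + 2) * 2 ^ (k + 1) * (lvlQ k * (k + 2) ^ lvlQ k) := rfl

private lemma lvl_N_le_Q (k : ℕ) : lvlN k ≤ lvlQ k := by
  have := (lvlP_spec k (lvlN k)).1
  unfold lvlQ
  omega

private lemma lvl_Q_le (k : ℕ) : lvlQ k ≤ lvlN (k + 1) := by
  rw [lvl_succ]
  have h1 : 0 < (k + 2) ^ lvlQ k := by positivity
  have h2 : 0 < 1000 * (k + 2) * 2 ^ (k + 1) := by positivity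
  calc lvlQ k ≤ lvlQ k * (k + 2) ^ lvlQ k := Nat.le_mul_of_pos_right _ h1
    _ ≤ _ := Nat.le_mul_of_pos_left _ h2

private lemma lvl_mono : Monotone lvlN :=
  monotone_nat_of_le_succ fun k => (lvl_N_le_Q k).trans (lvl_Q_le k)

private lemma lvl_Q_mono : Monotone lvlQ :=
  monotone_nat_of_le_succ fun k => (lvl_Q_le k).trans (lvl_N_le_Q (k + 1))

theorem exists_levels : ∃ N : ℕ → ℕ, ∀ k, ∃ p, p.Prime ∧ k ≤ p ∧ Lev N p k := by
  refine ⟨lvlN, fun k => ⟨lvlQ k, (lvlP_spec k (lvlN k)).2, ?_, ?_, ?_, ?_⟩⟩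
  · have := (lvlP_spec k (lvlN k)).1
    unfold lvlQ
    omega
  · intro j
    rcases j with _ | j
    · norm_num [lvlN]
    · rw [lvl_succ]
      have hQ : 0 < lvlQ j := (lvlP_spec j (lvlN j)).2.pos
      have h1 : 0 < lvlQ j * (j + 2) ^ lvlQ j := by positivity
      exact Nat.le_mul_of_pos_right _ h1
  · intro j hj
    exact (lvl_mono hj).trans (lvl_N_le_Q k)
  · intro j hj
    obtain ⟨i, rfl⟩ : ∃ i, j = i + 1 := ⟨j - 1, by omega⟩
    have hki : k ≤ i := by omega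
    rw [lvl_succ]
    have h1 : lvlQ k * (k + 2) ^ lvlQ k ≤ lvlQ i * (i + 2) ^ lvlQ i := by
      refine Nat.mul_le_mul (lvl_Q_mono hki) ?_
      calc (k + 2) ^ lvlQ k ≤ (i + 2) ^ lvlQ k := Nat.pow_le_pow_left (by omega) _
        _ ≤ (i + 2) ^ lvlQ i := Nat.pow_le_pow_right (by omega) (lvl_Q_mono hki)
    have h2 : 2 * (i + 1 + 1) ≤ 1000 * (i + 2) * 2 ^ (i + 1) := by
      have h3 : 1 ≤ 2 ^ (i + 1) := Nat.one_le_two_pow
      calc 2 * (i + 1 + 1) ≤ 1000 * (i + 2) * 1 := by omega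
        _ ≤ 1000 * (i + 2) * 2 ^ (i + 1) := Nat.mul_le_mul_left _ h3
    exact Nat.mul_le_mul h2 h1

end Pool.Agent.MDX
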