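import Pool.Agent.MDX.WID
import Pool.Agent.MDX.AGR

/-! # The mean dimension of the system is zero

PROOF. Let `ε > 0` and let `W`, `s` be as in `exists_agree` for `ε / 2`. For all `j` with
`1 / (j + 1) ≤ s` the bound `widim_XX` (with `r = ε / 2`) gives
`widim 1 d M ε / M ^ 1 ≤ (1 + (2 W + N j) / M) / (j + 1)` for `M ≥ 1`, whose limit for `M → ∞` is
`1 / (j + 1)`; so the inner `limsup` in `mdim 1 d` at `ε` is at most `1 / (j + 1)` for all large `j`,
hence at most `0`, and it is `≥ 0` since all terms are. So the inner `limsup` is `0` for all `ε > 0`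
and the outer one (`𝓝[>] 0` is not trivial) is `0`.
-/

open Set Filter Topology

namespace Pool.Agent.MDX

open Pool.Agent.MMD

theorem mdim_XX {N : ℕ → ℕ} (hN : ∀ j, 1 ≤ N j) {d : XX N → XX N → ℝ}
    (hd : IsCompatibleMetric d) : mdim 1 d = 0 := by
  have h1 : ∀ ε > (0 : ℝ), limsup (fun M : ℕ => ((widim 1 d M ε / (M : ℝ) ^ 1 : ℝ) : EReal))
      atTop = 0 := by
    intro ε hε
    obtain ⟨W, s, hs, hW⟩ := exists_agree hd (half_pos hε)
    have h2 : Tendsto (fun M : ℕ => (widim 1 d M ε / (M : ℝ) ^ 1 : ℝ)) atTop (𝓝 0) := by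
      rw [Metric.tendsto_atTop]
      intro δ hδ
      obtain ⟨j, hj⟩ := exists_nat_one_div_lt (lt_min hs (half_pos hδ))
      have hjs : (1 : ℝ) / (j + 1) < s := hj.trans_le (min_le_left _ _)
      have hjd : (1 : ℝ) / (j + 1) < δ / 2 := hj.trans_le (min_le_right _ _)
      refine ⟨2 * W + N j + 1, fun M hM => ?_⟩
      have hM0 : 0 < M := by omega
      have hM' : ((2 * W + N j + 1 : ℕ) : ℝ) ≤ M := by exact_mod_cast hM
      push_cast at hM'
      have hMp : (0 : ℝ) < M := by exact_mod_cast hM0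
      have h3 := widim_XX hN (d := d) (ε := ε) (r := ε / 2) (by linarith) (W := W) (j := j)
        (fun x y hxy => (hW x y fun n hn => (hxy n hn).trans hjs.le).le) M
      have hj0 : (0 : ℝ) < j + 1 := by positivity
      rw [Real.dist_eq, sub_zero, pow_one, abs_of_nonneg (by positivity), div_lt_iff₀ hMp]
      refine h3.trans_lt ?_
      rw [div_lt_iff₀ hj0]
      rw [div_lt_iff₀ hj0] at hjd
      nlinarith
    exact ((continuous_coe_real_ereal.tendsto 0).comp h2).limsup_eq
  unfold mdim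
  have h2 : (fun ε : ℝ => limsup (fun M : ℕ => ((widim 1 d M ε / (M : ℝ) ^ 1 : ℝ) : EReal)) atTop)
      =ᶠ[𝓝[>] 0] fun _ => (0 : EReal) := by
    filter_upwards [self_mem_nhdsWithin] with ε hε
    exact h1 ε hε
  rw [limsup_congr h2, limsup_const]

end Pool.Agent.MDX
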