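import Pool.Agent.MDX.BUY
import Pool.Agent.MDX.FOU
import Pool.Agent.MDX.GMP
import Pool.Agent.MDX.EPR

/-! # There are many separated points

PROOF. `p ≥ 1000` (`hL.large 0`, `hL.le 0`), so `p ≠ 2`. Suppose
`card ι * 2 ^ ((p - 1) / 2) < Q ^ (p / 4)`. Let `G` be as in `exists_G`,
`A = G '' EE N p k`, `C` the image of `univ : Finset ι` under `i ↦ (n ↦ g (vec n.val +ᵥ u i))`
(`C.card ≤ card ι`). Apply `fourier_lemma` with `σ = 3/100`, `δ = 40 L ε`, `ε' = 5 L ε`,
`b₁ = p / 4`, `b = p / 4 + p / 100 + 1` (natural divisions): `p ε'^2 / (2 δ^2) = p * 25 / 3200 ≤ p / 100 ≤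
(p / 100 : ℕ) + 1`. `hAC`: for `y ∈ EE` let `x = ⟨per y, per_mem hL hy⟩` and `i` as in `hnet`; then
`|G y n - g (vec n.val +ᵥ u i)| = |g (vec n.val +ᵥ x) - g (vec n.val +ᵥ u i)| ≤ L * 5 ε`.
Let `h` be the resulting map. Apply `bu_multi` with the index type `Option (Option (Fin (k + 1)))`:
`none`: `D = {y ∈ YY p | vr y ≤ p / 400}`, `f = fA`, `l = p / 25`;
`some none`: `D = EE N p k`, `f = h ∘ G`, `l = 2 (b + 1)`;
`some (some j)`: `D = {y ∈ YY p | ∃ n, N j / (2 (j + 1)) ≤ cz (N j) (j + 1) y n}` (closed: finite union),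
`f = fC (N j) (j + 1)`, `l = 8 (j + 1) p / N j` (natural division; `Nat.le_div_iff_mul_le`).
The hypotheses are in `PVA`, `PCN`, `EPR` (`cover_cases`, `isClosed_EE`, `sh_mem_EE`, …) and in the
properties of `G` and `h`. The conclusion `p ≤ ∑ l + 1` is impossible:
`p / 25 + 2 (p / 4 + p / 100 + 2) + ∑_{j ≤ k} 8 (j + 1) p / N j + 1`, where
`8 (j + 1) p / N j ≤ 8 p / (1000 * 2 ^ j)` (`hL.large`), whose sum over `j` is at most `16 p / 1000`
(geometric series). In total at most `(0.04 + 0.5 + 0.02 + 0.016) p + 5 = 0.576 p + 5 < p` as `p ≥ 1000`.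
-/

open Set Filter Topology

namespace Pool.Agent.MDX

open Pool.Agent.MMD

/-- the pieces -/
private noncomputable def mnyD (N : ℕ → ℕ) (p k : ℕ) [NeZero p] :
    Option (Option (Fin (k + 1))) → Set (ZMod p → ℝ)
  | none => {y | y ∈ YY p ∧ vr y ≤ p / 400}
  | some none => EE N p k
  | some (some j) => {y | y ∈ YY p ∧
      ∃ n, (N j : ℝ) / (2 * (((j : ℕ) + 1 : ℕ) : ℝ)) ≤ cz (N j) ((j : ℕ) + 1) y n}

private noncomputable def mnyf (N : ℕ → ℕ) (p k : ℕ) [NeZero p]
    (h : (ZMod p → ℝ) → ZMod p → ℝ) :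
    Option (Option (Fin (k + 1))) → (ZMod p → ℝ) → ZMod p → ℝ
  | none => fA
  | some none => h
  | some (some j) => fC (N j) ((j : ℕ) + 1)

private def mnyl (N : ℕ → ℕ) (p k b : ℕ) : Option (Option (Fin (k + 1))) → ℕ
  | none => p / 25
  | some none => 2 * (b + 1)
  | some (some j) => 8 * ((j : ℕ) + 1) * p / N j

private lemma mny_sum {N : ℕ → ℕ} {p k b : ℕ} (hN : ∀ j, 1000 * (j + 1) * 2 ^ j ≤ N j) :
    ((∑ a, mnyl N p k b a : ℕ) : ℝ) ≤ p / 25 + 2 * (b + 1) + 16 * p / 1000 := by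
  rw [Fintype.sum_option, Fintype.sum_option]
  push_cast
  have h1 : ((mnyl N p k b none : ℕ) : ℝ) ≤ p / 25 := by
    change ((p / 25 : ℕ) : ℝ) ≤ p / 25
    exact_mod_cast (Nat.cast_div_le : ((p / 25 : ℕ) : ℝ) ≤ (p : ℝ) / (25 : ℕ))
  have h2 : ((mnyl N p k b (some none) : ℕ) : ℝ) = 2 * (b + 1) := by
    change ((2 * (b + 1) : ℕ) : ℝ) = _
    push_cast
    ring
  have h3 : ∑ j : Fin (k + 1), ((mnyl N p k b (some (some j)) : ℕ) : ℝ) ≤ 16 * p / 1000 := by
    have h4 : ∀ j : Fin (k + 1), ((mnyl N p k b (some (some j)) : ℕ) : ℝ) ≤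
        8 * p / 1000 * (1 / 2) ^ (j : ℕ) := by
      intro j
      change ((8 * ((j : ℕ) + 1) * p / N j : ℕ) : ℝ) ≤ _
      refine (Nat.cast_div_le).trans ?_
      have h5 : (1000 * ((j : ℝ) + 1) * 2 ^ (j : ℕ)) ≤ (N j : ℝ) := by exact_mod_cast hN j
      have h6 : (0 : ℝ) < 1000 * ((j : ℝ) + 1) * 2 ^ (j : ℕ) := by positivity
      push_cast
      calc 8 * ((j : ℝ) + 1) * p / (N j : ℝ) ≤ 8 * ((j : ℝ) + 1) * p /
            (1000 * ((j : ℝ) + 1) * 2 ^ (j : ℕ)) := by gcongr
        _ = 8 * p / 1000 * (1 / 2) ^ (j : ℕ) := by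
          rw [one_div, inv_pow]
          field_simp
    refine (Finset.sum_le_sum fun j _ => h4 j).trans ?_
    rw [← Finset.mul_sum]
    have h7 : ∑ j : Fin (k + 1), (1 / 2 : ℝ) ^ (j : ℕ) ≤ 2 := by
      rw [Fin.sum_univ_eq_sum_range (fun i => (1 / 2 : ℝ) ^ i)]
      exact sum_geometric_two_le _
    have h8 : (0 : ℝ) ≤ 8 * p / 1000 := by positivity
    nlinarith
  linarith

theorem many_points {N : ℕ → ℕ} {p k : ℕ} [Fact p.Prime] (hL : Lev N p k)
    {d : XX N → XX N → ℝ} (hd : IsCompatibleMetric d) {g : XX N → ℝ} {L : ℝ} (hL0 : 0 < L)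
    (hg : ∀ x y, |g x - g y| ≤ L * d x y) (hg0 : ∀ x, |g x - x.1 0| ≤ 1 / 100) {ε : ℝ} (hε : 0 < ε)
    {Q : ℕ} (hQ : 16 * (40 * L * ε) * Q ≤ 3 / 100) {ι : Type} [Fintype ι] (u : ι → XX N)
    (hnet : ∀ x : XX N, (∃ y ∈ EE N p k, x.1 = per y) →
      ∃ i, ∀ t : ℤ, d (vec t +ᵥ x) (vec t +ᵥ u i) ≤ 5 * ε) :
    Q ^ (p / 4) ≤ Fintype.card ι * 2 ^ ((p - 1) / 2) := by
  classical
  by_contra hcon
  push Not at hcon
  have hp1000 : 1000 ≤ p := by
    have h1 := hL.large 0
    have h2 := hL.le 0 (Nat.zero_le _)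
    simp at h1
    omega
  have hp2 : p ≠ 2 := by omega
  have hN1 : ∀ j, 1 ≤ N j := fun j => by
    have h1 := hL.large j
    have h2 : 1 ≤ 1000 * (j + 1) * 2 ^ j := Nat.mul_pos (by omega) (by positivity)
    omega
  obtain ⟨G, hGc, hGs, hGv, hGval⟩ := exists_G hL hd hg hg0
  let C : Finset (ZMod p → ℝ) :=
    Finset.univ.image fun i : ι => fun n : ZMod p => g (vec n.val +ᵥ u i)
  have hC : C.card * 2 ^ ((p - 1) / 2) < Q ^ (p / 4) :=
    lt_of_le_of_lt (Nat.mul_le_mul_right _ Finset.card_image_le) hcon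
  obtain ⟨h, hhc, hh0, hhs, hhA⟩ := fourier_lemma hp2 (σ := 3 / 100) (δ := 40 * L * ε)
    (ε' := 5 * L * ε) (b₁ := p / 4) (b := p / 4 + p / 100 + 1) (by norm_num) (by positivity) hQ C hC
    (G '' EE N p k) (by
      rintro v ⟨y, hy, rfl⟩
      exact hGv y hy) (by
      rintro v ⟨y, hy, rfl⟩
      obtain ⟨i, hi⟩ := hnet ⟨per y, per_mem hL hy⟩ ⟨y, hy, rfl⟩
      refine ⟨fun n : ZMod p => g (vec n.val +ᵥ u i), Finset.mem_image_of_mem _ (Finset.mem_univ i),
        fun n => ?_⟩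
      rw [hGval y hy ⟨per y, per_mem hL hy⟩ rfl n]
      refine (hg _ _).trans ?_
      have := hi n.val
      nlinarith) (by
      have h1 : ((p : ℝ) * (5 * L * ε) ^ 2 / (2 * (40 * L * ε) ^ 2)) = p * (25 / 3200) := by
        field_simp
        norm_num
      rw [h1]
      have h2 : (p : ℝ) < ((p / 100 : ℕ) + 1) * 100 := by
        have : p < (p / 100 + 1) * 100 := by omega
        exact_mod_cast this
      push_cast
      linarith)
  have hGE : ∀ y ∈ EE N p k, h (G y) ≠ 0 ∧ supc (h (G y)) ≤ 2 * (p / 4 + p / 100 + 1 + 1) :=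
    fun y hy => hhA (G y) ⟨y, hy, rfl⟩
  have hbu := bu_multi hp2 (mnyD N p k) (by
      intro a
      match a with
      | none =>
        exact (isClosed_YY (p := p)).inter (isClosed_le continuous_vr continuous_const)
      | some none => exact isClosed_EE N k
      | some (some j) =>
        have h1 : IsClosed (⋃ n : ZMod p, {y : ZMod p → ℝ |
            (N j : ℝ) / (2 * (((j : ℕ) + 1 : ℕ) : ℝ)) ≤ cz (N j) ((j : ℕ) + 1) y n}) :=
          isClosed_iUnion_of_finite fun n => isClosed_le continuous_const (continuous_cz _ _ n)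
        have h2 : mnyD N p k (some (some j)) = YY p ∩ (⋃ n : ZMod p, {y : ZMod p → ℝ |
            (N j : ℝ) / (2 * (((j : ℕ) + 1 : ℕ) : ℝ)) ≤ cz (N j) ((j : ℕ) + 1) y n}) := by
          ext y
          simp [mnyD]
        rw [h2]
        exact (isClosed_YY (p := p)).inter h1) (by
      intro a y hy
      match a, hy with
      | none, hy => exact ⟨sh_mem_YY hy.1, by rw [vr_sh]; exact hy.2⟩
      | some none, hy => exact sh_mem_EE hy
      | some (some j), hy =>
        obtain ⟨hy1, n, hn⟩ := hy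
        refine ⟨sh_mem_YY hy1, n - 1, ?_⟩
        rw [cz_sh, sub_add_cancel]
        exact hn) (mnyf N p k fun y => h (G y)) (by
      intro a
      match a with
      | none => exact continuous_fA.continuousOn
      | some none => exact hhc.comp_continuousOn hGc
      | some (some j) => exact (continuous_fC _ _).continuousOn) (by
      intro a y _ n
      match a with
      | none => exact le_max_left _ _
      | some none => exact hh0 _ _
      | some (some j) => exact le_max_left _ _) (by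
      intro a y hy
      match a, hy with
      | none, _ => exact fA_sh y
      | some none, hy =>
        change h (G (sh y)) = sh (h (G y))
        rw [hGs y hy, hhs]
      | some (some j), _ => exact fC_sh _ _ y) (by
      intro a y hy
      match a, hy with
      | none, hy => exact fA_ne hy.1
      | some none, hy => exact (hGE y hy).1
      | some (some j), hy => exact fC_ne (hN1 _) (by omega) hy.2)
    (mnyl N p k (p / 4 + p / 100 + 1)) (by
      intro a y hy
      match a, hy with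
      | none, hy =>
        have h1 := supc_fA hy.2
        change supc (fA y) ≤ p / 25
        omega
      | some none, hy => exact (hGE y hy).2
      | some (some j), _ =>
        change supc (fC (N j) ((j : ℕ) + 1) y) ≤ 8 * ((j : ℕ) + 1) * p / N j
        rw [Nat.le_div_iff_mul_le (hN1 _), mul_comm]
        exact supc_fC (by omega) y) (by
      intro y hy
      rcases cover_cases N k hy with h1 | ⟨j, hj, n, hn⟩ | h1
      · exact ⟨none, hy, h1⟩
      · exact ⟨some (some ⟨j, by omega⟩), hy, n, hn⟩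
      · exact ⟨some none, h1⟩)
  have h1 := mny_sum (p := p) (k := k) (b := p / 4 + p / 100 + 1) hL.large
  have h2 : (p : ℝ) ≤ ((∑ a, mnyl N p k (p / 4 + p / 100 + 1) a : ℕ) : ℝ) + 1 := by
    exact_mod_cast hbu
  have h3 : ((p / 4 : ℕ) : ℝ) ≤ p / 4 := by
    exact_mod_cast (Nat.cast_div_le : ((p / 4 : ℕ) : ℝ) ≤ (p : ℝ) / (4 : ℕ))
  have h4 : ((p / 100 : ℕ) : ℝ) ≤ p / 100 := by
    exact_mod_cast (Nat.cast_div_le : ((p / 100 : ℕ) : ℝ) ≤ (p : ℝ) / (100 : ℕ))
  have h5 : (1000 : ℝ) ≤ p := by exact_mod_cast hp1000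
  push_cast at h1
  push_cast at h2
  linarith

end Pool.Agent.MDX
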