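import Pool.Agent.MDX.LOW
import Pool.Agent.MDX.MDZ
import Pool.Agent.MDX.LVL
import Pool.Agent.MDX.LMF

/-! # A system of mean dimension zero all of whose metrics have positive metric mean dimension -/

open Set Filter Topology TopologicalSpace

namespace Pool.Agent.MDX

open Pool.Agent.MMD

theorem main : ∃ (X : Type) (_ : TopologicalSpace X) (_ : CompactSpace X) (_ : MetrizableSpace X)
    (_ : AddAction (Fin 1 → ℤ) X) (_ : ContinuousConstVAdd (Fin 1 → ℤ) X),
    ∀ d : X → X → ℝ, IsCompatibleMetric d → mdim 1 d = 0 ∧ ((1 / 10 : ℝ) : EReal) ≤ mmdim 1 d := by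
  obtain ⟨N, hN⟩ := exists_levels
  refine ⟨XX N, inferInstance, inferInstance, metrizable_XX N, inferInstance, inferInstance,
    fun d hd => ⟨mdim_XX (fun j => ?_) hd, ?_⟩⟩
  · obtain ⟨p, _, _, hL⟩ := hN 0
    have h1 := hL.large j
    have h2 : 1 ≤ 1000 * (j + 1) * 2 ^ j := Nat.mul_pos (by omega) (by positivity)
    omega
  · obtain ⟨C, hC⟩ := rate_ge hN hd
    exact mmdim_ge hC

end Pool.Agent.MDX
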