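import Pool.Agent.MDX.FTA

/-! # Parseval identities

PROOFS.
`parseval` : `‖z‖^2 = z * conj z`; expand the double sum over `m, n`; the sum over `ξ` of
`stdAddChar (ξ * (n - m))` is `p` if `m = n` and `0` otherwise (`AddChar.sum_mulShift`,
`ZMod.isPrimitive_stdAddChar`, or `AddChar.sum_eq_ite`).
`parseval_half` : `ZMod p` without `0` is the disjoint union of the frequencies `fq p i` and `- fq p i`
(`p` is odd; a bijection `Fin M ⊕ Fin M ≃ {ξ // ξ ≠ 0}`, `M = (p-1)/2`, or: `fq p` is injective and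
`ξ ↦ ξ.val ≤ M` separates the two halves), and `‖ft v (-ξ)‖ = ‖ft v ξ‖`, `ft v 0 = ∑ v n`. So
`2 ∑_i ‖ft v (fq p i)‖^2 = p ∑ v^2 - (∑ v)^2 = p * vr v`, as `vr v = ∑ v^2 - (∑ v)^2 / p`.
-/

open Set Filter Topology

namespace Pool.Agent.MDX

open Pool.Agent.MMD

variable {p : ℕ} [Fact p.Prime]

private lemma par_sum_zmod (f : ZMod p → ℝ) : ∑ ξ, f ξ = ∑ k ∈ Finset.range p, f (k : ZMod p) := by
  have hinj : Function.Injective fun i : Fin p => ((i : ℕ) : ZMod p) := by
    intro i j hij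
    have h := congrArg ZMod.val hij
    rw [ZMod.val_natCast_of_lt i.2, ZMod.val_natCast_of_lt j.2] at h
    exact Fin.ext h
  have hbij : Function.Bijective fun i : Fin p => ((i : ℕ) : ZMod p) :=
    (Fintype.bijective_iff_injective_and_card _).mpr ⟨hinj, by simp [ZMod.card]⟩
  rw [← Fin.sum_univ_eq_sum_range (fun k => f (k : ZMod p)) p]
  exact (Fintype.sum_bijective _ hbij _ _ fun i => rfl).symm

lemma parseval (v : ZMod p → ℝ) : ∑ ξ, ‖ft v ξ‖ ^ 2 = p * ∑ n, v n ^ 2 := by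
  have h1 : ∀ ξ, ((‖ft v ξ‖ ^ 2 : ℝ) : ℂ) =
      ∑ m, ∑ n, (v m : ℂ) * v n * ZMod.stdAddChar (ξ * (n - m)) := by
    intro ξ
    have h2 : ((‖ft v ξ‖ ^ 2 : ℝ) : ℂ) = ft v ξ * (starRingEnd ℂ) (ft v ξ) := by
      rw [Complex.mul_conj, Complex.normSq_eq_norm_sq]
    rw [h2, ft, map_sum, Finset.sum_mul_sum]
    refine Finset.sum_congr rfl fun m _ => Finset.sum_congr rfl fun n _ => ?_
    rw [map_mul, Complex.conj_ofReal]
    have h3 : (starRingEnd ℂ) (ZMod.stdAddChar (-(ξ * n))) = ZMod.stdAddChar (ξ * n) := by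
      rw [← AddChar.map_neg_eq_conj, neg_neg]
    have h4 : (ZMod.stdAddChar (ξ * (n - m)) : ℂ) =
        ZMod.stdAddChar (-(ξ * m)) * ZMod.stdAddChar (ξ * n) := by
      rw [← AddChar.map_add_eq_mul]
      congr 1
      ring
    rw [h3, h4]
    ring
  have h5 : ((∑ ξ, ‖ft v ξ‖ ^ 2 : ℝ) : ℂ) = ((p * ∑ n, v n ^ 2 : ℝ) : ℂ) := by
    rw [Complex.ofReal_sum]
    simp only [h1]
    rw [Finset.sum_comm]
    rw [Complex.ofReal_mul, Complex.ofReal_sum, Finset.mul_sum]
    refine Finset.sum_congr rfl fun m _ => ?_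
    rw [Finset.sum_comm]
    have h6 : ∀ n : ZMod p, ∑ ξ : ZMod p, (v m : ℂ) * v n * ZMod.stdAddChar (ξ * (n - m)) =
        if n = m then (v m : ℂ) * v m * p else 0 := by
      intro n
      rw [← Finset.mul_sum, AddChar.sum_mulShift _ (ZMod.isPrimitive_stdAddChar p)]
      by_cases h : n = m
      · simp [h, ZMod.card]
      · rw [if_neg (sub_ne_zero.mpr h), if_neg h]
        simp
    simp only [h6, Finset.sum_ite_eq', Finset.mem_univ, if_true]
    push_cast
    ring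
  exact_mod_cast h5

theorem parseval_half (hp : p ≠ 2) (v : ZMod p → ℝ) : ∑ i, rr v (fq p i) ^ 2 = vr v / 2 := by
  have hpp : p.Prime := Fact.out
  have hp0 : (p : ℝ) ≠ 0 := by exact_mod_cast hpp.ne_zero
  obtain ⟨M, hM⟩ := hpp.odd_of_ne_two hp
  have hM2 : (p - 1) / 2 = M := by omega
  set f : ZMod p → ℝ := fun ξ => ‖ft v ξ‖ ^ 2 with hf
  have h0 : f 0 = (∑ n, v n) ^ 2 := by
    have h1 : ft v 0 = ((∑ n, v n : ℝ) : ℂ) := by
      simp [ft]
    rw [hf]
    simp only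
    rw [h1, Complex.norm_real, Real.norm_eq_abs, sq_abs]
  have h1 : ∑ ξ, f ξ = f 0 + 2 * ∑ k ∈ Finset.range M, f ((k + 1 : ℕ) : ZMod p) := by
    rw [par_sum_zmod]
    have h2 : ∑ k ∈ Finset.range p, f (k : ZMod p) =
        ∑ k ∈ Finset.range (1 + M + M), f (k : ZMod p) := by
      congr 2
      omega
    rw [h2, Finset.sum_range_add, Finset.sum_range_add, Finset.sum_range_one, two_mul, Nat.cast_zero,
      ← Finset.sum_range_reflect (fun k => f ((1 + M + k : ℕ) : ZMod p)) M, add_assoc]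
    congr 2
    · refine Finset.sum_congr rfl fun k _ => ?_
      rw [add_comm 1 k]
    · refine Finset.sum_congr rfl fun k hk => ?_
      rw [Finset.mem_range] at hk
      have h3 : ((1 + M + (M - 1 - k) : ℕ) : ZMod p) = -((k + 1 : ℕ) : ZMod p) := by
        rw [eq_neg_iff_add_eq_zero, ← Nat.cast_add]
        have h4 : 1 + M + (M - 1 - k) + (k + 1) = p := by omega
        rw [h4, ZMod.natCast_self]
      rw [h3, hf]
      simp only
      rw [ft_neg]
  have h2 : ∑ i, rr v (fq p i) ^ 2 = (∑ k ∈ Finset.range M, f ((k + 1 : ℕ) : ZMod p)) / p := by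
    rw [← hM2, ← Fin.sum_univ_eq_sum_range (fun k => f ((k + 1 : ℕ) : ZMod p)) ((p - 1) / 2),
      Finset.sum_div]
    refine Finset.sum_congr rfl fun i _ => ?_
    rw [rr, div_pow, Real.sq_sqrt (Nat.cast_nonneg p)]
    rfl
  have h3 : vr v = ∑ n, v n ^ 2 - (∑ n, v n) ^ 2 / p := by
    rw [vr]
    have h4 : ∀ n, (v n - mean v) ^ 2 = v n ^ 2 - 2 * mean v * v n + mean v ^ 2 := fun n => by ring
    simp only [h4, Finset.sum_add_distrib, Finset.sum_sub_distrib, ← Finset.mul_sum,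
      Finset.sum_const, Finset.card_univ, ZMod.card, nsmul_eq_mul]
    rw [mean]
    field_simp
    ring
  have h4 := parseval v
  rw [h1, h0] at h4
  rw [h2, h3]
  field_simp
  linarith

end Pool.Agent.MDX
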