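import Pool.Agent.MDX.Base

/-! # The prism operator

PROOFS.
`pr_bd` : on lists, by induction. Write `F l = mp f l`, `G l = mp g l`. `l = []`: all terms are zero
except `G [] - F [] = [] - [] = 0`. `l = a :: l'`:
`bd (prl (a::l')) = bd [fa::ga::G l'] - bd (cone fa (prl l'))`
`= (ga::G l') - cone fa (G l' - cone ga (bdl (G l'))) - prl l' + cone fa (bd (prl l'))`, and
`pr (bdl (a::l')) = prl l' - pr (cone a (bdl l'))`, where
`pr (cone a c) = cone fa (cone ga (mp g c)) - cone fa (pr c)` for every chain `c` (linearity), so
`pr (cone a (bdl l')) = cone fa (cone ga (bdl (G l'))) - cone fa (pr (bdl l'))`. Adding up: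
`(ga::G l') - cone fa (G l') + cone fa (bd (prl l') + pr (bdl l'))` and the induction hypothesis
`bd (prl l') + pr (bdl l') = G l' - F l'` gives `G (a::l') - F (a::l')`.
`pr_mem` and `prl_map` : induction on the list.
-/

open Set Filter Topology

namespace Pool.Agent.MDX

open Pool.Agent.MMD

variable {V W : Type*}

lemma pr_cone (f g : V → W) (a : V) (c : Ch V) :
    pr f g (cone a c) = cone (f a) (cone (g a) (mp g c)) - cone (f a) (pr f g c) := by
  refine map_eq' (pr f g ∘ₗ cone a)
    (cone (f a) ∘ₗ cone (g a) ∘ₗ mp g - cone (f a) ∘ₗ pr f g) (fun l => ?_) c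
  simp

private lemma PRS_bdl (f g : V → W) (l : List V) :
    bd (prl f g l) + pr f g (bdl l) = Finsupp.single (l.map g) 1 - Finsupp.single (l.map f) 1 := by
  induction l with
  | nil => simp
  | cons a l ih =>
    have h1 : bd (prl f g (a :: l)) = Finsupp.single (g a :: l.map g) 1
        - cone (f a) (Finsupp.single (l.map g) 1 - cone (g a) (bdl (l.map g)))
        - (prl f g l - cone (f a) (bd (prl f g l))) := by
      rw [prl_cons, map_sub, bd_single, one_smul, bdl_cons, bdl_cons, bd_cone]
    have h2 : pr f g (bdl (a :: l)) = prl f g l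
        - (cone (f a) (cone (g a) (bdl (l.map g))) - cone (f a) (pr f g (bdl l))) := by
      rw [bdl_cons, map_sub, pr_single, one_smul, pr_cone, mp_bdl]
    have h3 : bd (prl f g l) = Finsupp.single (l.map g) 1 - Finsupp.single (l.map f) 1
        - pr f g (bdl l) := eq_sub_of_add_eq ih
    rw [h1, h2, h3]
    simp only [map_sub, cone_single, List.map_cons]
    abel

theorem pr_bd (f g : V → W) (c : Ch V) : bd (pr f g c) + pr f g (bd c) = mp g c - mp f c := by
  refine map_eq' (bd ∘ₗ pr f g + pr f g ∘ₗ bd) (mp g - mp f) (fun l => ?_) c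
  simp [PRS_bdl]

private lemma PRS_len (f g : V → W) (l : List V) :
    prl f g l ∈ chp fun l' => l'.length = l.length + 1 := by
  induction l with
  | nil => simp
  | cons a l ih =>
    rw [prl_cons]
    refine Submodule.sub_mem _ (single_mem_chp (by simp) _) ?_
    exact cone_mem (fun l' hl' => by simp [hl']) ih

theorem pr_mem (f g : V → W) (n : ℕ) {c : Ch V} (hc : c ∈ chp fun l => l.length = n) :
    pr f g c ∈ chp fun l => l.length = n + 1 :=
  map_mem (pr f g) _ (fun l hl => by
    rw [pr_single, one_smul]
    exact chp_mono (fun l' hl' => by rw [hl', hl]) (PRS_len f g l)) hc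

theorem prl_map (f g : V → W) (T : V → V) (τ : W → W) (l : List V)
    (hf : ∀ a ∈ l, f (T a) = τ (f a)) (hg : ∀ a ∈ l, g (T a) = τ (g a)) :
    prl f g (l.map T) = mp τ (prl f g l) := by
  induction l with
  | nil => simp
  | cons a l ih =>
    have ih' := ih (fun b hb => hf b (List.mem_cons_of_mem a hb))
      (fun b hb => hg b (List.mem_cons_of_mem a hb))
    have hfa := hf a List.mem_cons_self
    have hga := hg a List.mem_cons_self
    have h3 : (l.map T).map g = (l.map g).map τ := by
      rw [List.map_map, List.map_map]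
      exact List.map_congr_left fun b hb => hg b (List.mem_cons_of_mem a hb)
    rw [List.map_cons, prl_cons, prl_cons, ih', hfa, hga, h3, map_sub, mp_cone, mp_single]
    simp

end Pool.Agent.MDX
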