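import Pool.Agent.MDX.Base

/-! # Barycentric subdivision: boundary, linear maps, convex sets -/

open Set Filter Topology

namespace Pool.Agent.MDX

open Pool.Agent.MMD

variable {E F : Type*} [AddCommGroup E] [Module ℝ E] [AddCommGroup F] [Module ℝ F]

lemma bd_sd (n : ℕ) (c : Ch E) : bd (sd (n + 1) c) = sd n (bd c) := by
  induction n generalizing c with
  | zero =>
    refine map_eq' (bd ∘ₗ sd 1) (sd 0 ∘ₗ bd) (fun l => ?_) c
    simp [bd_cone, bd_bdl]
  | succ n ih =>
    refine map_eq' (bd ∘ₗ sd (n + 2)) (sd (n + 1) ∘ₗ bd) (fun l => ?_) c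
    simp only [LinearMap.comp_apply, sd_single, one_smul, bd_single, bd_cone]
    rw [ih, bd_bdl, map_zero, map_zero, sub_zero]

lemma bd_sd_iter (n r : ℕ) (c : Ch E) : bd ((sd (n + 1))^[r] c) = (sd n)^[r] (bd c) := by
  induction r with
  | zero => rfl
  | succ r ih => rw [Function.iterate_succ_apply', Function.iterate_succ_apply', bd_sd, ih]

private lemma bary_map (T : E →ₗ[ℝ] F) (l : List E) : bary (l.map T) = T (bary l) := by
  simp [bary, map_list_sum]

lemma mp_sd (T : E →ₗ[ℝ] F) (n : ℕ) (c : Ch E) : mp T (sd n c) = sd n (mp T c) := by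
  induction n generalizing c with
  | zero => rfl
  | succ n ih =>
    refine map_eq' (mp T ∘ₗ sd (n + 1)) (sd (n + 1) ∘ₗ mp T) (fun l => ?_) c
    simp only [LinearMap.comp_apply, sd_single, one_smul, mp_single, mp_cone, ih, mp_bdl, bary_map]

lemma mp_sd_iter (T : E →ₗ[ℝ] F) (n r : ℕ) (c : Ch E) :
    mp T ((sd n)^[r] c) = (sd n)^[r] (mp T c) := by
  induction r with
  | zero => rfl
  | succ r ih => rw [Function.iterate_succ_apply', Function.iterate_succ_apply', mp_sd, ih]

/-- the barycentre of a non-empty list of points of a convex set lies in the set -/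
lemma bary_mem {K : Set E} (hK : Convex ℝ K) {l : List E} (hl : l ≠ []) (h : ∀ a ∈ l, a ∈ K) :
    bary l ∈ K := by
  have h1 : bary l = ∑ i : Fin l.length, (l.length : ℝ)⁻¹ • l.get i := by
    rw [← Finset.smul_sum, bary]
    congr 1
    have := Fin.sum_univ_getElem l
    simpa using this.symm
  have h0 : (l.length : ℝ) ≠ 0 := by
    have := List.length_pos_of_ne_nil hl
    positivity
  rw [h1]
  refine hK.sum_mem (fun i _ => by positivity) ?_ (fun i _ => h _ (List.get_mem l i))
  rw [Finset.sum_const, Finset.card_univ, Fintype.card_fin, nsmul_eq_mul, mul_inv_cancel₀ h0]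

lemma sd_hull {K : Set E} (hK : Convex ℝ K) (n : ℕ) {c : Ch E}
    (hc : c ∈ chp fun l => l.length = n ∧ ∀ a ∈ l, a ∈ K) :
    sd n c ∈ chp fun l => l.length = n ∧ ∀ a ∈ l, a ∈ K := by
  induction n generalizing c with
  | zero => exact hc
  | succ n ih =>
    refine map_mem (sd (n + 1)) _ (fun l hl => ?_) hc
    rw [sd_single, one_smul]
    have h1 : bary l ∈ K := bary_mem hK (by
      rintro rfl
      simp at hl) hl.2
    have h2 : bdl l ∈ chp fun l => l.length = n ∧ ∀ a ∈ l, a ∈ K :=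
      chp_mono (fun l' hl' => ⟨by have := hl'.2; have := hl.1; omega,
        fun a ha => hl.2 a (hl'.1.subset ha)⟩) (bdl_mem l)
    refine cone_mem (fun l' hl' => ⟨by simp [hl'.1], fun a ha => ?_⟩) (ih h2)
    rcases List.mem_cons.mp ha with rfl | ha
    · exact h1
    · exact hl'.2 a ha

lemma sd_iter_hull {ι : Type*} {K : ι → Set E} (hK : ∀ i, Convex ℝ (K i)) (n r : ℕ) {c : Ch E}
    (hc : c ∈ chp fun l => l.length = n ∧ ∃ i, ∀ a ∈ l, a ∈ K i) :
    (sd n)^[r] c ∈ chp fun l => l.length = n ∧ ∃ i, ∀ a ∈ l, a ∈ K i := by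
  induction r with
  | zero => exact hc
  | succ r ih =>
    rw [Function.iterate_succ_apply']
    refine map_mem (sd n) _ (fun l hl => ?_) ih
    obtain ⟨h1, i, hi⟩ := hl
    exact chp_mono (fun l' hl' => ⟨hl'.1, i, hl'.2⟩)
      (sd_hull (hK i) n (single_mem_chp (P := fun l => l.length = n ∧ ∀ a ∈ l, a ∈ K i) ⟨h1, hi⟩ 1))

end Pool.Agent.MDX
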