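import Pool.Agent.MDX.SDA

/-! # Barycentric subdivision: the mesh

PROOFS.
`dist_bary_le` : for a list `l` of length `n + 1` with mutual distances at most `D` and `b ∈ l`:
`bary l - b = (1/(n+1)) ∑ (a - b)`, the sum over the entries `a` of `l`; one of them is `b` and
contributes `0`, the other `n` have norm at most `D`; so the distance is at most `n/(n+1) D`.
For a point `x` of the convex hull of the entries: the closed ball around `bary l` of radius
`n/(n+1) D` is convex and contains all entries, so it contains the convex hull.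
`sd_mesh` : induction on `n`, on one list at a time (`map_mem`). `n = 0`: the list is `[a]`, `sd 1 [a]
= [bary [a]]`, a list with one entry (mutual distance `0 ≤ 0 * D`). Step: `l` of length `n + 2`,
`sd (n+2) l = cone (bary l) (sd (n+1) (bdl l))`. The lists of `bdl l` have length `n + 1` and are
sublists of `l`, so the induction hypothesis gives mutual distances at most `n/(n+1) D ≤
(n+1)/(n+2) D` in `sd (n+1) (bdl l)` (`0 ≤ D` since `l` has an entry `a` and `0 = dist a a ≤ D`), and
`sd_hull` with `K = convexHull ℝ {a | a ∈ l}` gives that the entries are in the convex hull of `l`,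
so `dist_bary_le` applies. (Combine two memberships in `chp` with `mem_chp`.)
`exists_mesh` : let `D` be a common bound for the mutual distances in the finitely many lists of `c`.
By `sd_mesh` and induction the `r`-th subdivision has mutual distances at most `(n/(n+1))^r D`, which
tends to `0`.
-/

open Set Filter Topology

namespace Pool.Agent.MDX

open Pool.Agent.MMD

variable {E : Type*} [NormedAddCommGroup E] [NormedSpace ℝ E]

private lemma SDM_sum (b : E) (D : ℝ) : ∀ l : List E, (∀ a ∈ l, dist a b ≤ D) →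
    ‖l.sum - (l.length : ℝ) • b‖ ≤ l.length * D
  | [], _ => by simp
  | a :: l, h => by
      have h1 := SDM_sum b D l fun x hx => h x (List.mem_cons_of_mem _ hx)
      have h2 : ‖a - b‖ ≤ D := by
        rw [← dist_eq_norm]
        exact h a List.mem_cons_self
      have h3 : (a :: l).sum - ((a :: l).length : ℝ) • b =
          (a - b) + (l.sum - (l.length : ℝ) • b) := by
        rw [List.sum_cons, List.length_cons]
        push_cast
        rw [add_smul, one_smul]
        abel
      rw [h3, List.length_cons]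
      push_cast
      have h4 := norm_add_le (a - b) (l.sum - (l.length : ℝ) • b)
      linarith

private lemma SDM_pt {n : ℕ} {l : List E} (hl : l.length = n + 1) {D : ℝ}
    (hD : ∀ a ∈ l, ∀ b ∈ l, dist a b ≤ D) {b : E} (hb : b ∈ l) :
    dist (bary l) b ≤ n / (n + 1) * D := by
  obtain ⟨l₁, l₂, rfl⟩ := List.append_of_mem hb
  have h1 := SDM_sum b D l₁ fun x hx => hD x (by simp [hx]) b hb
  have h2 := SDM_sum b D l₂ fun x hx => hD x (by simp [hx]) b hb
  have hlen : l₁.length + l₂.length = n := by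
    rw [List.length_append, List.length_cons] at hl
    omega
  have hlenR : (l₁.length : ℝ) + l₂.length = n := by exact_mod_cast hlen
  have hpos : (0 : ℝ) < n + 1 := by positivity
  have h3 : bary (l₁ ++ b :: l₂) - b = ((n : ℝ) + 1)⁻¹ •
      ((l₁.sum - (l₁.length : ℝ) • b) + (l₂.sum - (l₂.length : ℝ) • b)) := by
    unfold bary
    rw [hl, List.sum_append, List.sum_cons]
    push_cast
    have h4 : b = ((n : ℝ) + 1)⁻¹ • (((n : ℝ) + 1) • b) := by
      rw [smul_smul, inv_mul_cancel₀ hpos.ne', one_smul]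
    conv_lhs =>
      rhs
      rw [h4]
    rw [← smul_sub]
    congr 1
    rw [← hlenR, add_smul, add_smul, one_smul]
    abel
  rw [dist_eq_norm, h3, norm_smul, norm_inv, Real.norm_of_nonneg hpos.le]
  have h5 := norm_add_le (l₁.sum - (l₁.length : ℝ) • b) (l₂.sum - (l₂.length : ℝ) • b)
  have h6 : ‖(l₁.sum - (l₁.length : ℝ) • b) + (l₂.sum - (l₂.length : ℝ) • b)‖ ≤ n * D := by
    rw [← hlenR, add_mul]
    linarith
  calc ((n : ℝ) + 1)⁻¹ * ‖(l₁.sum - (l₁.length : ℝ) • b) + (l₂.sum - (l₂.length : ℝ) • b)‖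
      ≤ ((n : ℝ) + 1)⁻¹ * (n * D) := mul_le_mul_of_nonneg_left h6 (by positivity)
    _ = n / (n + 1) * D := by ring

lemma dist_bary_le {n : ℕ} {l : List E} (hl : l.length = n + 1) {D : ℝ}
    (hD : ∀ a ∈ l, ∀ b ∈ l, dist a b ≤ D) {x : E} (hx : x ∈ convexHull ℝ {a | a ∈ l}) :
    dist (bary l) x ≤ n / (n + 1) * D := by
  have h1 : convexHull ℝ {a | a ∈ l} ⊆ Metric.closedBall (bary l) (n / (n + 1) * D) := by
    refine convexHull_min (fun b hb => ?_) (convex_closedBall _ _)
    rw [Metric.mem_closedBall, dist_comm]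
    exact SDM_pt hl hD hb
  have h2 := h1 hx
  rwa [Metric.mem_closedBall, dist_comm] at h2

lemma sd_mesh (n : ℕ) {D : ℝ} {c : Ch E}
    (hc : c ∈ chp fun l => l.length = n + 1 ∧ ∀ a ∈ l, ∀ b ∈ l, dist a b ≤ D) :
    sd (n + 1) c ∈ chp fun l => l.length = n + 1 ∧
      ∀ a ∈ l, ∀ b ∈ l, dist a b ≤ n / (n + 1) * D := by
  induction n generalizing c with
  | zero =>
    refine map_mem (sd (0 + 1)) _ (fun l hl => ?_) hc
    obtain ⟨a, rfl⟩ := List.length_eq_one_iff.1 hl.1
    rw [sd_single, one_smul, sd_zero, bdl_cons, bdl_nil, map_zero, sub_zero, cone_single]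
    refine single_mem_chp ⟨by simp, ?_⟩ 1
    intro x hx y hy
    rw [List.mem_singleton] at hx hy
    rw [hx, hy, dist_self]
    simp
  | succ n ih =>
    refine map_mem (sd (n + 1 + 1)) _ (fun l hl => ?_) hc
    rw [sd_single, one_smul]
    have hD : 0 ≤ D := by
      obtain ⟨a, ha⟩ := List.exists_mem_of_ne_nil l (fun h => by
        rw [h] at hl
        exact absurd hl.1 (by simp))
      have := hl.2 a ha a ha
      rwa [dist_self] at this
    have h1 := ih (c := bdl l) (chp_mono (fun l' hl' => ⟨by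
      have := hl'.2
      have := hl.1
      omega, fun a ha b hb => hl.2 a (hl'.1.subset ha) b (hl'.1.subset hb)⟩) (bdl_mem l))
    have h2 := sd_hull (convex_convexHull ℝ {a | a ∈ l}) (n + 1) (c := bdl l)
      (chp_mono (fun l' hl' => ⟨by
        have := hl'.2
        have := hl.1
        omega, fun a ha => subset_convexHull ℝ _ (hl'.1.subset ha)⟩) (bdl_mem l))
    have hmono : (n : ℝ) / (n + 1) * D ≤ ((n + 1 : ℕ) : ℝ) / ((n + 1 : ℕ) + 1) * D := by
      apply mul_le_mul_of_nonneg_right _ hD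
      push_cast
      rw [div_le_div_iff₀ (by positivity) (by positivity)]
      nlinarith
    have h3 : sd (n + 1) (bdl l) ∈ chp fun l' => (l'.length = n + 1 ∧
        ∀ a ∈ l', ∀ b ∈ l', dist a b ≤ n / (n + 1) * D) ∧
        (l'.length = n + 1 ∧ ∀ a ∈ l', a ∈ convexHull ℝ {a | a ∈ l}) :=
      mem_chp.mpr fun l' hl' => ⟨mem_chp.mp h1 l' hl', mem_chp.mp h2 l' hl'⟩
    refine cone_mem (fun l' hl' => ?_) h3
    obtain ⟨⟨h4, h5⟩, -, h6⟩ := hl'
    refine ⟨by rw [List.length_cons, h4], fun a ha b hb => ?_⟩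
    have hlc : l.length = (n + 1) + 1 := hl.1
    rcases List.mem_cons.1 ha with rfl | ha' <;> rcases List.mem_cons.1 hb with rfl | hb'
    · rw [dist_self]
      positivity
    · exact dist_bary_le hlc hl.2 (h6 b hb')
    · rw [dist_comm]
      exact dist_bary_le hlc hl.2 (h6 a ha')
    · exact (h5 a ha' b hb').trans hmono

theorem exists_mesh (n : ℕ) {c : Ch E} (hc : c ∈ chp fun l => l.length = n + 1) {η : ℝ}
    (hη : 0 < η) : ∃ r₀ : ℕ, ∀ r ≥ r₀, (sd (n + 1))^[r] c ∈ chp fun l => l.length = n + 1 ∧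
      ∀ a ∈ l, ∀ b ∈ l, dist a b ≤ η := by
  obtain ⟨D, hD⟩ : ∃ D : ℝ, ∀ l ∈ c.support, ∀ a ∈ l, ∀ b ∈ l, dist a b ≤ D := by
    have hfin : (⋃ l ∈ c.support, {x | x ∈ l}).Finite :=
      Set.Finite.biUnion c.support.finite_toSet fun l _ => List.finite_toSet l
    obtain ⟨D, hD⟩ := Metric.isBounded_iff.1 hfin.isBounded
    refine ⟨D, fun l hl a ha b hb => hD ?_ ?_⟩
    · exact Set.mem_biUnion hl ha
    · exact Set.mem_biUnion hl hb
  have h1 : ∀ r : ℕ, (sd (n + 1))^[r] c ∈ chp fun l => l.length = n + 1 ∧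
      ∀ a ∈ l, ∀ b ∈ l, dist a b ≤ ((n : ℝ) / (n + 1)) ^ r * D := by
    intro r
    induction r with
    | zero =>
      refine mem_chp.mpr fun l hl => ⟨mem_chp.mp hc l hl, fun a ha b hb => ?_⟩
      rw [pow_zero, one_mul]
      exact hD l (Finsupp.mem_support_iff.2 hl) a ha b hb
    | succ r ih =>
      rw [Function.iterate_succ_apply']
      refine chp_mono (fun l hl => ⟨hl.1, fun a ha b hb => (hl.2 a ha b hb).trans_eq ?_⟩)
        (sd_mesh n ih)
      rw [pow_succ]
      ring
  have hlt : (n : ℝ) / (n + 1) < 1 := by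
    rw [div_lt_one (by positivity)]
    linarith
  have h2 : Tendsto (fun r : ℕ => ((n : ℝ) / (n + 1)) ^ r * D) atTop (𝓝 (0 * D)) :=
    (tendsto_pow_atTop_nhds_zero_of_lt_one (by positivity) hlt).mul_const D
  rw [zero_mul] at h2
  obtain ⟨r₀, hr₀⟩ := eventually_atTop.1 (h2.eventually_le_const hη)
  exact ⟨r₀, fun r hr => chp_mono (fun l hl => ⟨hl.1, fun a ha b hb =>
    (hl.2 a ha b hb).trans (hr₀ r hr)⟩) (h1 r)⟩

end Pool.Agent.MDX
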