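import Pool.Agent.MDX.Defs

/-! # The soft indicator functions

PROOFS.
`dz_le` : `round u` is a nearest integer (`round_le` : `|u - round u| ≤ |u - m|`).
`continuous_dz` : `|u - round u|` is the norm of `u` in `AddCircle (1 : ℝ)` (`UnitAddCircle.norm_eq`),
so it is continuous (`continuous_norm.comp (AddCircle.continuous_mk' 1)`); or: it is 1-Lipschitz
by `dz_le`.
`sum_soft_le` : if `N = 0` the sum is empty. Let `N ≥ 1`, `z = N * q * t`. If `soft N q i t ≠ 0` then
`2 - 2 N dz (q t - i/N) > 0`, so `N |q t - i / N - m| < 1` with `m = round (..)`, that is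
`|z - (i + m N)| < 1`, so the integer `i + m N` is `⌊z⌋` or `⌊z⌋ + 1`, and `i` is the residue of
`⌊z⌋` or of `⌊z⌋ + 1` modulo `N` (`i < N`): at most two indices `i` have a non-zero summand, and
every summand is at most `1`.
-/

open Set Filter Topology

namespace Pool.Agent.MDX

open Pool.Agent.MMD

lemma dz_le (u : ℝ) (m : ℤ) : dz u ≤ |u - m| := round_le u m

lemma dz_nonneg (u : ℝ) : 0 ≤ dz u := abs_nonneg _

lemma continuous_dz : Continuous dz := by
  have h : LipschitzWith 1 dz := by
    refine LipschitzWith.of_le_add fun u v => ?_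
    have h1 := dz_le u (round v)
    have h2 : |u - round v| ≤ |v - round v| + |u - v| := by
      have := abs_add_le (v - round v) (u - v)
      have h3 : v - round v + (u - v) = u - round v := by ring
      rwa [h3] at this
    calc dz u ≤ |u - round v| := h1
      _ ≤ |v - round v| + |u - v| := h2
      _ = dz v + dist u v := by rw [Real.dist_eq, dz]
  exact h.continuous

lemma continuous_soft (N q i : ℕ) : Continuous (soft N q i) := by
  unfold soft
  refine continuous_clamp.comp (continuous_const.sub (continuous_const.mul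
    (continuous_dz.comp ?_)))
  fun_prop

lemma soft_nonneg (N q i : ℕ) (t : ℝ) : 0 ≤ soft N q i t := (clamp_mem _).1

lemma soft_le_one (N q i : ℕ) (t : ℝ) : soft N q i t ≤ 1 := (clamp_mem _).2

private lemma SOF_res {N q i : ℕ} {t : ℝ} (hi : i < N) (h : soft N q i t ≠ 0) :
    i = (⌊(N : ℝ) * (q * t)⌋ % N).toNat ∨ i = ((⌊(N : ℝ) * (q * t)⌋ + 1) % N).toNat := by
  have hN : (0 : ℝ) < N := by exact_mod_cast (by omega : 0 < N)
  set u : ℝ := q * t - i / N with hu
  have h1 : (N : ℝ) * dz u < 1 := by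
    by_contra hc
    apply h
    exact clamp_of_nonpos (by linarith [not_lt.1 hc])
  set m : ℤ := round u with hm
  have h2 : |(N : ℝ) * (q * t) - ((i : ℤ) + m * N : ℤ)| < 1 := by
    have h3 : (N : ℝ) * (q * t) - ((i : ℤ) + m * N : ℤ) = N * (u - m) := by
      push_cast
      rw [hu]
      field_simp
      ring
    rw [h3, abs_mul, abs_of_pos hN]
    exact h1
  set w : ℤ := (i : ℤ) + m * N with hw
  rw [abs_lt] at h2
  have h4 : ⌊(N : ℝ) * (q * t)⌋ ≤ w := by
    have : ⌊(N : ℝ) * (q * t)⌋ < w + 1 := Int.floor_lt.2 (by push_cast; linarith [h2.2])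
    omega
  have h5 : w - 1 ≤ ⌊(N : ℝ) * (q * t)⌋ := Int.le_floor.2 (by push_cast; linarith [h2.1])
  have h6 : w % N = i := by
    rw [hw, Int.add_mul_emod_self_right]
    exact Int.emod_eq_of_lt (by omega) (by omega)
  rcases (by omega : ⌊(N : ℝ) * (q * t)⌋ = w ∨ ⌊(N : ℝ) * (q * t)⌋ + 1 = w) with h7 | h7
  · left
    rw [h7, h6]
    simp
  · right
    rw [h7, h6]
    simp

theorem sum_soft_le (N q : ℕ) (t : ℝ) : ∑ i ∈ Finset.range N, soft N q i t ≤ 2 := by
  classical
  set S : Finset ℕ := {(⌊(N : ℝ) * (q * t)⌋ % N).toNat, ((⌊(N : ℝ) * (q * t)⌋ + 1) % N).toNat}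
    with hS
  have h1 : ∑ i ∈ Finset.range N, soft N q i t
      = ∑ i ∈ (Finset.range N).filter (fun i => soft N q i t ≠ 0), soft N q i t := by
    rw [Finset.sum_filter_ne_zero]
  have h2 : (Finset.range N).filter (fun i => soft N q i t ≠ 0) ⊆ S := by
    intro i hi
    rw [Finset.mem_filter, Finset.mem_range] at hi
    rw [hS, Finset.mem_insert, Finset.mem_singleton]
    exact SOF_res hi.1 hi.2
  have h3 : ((Finset.range N).filter (fun i => soft N q i t ≠ 0)).card ≤ 2 :=
    (Finset.card_le_card h2).trans Finset.card_le_two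
  calc ∑ i ∈ Finset.range N, soft N q i t
      = ∑ i ∈ (Finset.range N).filter (fun i => soft N q i t ≠ 0), soft N q i t := h1
    _ ≤ ∑ i ∈ (Finset.range N).filter (fun i => soft N q i t ≠ 0), (1 : ℝ) :=
        Finset.sum_le_sum fun i _ => soft_le_one N q i t
    _ = (((Finset.range N).filter (fun i => soft N q i t ≠ 0)).card : ℝ) := by simp
    _ ≤ 2 := by exact_mod_cast h3

end Pool.Agent.MDX
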