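import Pool.Agent.MDX.SOF

/-! # The threshold functions

PROOFS. Write `u = q t - i / N`, so `thr N q i m t = clamp (N (u - m) + 1/2)`.
`thr_soft` : `0 < N (u - m) + 1/2 < 1`, so `N |u - m| < 1/2`, so `N * dz u < 1/2` (`dz_le`), so
`2 - 2 N dz u > 1` and the clamp is `1`.
`thr_unique` : `|u - m| < 1/(2N)` and `|u - m'| < 1/(2N)` give `|m - m'| < 1/N ≤ 1`.
`thr_fibre` : suppose `t' ≥ t + 1/q` (without loss of generality `t ≤ t'`), so `u' ≥ u + 1`. Here `u > -1` (`t ≥ 0`, `i < N`) and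
`u ≤ q`, so `m = ⌈u⌉` satisfies `0 ≤ m ≤ q` and `u ≤ m < u + 1 ≤ u'`. Then
`N (u - m) + 1/2 ≤ 1/2` and `N (u' - m) + 1/2 > 1/2`, so `thr .. t ≤ 1/2 < thr .. t'`, a contradiction.
-/

open Set Filter Topology

namespace Pool.Agent.MDX

open Pool.Agent.MMD

lemma continuous_thr (N q i m : ℕ) : Continuous (thr N q i m) := by
  unfold thr
  refine continuous_clamp.comp ?_
  fun_prop

private lemma STR_abs {N q i m : ℕ} {t : ℝ} (h : thr N q i m t ≠ 0 ∧ thr N q i m t ≠ 1) :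
    |(N : ℝ) * (q * t - i / N - m)| < 1 / 2 := by
  rw [abs_lt]
  constructor
  · by_contra hc
    exact h.1 (clamp_of_nonpos (by linarith [not_lt.1 hc]))
  · by_contra hc
    exact h.2 (clamp_of_one_le (by linarith [not_lt.1 hc]))

lemma thr_mem (N q i m : ℕ) (t : ℝ) : thr N q i m t ∈ Icc (0 : ℝ) 1 := clamp_mem _

theorem thr_soft {N q i m : ℕ} {t : ℝ} (h : thr N q i m t ≠ 0 ∧ thr N q i m t ≠ 1) :
    soft N q i t = 1 := by
  have h1 := STR_abs h
  rw [abs_mul, Nat.abs_cast] at h1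
  have h2 : dz (q * t - i / N) ≤ |(q * t - i / N : ℝ) - m| := by
    have := dz_le (q * t - i / N) (m : ℤ)
    simpa using this
  have h3 : (N : ℝ) * dz (q * t - i / N) ≤ N * |(q * t - i / N : ℝ) - m| :=
    mul_le_mul_of_nonneg_left h2 (Nat.cast_nonneg N)
  exact clamp_of_one_le (by linarith)

theorem thr_unique {N q i m m' : ℕ} (hN : 1 ≤ N) {t : ℝ}
    (h : thr N q i m t ≠ 0 ∧ thr N q i m t ≠ 1) (h' : thr N q i m' t ≠ 0 ∧ thr N q i m' t ≠ 1) :
    m = m' := by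
  have h1 := abs_lt.1 (STR_abs h)
  have h2 := abs_lt.1 (STR_abs h')
  have hN' : (1 : ℝ) ≤ N := by exact_mod_cast hN
  have h3 : (N : ℝ) * ((m : ℝ) - m') < 1 := by linarith [h1.1, h1.2, h2.1, h2.2]
  have h4 : (N : ℝ) * ((m' : ℝ) - m) < 1 := by linarith [h1.1, h1.2, h2.1, h2.2]
  have h5 : (m : ℝ) - m' < 1 := by
    by_contra hc
    have h6 := mul_le_mul hN' (not_lt.1 hc) (by norm_num) (by linarith)
    linarith
  have h6 : (m' : ℝ) - m < 1 := by
    by_contra hc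
    have h6 := mul_le_mul hN' (not_lt.1 hc) (by norm_num) (by linarith)
    linarith
  have h7 : m < m' + 1 := by
    have : (m : ℝ) < (m' + 1 : ℕ) := by push_cast; linarith
    exact_mod_cast this
  have h8 : m' < m + 1 := by
    have : (m' : ℝ) < (m + 1 : ℕ) := by push_cast; linarith
    exact_mod_cast this
  omega

private lemma STR_one {N q i : ℕ} (hq : 1 ≤ q) (hi : i < N) {t t' : ℝ} (ht : t ∈ Icc (0 : ℝ) 1)
    (ht' : t' ∈ Icc (0 : ℝ) 1) (h : ∀ m ≤ q, thr N q i m t = thr N q i m t') :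
    t' - t ≤ 1 / q := by
  have hN : (0 : ℝ) < N := by exact_mod_cast (by omega : 0 < N)
  have hq' : (0 : ℝ) < q := by exact_mod_cast (by omega : 0 < q)
  by_contra hc
  have hc' : 1 < (q : ℝ) * t' - q * t := by
    have h1 := mul_lt_mul_of_pos_left (not_le.1 hc) hq'
    rw [mul_one_div_cancel hq'.ne'] at h1
    linarith
  set u : ℝ := q * t - i / N with hu
  set u' : ℝ := q * t' - i / N with hu'
  have hiN : (i : ℝ) / N < 1 := by
    rw [div_lt_one hN]
    exact_mod_cast hi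
  have hiN0 : (0 : ℝ) ≤ (i : ℝ) / N := by positivity
  have h1 : -1 < u := by
    have : 0 ≤ (q : ℝ) * t := mul_nonneg hq'.le ht.1
    linarith
  have h2 : u ≤ q := by
    have : (q : ℝ) * t ≤ q * 1 := mul_le_mul_of_nonneg_left ht.2 hq'.le
    linarith
  have h3 : 0 ≤ ⌈u⌉ := by
    have : (-1 : ℤ) < ⌈u⌉ := Int.lt_ceil.2 (by push_cast; linarith)
    omega
  obtain ⟨m, hm⟩ := Int.eq_ofNat_of_zero_le h3
  have h4 : m ≤ q := by
    have : ⌈u⌉ ≤ (q : ℤ) := Int.ceil_le.2 (by exact_mod_cast h2)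
    omega
  have h5 : u ≤ m := by
    have := Int.le_ceil u
    rw [hm] at this
    exact_mod_cast this
  have h6 : (m : ℝ) < u + 1 := by
    have := Int.ceil_lt_add_one u
    rw [hm] at this
    exact_mod_cast this
  have h7 := h m h4
  have h8 : thr N q i m t ≤ 1 / 2 := by
    change max 0 (min 1 ((N : ℝ) * (u - m) + 1 / 2)) ≤ 1 / 2
    have : (N : ℝ) * (u - m) ≤ 0 := mul_nonpos_of_nonneg_of_nonpos hN.le (by linarith)
    exact max_le (by norm_num) ((min_le_right _ _).trans (by linarith))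
  have h9 : 1 / 2 < thr N q i m t' := by
    change 1 / 2 < max 0 (min 1 ((N : ℝ) * (u' - m) + 1 / 2))
    have : 0 < (N : ℝ) * (u' - m) := mul_pos hN (by linarith)
    exact lt_max_of_lt_right (lt_min (by norm_num) (by linarith))
  linarith

theorem thr_fibre {N q i : ℕ} (hq : 1 ≤ q) (hi : i < N) {t t' : ℝ} (ht : t ∈ Icc (0 : ℝ) 1)
    (ht' : t' ∈ Icc (0 : ℝ) 1) (h : ∀ m ≤ q, thr N q i m t = thr N q i m t') : |t - t'| ≤ 1 / q := by
  rw [abs_le]
  constructor
  · linarith [STR_one hq hi ht ht' h]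
  · exact STR_one hq hi ht' ht fun m hm => (h m hm).symm

end Pool.Agent.MDX
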