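import Pool.Agent.MDX.Defs

/-! # Choice of thresholds

PROOF. Count the functions `c : Fin M → Fin Q` which are bad for `w`, that is, for which some set `s` of
exactly `b` indices (shrink `s`: `Finset.exists_subset_card_eq`) satisfies `near w ξ (c ξ)` for all
`ξ ∈ s`. For fixed `w` and `s` such a `c` is determined by its values off `s` (`huniq`), so there are at
most `Q ^ (M - b)` of them (an injection into the functions `{ξ // ξ ∉ s} → Fin Q`), and there are
at most `2 ^ M` sets `s` (none if `b > M`). If `b ≤ M` the number of bad functions for some `w` is at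
most `card C * 2 ^ M * Q ^ (M - b) < Q ^ b * Q ^ (M - b) = Q ^ M` (`0 < Q`), the number of all functions.
If `b > M` every function is good.
-/

open Set Filter Topology

namespace Pool.Agent.MDX

open Pool.Agent.MMD

theorem exists_threshold {M Q b : ℕ} {C : Type*} [Fintype C] (near : C → Fin M → Fin Q → Prop)
    (huniq : ∀ w ξ q q', near w ξ q → near w ξ q' → q = q') (hQ : 0 < Q)
    (h : Fintype.card C * 2 ^ M < Q ^ b) :
    ∃ c : Fin M → Fin Q, ∀ w, ∀ s : Finset (Fin M), (∀ ξ ∈ s, near w ξ (c ξ)) → s.card < b := by
  classical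
  by_contra hcon
  push Not at hcon
  -- for every `c` choose a bad pair
  have hbad : ∀ c : Fin M → Fin Q, ∃ x : C × Finset (Fin M), x.2.card = b ∧
      ∀ ξ ∈ x.2, near x.1 ξ (c ξ) := by
    intro c
    obtain ⟨w, s, hs, hcard⟩ := hcon c
    obtain ⟨t, hts, ht⟩ := Finset.exists_subset_card_eq hcard
    exact ⟨(w, t), ht, fun ξ hξ => hs ξ (hts hξ)⟩
  have hbM : b ≤ M := by
    obtain ⟨x, hx, -⟩ := hbad (fun _ => ⟨0, hQ⟩)
    rw [← hx]
    exact (Finset.card_le_univ _).trans (by rw [Fintype.card_fin])
  have hle : Fintype.card (Fin M → Fin Q) ≤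
      Fintype.card (C × Finset (Fin M)) * Q ^ (M - b) := by
    choose x hx1 hx2 using hbad
    have hfib : ∀ y ∈ (Finset.univ : Finset (C × Finset (Fin M))),
        ((Finset.univ : Finset (Fin M → Fin Q)).filter fun c => x c = y).card ≤ Q ^ (M - b) := by
      rintro ⟨w, t⟩ -
      rcases ((Finset.univ : Finset (Fin M → Fin Q)).filter fun c => x c = (w, t)).eq_empty_or_nonempty
        with he | ⟨c₀, hc₀⟩
      · rw [he, Finset.card_empty]
        exact Nat.zero_le _
      · have hx₀ : x c₀ = (w, t) := (Finset.mem_filter.1 hc₀).2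
        have ht : t.card = b := by
          have := hx1 c₀
          rw [hx₀] at this
          exact this
        have hinj : Set.InjOn (fun (c : Fin M → Fin Q) (ξ : {ξ : Fin M // ξ ∉ t}) => c ξ.1)
            ((Finset.univ : Finset (Fin M → Fin Q)).filter fun c => x c = (w, t)) := by
          intro c hc c' hc' hcc
          have hxc : x c = (w, t) := (Finset.mem_filter.1 (Finset.mem_coe.1 hc)).2
          have hxc' : x c' = (w, t) := (Finset.mem_filter.1 (Finset.mem_coe.1 hc')).2
          funext ξ
          by_cases hξ : ξ ∈ t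
          · have h1 := hx2 c ξ (by rw [hxc]; exact hξ)
            have h2 := hx2 c' ξ (by rw [hxc']; exact hξ)
            rw [hxc] at h1
            rw [hxc'] at h2
            exact huniq w ξ _ _ h1 h2
          · exact congrFun hcc ⟨ξ, hξ⟩
        have h1 := Finset.card_le_card_of_injOn (t := Finset.univ)
          (fun (c : Fin M → Fin Q) (ξ : {ξ : Fin M // ξ ∉ t}) => c ξ.1)
          (fun _ _ => Finset.mem_coe.2 (Finset.mem_univ _)) hinj
        refine h1.trans ?_
        rw [Finset.card_univ, Fintype.card_fun, Fintype.card_fin, Fintype.card_subtype_compl,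
          Fintype.card_fin, Fintype.card_coe, ht]
    have h1 := Finset.card_le_mul_card_image_of_maps_to (s := (Finset.univ : Finset (Fin M → Fin Q)))
      (t := (Finset.univ : Finset (C × Finset (Fin M)))) (f := x) (fun _ _ => Finset.mem_univ _)
      (Q ^ (M - b)) hfib
    rw [Finset.card_univ, Finset.card_univ] at h1
    rw [mul_comm]
    exact h1
  rw [Fintype.card_fun, Fintype.card_fin, Fintype.card_fin, Fintype.card_prod, Fintype.card_finset,
    Fintype.card_fin] at hle
  have h2 : Q ^ M = Q ^ b * Q ^ (M - b) := by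
    rw [← pow_add]
    congr 1
    omega
  rw [h2] at hle
  have h3 : 0 < Q ^ (M - b) := pow_pos hQ _
  have h4 := Nat.le_of_mul_le_mul_right hle h3
  omega

end Pool.Agent.MDX
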