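import Pool.Agent.MDX.XTP

/-! # Sequences with few values and periodic sequences

PROOFS.
`cnt_le_of_values` : `cnt N q x n = ∑_i soft i (x (n + i)) ≤ ∑_i ∑_{t ∈ F} soft i t = ∑_{t ∈ F} ∑_i soft i t
≤ 2 card F` by `sum_soft_le` (`Finset.single_le_sum`, `Finset.sum_comm`).
`cnt_per` : unfold; the cast of `n + i` to `ZMod p`.
`per_mem` : `0 ≤ per y n ≤ 1`. Levels `j ≤ k`: `cnt .. = cz .. ≤ N j / (2 (j + 1)) ≤ N j / (j + 1)`. Levels
`j > k`: the sequence has its values in the image of `y`, at most `p` values, so `cnt ≤ 2 p ≤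
N j / (j + 1)` by `Lev.ge` (`(k + 2) ^ p ≥ 1`).
`cz_nonneg`, `sum_cz_le` : `∑_n cz N q y n = ∑_i ∑_n soft i (y (n + i)) = ∑_i ∑_n soft i (y n) =
∑_n ∑_i soft i (y n) ≤ 2 p`.
-/

open Set Filter Topology

namespace Pool.Agent.MDX

open Pool.Agent.MMD

lemma cnt_per {p : ℕ} (N q : ℕ) (y : ZMod p → ℝ) (n : ℤ) : cnt N q (per y) n = cz N q y n := by
  unfold cnt cz per
  refine Finset.sum_congr rfl fun i _ => ?_
  push_cast
  rfl

lemma cnt_nonneg (N q : ℕ) (x : ℤ → ℝ) (n : ℤ) : 0 ≤ cnt N q x n :=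
  Finset.sum_nonneg fun i _ => soft_nonneg N q i _

theorem cnt_le_of_values (N q : ℕ) (F : Finset ℝ) (x : ℤ → ℝ) (hx : ∀ n, x n ∈ F) (n : ℤ) :
    cnt N q x n ≤ 2 * F.card := by
  calc cnt N q x n ≤ ∑ i ∈ Finset.range N, ∑ t ∈ F, soft N q i t := by
        unfold cnt
        refine Finset.sum_le_sum fun i _ => ?_
        exact Finset.single_le_sum (f := fun t => soft N q i t) (fun t _ => soft_nonneg N q i t)
          (hx (n + i))
    _ = ∑ t ∈ F, ∑ i ∈ Finset.range N, soft N q i t := Finset.sum_comm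
    _ ≤ ∑ _t ∈ F, (2 : ℝ) := Finset.sum_le_sum fun t _ => sum_soft_le N q t
    _ = 2 * F.card := by
        rw [Finset.sum_const, nsmul_eq_mul]
        ring

theorem sum_cz_le {p : ℕ} [NeZero p] (N q : ℕ) (y : ZMod p → ℝ) : ∑ n, cz N q y n ≤ 2 * p := by
  calc ∑ n, cz N q y n = ∑ i ∈ Finset.range N, ∑ n, soft N q i (y (n + (i : ℕ))) := by
        unfold cz
        exact Finset.sum_comm
    _ = ∑ i ∈ Finset.range N, ∑ n, soft N q i (y n) := by
        refine Finset.sum_congr rfl fun i _ => ?_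
        exact Equiv.sum_comp (Equiv.addRight ((i : ℕ) : ZMod p)) fun n => soft N q i (y n)
    _ = ∑ n, ∑ i ∈ Finset.range N, soft N q i (y n) := Finset.sum_comm
    _ ≤ ∑ _n : ZMod p, (2 : ℝ) := Finset.sum_le_sum fun n _ => sum_soft_le N q _
    _ = 2 * p := by
        rw [Finset.sum_const, nsmul_eq_mul, Finset.card_univ, ZMod.card]
        ring

theorem per_mem {N : ℕ → ℕ} {p k : ℕ} [NeZero p] (hL : Lev N p k) {y : ZMod p → ℝ}
    (hy : y ∈ EE N p k) : per y ∈ XX N := by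
  obtain ⟨hY, _, hE⟩ := hy
  refine ⟨fun n => hY.1 _, fun j n => ?_⟩
  have hj : (0 : ℝ) < (j : ℝ) + 1 := by positivity
  rcases le_or_gt j k with hjk | hjk
  · rw [cnt_per]
    refine (hE j hjk _).trans ?_
    have hN : (0 : ℝ) ≤ (N j : ℝ) := Nat.cast_nonneg _
    gcongr
    linarith
  · classical
    have h1 := cnt_le_of_values (N j) (j + 1) (Finset.univ.image y) (per y)
      (fun n => Finset.mem_image_of_mem _ (Finset.mem_univ _)) n
    have h2 : ((Finset.univ.image y).card : ℝ) ≤ p := by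
      have := Finset.card_image_le (s := (Finset.univ : Finset (ZMod p))) (f := y)
      rw [Finset.card_univ, ZMod.card] at this
      exact_mod_cast this
    have h3 := hL.ge j hjk
    have h4 : 2 * (j + 1) * p ≤ N j := by
      refine le_trans ?_ h3
      refine Nat.mul_le_mul_left _ ?_
      exact Nat.le_mul_of_pos_right _ (by positivity)
    have h5 : (2 * ((j : ℝ) + 1) * p : ℝ) ≤ N j := by exact_mod_cast h4
    refine h1.trans ?_
    rw [le_div_iff₀ hj]
    nlinarith [Nat.cast_nonneg (α := ℝ) p]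

end Pool.Agent.MDX
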