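import Pool.Agent.MDX.STR
import Pool.Agent.MDX.KUH
import Pool.Agent.MDX.XTP

/-! # The width dimension of the system

PROOF. Let `B = (M + 2 W) / N j + 1`, so `M + 2 W ≤ B * N j ≤ M + 2 W + N j`. The positions are
`n (b, i) = - W + i + N j * b` for `b < B`, `i < N j`; they run through the integers
from `- W` to `- W + B * N j - 1 ≥ M + W - 1`. Let `I = Fin B × Fin (N j) × Fin (j + 2)` and
`c x (b, i, m) = thr (N j) (j + 1) i m (x (n (b, i)))`, a continuous map from `XX N` to `I → ℝ` with values in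
`[0, 1]`. Let `f` be the function of `kuhn I` and apply `widim_le` (of `Pool.Agent.MMD.MDim`) to
`x ↦ f (c x)`, `W := Finset I`, and the number `m₀ = ⌊(M + 2 W + N j) / (j + 1)⌋₊`.
Number of non-integral coordinates: by `thr_unique` for every `(b, i)` at most one `m` is
non-integral, and then `soft (N j) (j+1) i (x (n (b, i))) = 1` by `thr_soft`; so the number is at most
`∑_b ∑_i soft .. (x (n(b,i))) = ∑_b cnt (N j) (j + 1) x (- W + N j * b) ≤ B * (N j / (j + 1))
≤ (M + 2 W + N j) / (j + 1)`.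
Fibres: if `f (c x) = f (c y)` then `c x = c y` (last property of `kuhn`), so by `thr_fibre`
`|x n - y n| ≤ 1 / (j + 1)` for all positions, in particular for `- W ≤ n < M + W`. For `t` in
`box 1 M` (`0 ≤ t 0 < M`, `mem_box`) the sequences `t +ᵥ x`, `t +ᵥ y` satisfy the condition of `hW`
(`vadd_apply`: the coordinate `n` with `|n| ≤ W` is the coordinate `n + t 0 ∈ [-W, M + W - 1]`). So
`d (t +ᵥ x) (t +ᵥ y) ≤ r`.
-/

open Set Filter Topology

namespace Pool.Agent.MDX

open Pool.Agent.MMD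

private lemma wid_soft {n q i Q : ℕ} (hn : 1 ≤ n) (t : ℝ) :
    (∑ m : Fin Q, if thr n q i m t ≠ 0 ∧ thr n q i m t ≠ 1 then (1 : ℝ) else 0) ≤ soft n q i t := by
  by_cases h : ∃ m : Fin Q, thr n q i m t ≠ 0 ∧ thr n q i m t ≠ 1
  · obtain ⟨m, hm⟩ := h
    rw [thr_soft hm]
    rw [Finset.sum_eq_single m]
    · rw [if_pos hm]
    · intro m' _ hne
      rw [if_neg]
      intro h'
      exact hne (Fin.ext (thr_unique hn h' hm))
    · intro h'
      exact absurd (Finset.mem_univ m) h'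
  · push Not at h
    rw [Finset.sum_eq_zero]
    · exact soft_nonneg _ _ _ _
    · intro m _
      rw [if_neg]
      rintro ⟨h1, h2⟩
      exact h2 (h m h1)

theorem widim_XX {N : ℕ → ℕ} (hN : ∀ j, 1 ≤ N j) {d : XX N → XX N → ℝ} {ε r : ℝ} (hr : r < ε)
    {W j : ℕ} (hW : ∀ x y : XX N, (∀ n : ℤ, |n| ≤ W → |x.1 n - y.1 n| ≤ 1 / (j + 1)) → d x y ≤ r)
    (M : ℕ) : (widim 1 d M ε : ℝ) ≤ (M + 2 * W + N j) / (j + 1) := by
  classical
  obtain ⟨n, hn⟩ : ∃ n, n = N j := ⟨_, rfl⟩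
  have hn1 : 1 ≤ n := hn ▸ hN j
  obtain ⟨B, hB⟩ : ∃ B, B = (M + 2 * W) / n + 1 := ⟨_, rfl⟩
  have hB1 : M + 2 * W < B * n := by
    rw [hB]
    have h := Nat.lt_div_mul_add (a := M + 2 * W) (show 0 < n from hn1)
    rw [add_mul, one_mul]
    exact h
  have hB2 : B * n ≤ M + 2 * W + n := by
    rw [hB, add_mul, one_mul]
    have h := Nat.div_mul_le_self (M + 2 * W) n
    omega
  let pos : ℕ → ℕ → ℤ := fun b i => (-(W : ℤ) + n * b) + i
  let c : XX N → (Fin B × Fin n × Fin (j + 2) → ℝ) := fun x k =>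
    thr n (j + 1) k.2.1 k.2.2 (x.1 (pos k.1 k.2.1))
  obtain ⟨f, hf, hk⟩ := kuhn (Fin B × Fin n × Fin (j + 2))
  have hc01 : ∀ x k, c x k ∈ Icc (0 : ℝ) 1 := fun x k => thr_mem _ _ _ _ _
  have hcc : Continuous c := by
    refine continuous_pi fun k => ?_
    exact (continuous_thr _ _ _ _).comp ((continuous_apply _).comp continuous_subtype_val)
  have hcard : ∀ x : XX N, ((Finset.univ.filter fun k => c x k ≠ 0 ∧ c x k ≠ 1).card : ℝ) ≤
      (M + 2 * W + n) / (j + 1) := by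
    intro x
    have h1 : ((Finset.univ.filter fun k => c x k ≠ 0 ∧ c x k ≠ 1).card : ℝ) =
        ∑ b : Fin B, ∑ i : Fin n, ∑ m : Fin (j + 2),
          if thr n (j + 1) i m (x.1 (pos b i)) ≠ 0 ∧ thr n (j + 1) i m (x.1 (pos b i)) ≠ 1
            then (1 : ℝ) else 0 := by
      rw [Finset.card_filter, Nat.cast_sum, Fintype.sum_prod_type]
      refine Finset.sum_congr rfl fun b _ => ?_
      rw [Fintype.sum_prod_type]
      refine Finset.sum_congr rfl fun i _ => Finset.sum_congr rfl fun m _ => ?_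
      rw [Nat.cast_ite, Nat.cast_one, Nat.cast_zero]
    rw [h1]
    have h2 : (∑ b : Fin B, ∑ i : Fin n, ∑ m : Fin (j + 2),
          if thr n (j + 1) i m (x.1 (pos b i)) ≠ 0 ∧ thr n (j + 1) i m (x.1 (pos b i)) ≠ 1
            then (1 : ℝ) else 0) ≤ ∑ b : Fin B, (n : ℝ) / (j + 1) := by
      refine Finset.sum_le_sum fun b _ => ?_
      have h3 := x.2.2 j (-(W : ℤ) + n * b)
      rw [← hn] at h3
      refine le_trans ?_ h3
      unfold cnt
      rw [Finset.sum_range]
      refine Finset.sum_le_sum fun i _ => ?_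
      exact wid_soft hn1 _
    refine h2.trans ?_
    rw [Finset.sum_const, Finset.card_univ, Fintype.card_fin, nsmul_eq_mul, ← mul_div_assoc]
    have h4 : ((B * n : ℕ) : ℝ) ≤ ((M + 2 * W + n : ℕ) : ℝ) := Nat.cast_le.mpr hB2
    push_cast at h4
    exact div_le_div_of_nonneg_right h4 (by positivity)
  have hmain : widim 1 d M ε ≤ ⌊((M : ℝ) + 2 * W + n) / (j + 1)⌋₊ := by
    refine widim_le hr (fun x => f (c x)) (hf.comp hcc) (fun x V => (hk _ (hc01 x)).1 V)
      (fun x => (hk _ (hc01 x)).2.1) (fun x => ?_) ?_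
    · refine (hk _ (hc01 x)).2.2.1.trans ?_
      exact Nat.succ_le_succ (Nat.le_floor (hcard x))
    · intro x y hxy t ht
      have hcxy : c x = c y := by
        funext k
        rw [(hk _ (hc01 x)).2.2.2 k, (hk _ (hc01 y)).2.2.2 k, hxy]
      rw [mem_box] at ht
      obtain ⟨ht0, ht1⟩ := ht 0
      refine hW _ _ fun k hkW => ?_
      rw [vadd_apply, vadd_apply]
      rw [abs_le] at hkW
      obtain ⟨a, ha⟩ : ∃ a : ℕ, (a : ℤ) = k + t 0 + W :=
        ⟨(k + t 0 + W).toNat, Int.toNat_of_nonneg (by omega)⟩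
      have ha2 : a < M + 2 * W := by omega
      have hb : a / n < B := by
        rw [Nat.div_lt_iff_lt_mul (by omega)]
        omega
      have hi : a % n < n := Nat.mod_lt _ hn1
      have hpos : pos (a / n) (a % n) = k + t 0 := by
        have h5 : ((n * (a / n) + a % n : ℕ) : ℤ) = (a : ℤ) := by rw [Nat.div_add_mod]
        rw [Nat.cast_add, Nat.cast_mul] at h5
        change (-(W : ℤ) + n * ((a / n : ℕ) : ℤ)) + ((a % n : ℕ) : ℤ) = k + t 0
        linarith
      have h6 := thr_fibre (N := n) (q := j + 1) (i := a % n) (by omega) hi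
        (x.2.1 (k + t 0)) (y.2.1 (k + t 0)) (fun m hm => by
          have h7 := congrFun hcxy (⟨a / n, hb⟩, ⟨a % n, hi⟩, ⟨m, by omega⟩)
          change thr n (j + 1) (a % n) m (x.1 (pos (a / n) (a % n))) =
            thr n (j + 1) (a % n) m (y.1 (pos (a / n) (a % n))) at h7
          rwa [hpos] at h7)
      push_cast at h6
      exact h6
  have hfl : ((⌊((M : ℝ) + 2 * W + n) / (j + 1)⌋₊ : ℕ) : ℝ) ≤ (M + 2 * W + n) / (j + 1) :=
    Nat.floor_le (by positivity)
  have h8 : (widim 1 d M ε : ℝ) ≤ ((⌊((M : ℝ) + 2 * W + n) / (j + 1)⌋₊ : ℕ) : ℝ) :=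
    Nat.cast_le.mpr hmain
  rw [← hn]
  exact h8.trans hfl

end Pool.Agent.MDX
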